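import Mathlib
import Pool.Agent.H33.Q1.TileEnv
import Pool.Agent.Q1.M4.Tot

set_option autoImplicit false
open Finset

/-! # Four marks on a tile polygon

A shape with four marks: `P : PType` (tile frame, scale `2 h`), the marks are the vertices `0`, `m2`,
`m3`, `m4 = P.m` of the boundary walk, all convex corners. Arcs: I = sides `[0, m2)` free,
II = `[m2, m3)` wired, III = `[m3, m4)` free, IV = `[m4, N)` wired. -/

namespace Pool.Agent.H21.FM

open Pool.Agent.H75.Perc hiding WL CT hh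
open Pool.Agent.H75.TwoArm Pool.Agent.H75.Four Pool.Agent.H69.Q1 Pool.Agent.Q1
open Pool.Agent.H5.Q1 (oc vx_oc ty_oc fi_oc oc_congr)
open Pool.Agent.Q1.M4 (Cell Good IsSide nextSide tail head PType Adj4 Conn4)
open Pool.Agent.H33.Q1

/-- A shape with four marks. -/
structure Shape where
  P : PType
  m2 : ℕ
  m3 : ℕ
  h02 : 0 < m2
  h23 : m2 < m3
  h34 : m3 < P.m
  /-- the marks are convex corners -/
  cvx : ∀ i, (i + 1 = m2 ∨ i + 1 = m3 ∨ i + 1 = P.m ∨ i + 1 = P.N) →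
    P.side (i + 1) = ((P.side i).1, (P.side i).2 + 1)

namespace Shape

variable (S : Shape)

/-- number of sides -/
abbrev N : ℕ := S.P.N

/-- the last mark -/
abbrev m4 : ℕ := S.P.m

/-- lifted direction of the side `i` -/
def k (i : ℕ) : ℤ := (S.P.side i).2

/-- the side `i` is free -/
def Fr (i : ℕ) : Prop := i < S.m2 ∨ (S.m3 ≤ i ∧ i < S.m4)

/-- the side `i` is wired -/
def Wd (i : ℕ) : Prop := (S.m2 ≤ i ∧ i < S.m3) ∨ (S.m4 ≤ i ∧ i < S.N)

end Shape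

/-- the label (tile) in the quadrant `(k-1, k)` of the tile frame at the vertex `v` -/
def ql (v : ℤ × ℤ) (k : ℤ) : ℤ × ℤ := v + v + dir k

/-- the `j`-th vertex (of the primal lattice) on the side `s`, at scale `2 h`; `0 ≤ j ≤ h` -/
def wv (h : ℕ) (s : Cell × ℤ) (j : ℕ) : ℤ × ℤ :=
  ((h : ℤ) * ((tail s).1 - (tail s).2) + j * (dir s.2 + dir (s.2 + 1)).1,
    (h : ℤ) * ((tail s).1 + (tail s).2) + j * (dir s.2 + dir (s.2 + 1)).2)

/-- exit corner at the `j`-th vertex of the side `s`, `1 ≤ j ≤ h` -/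
def exi (h : ℕ) (s : Cell × ℤ) (j : ℕ) : ℤ × ℤ := oc (wv h s j) s.2

/-- entry corner at the `j`-th vertex of the side `s`, `0 ≤ j < h` -/
def ent (h : ℕ) (s : Cell × ℤ) (j : ℕ) : ℤ × ℤ := oc (wv h s j) (s.2 + 2)

/-- **Admissible wired labels** outside the polygon. -/
structure Wir (S : Shape) (h : ℕ) (W : Finset (ℤ × ℤ)) : Prop where
  odd : ∀ e ∈ W, (e.1 + e.2) % 2 = 1
  disj : Disjoint (TL S.P.Q (2 * h)) W
  wired : ∀ i, S.Wd i → LY (2 * h) (S.P.side i) ⊆ W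
  free : ∀ i, S.Fr i → Disjoint (LY (2 * h) (S.P.side i)) W
  diag : ∀ i, S.Fr i → S.Fr (i + 1) → S.P.side (i + 1) = ((S.P.side i).1, (S.P.side i).2 + 1) →
    ql (wv h (S.P.side (i + 1)) 0) (S.k i) ∉ W

/-- the vertex of the first mark (belongs to the wired arc IV) -/
def v1 (S : Shape) (h : ℕ) : ℤ × ℤ := wv h (S.P.side 0) 0

/-- the vertex of the third mark (belongs to the wired arc II) -/
def v3 (S : Shape) (h : ℕ) : ℤ × ℤ := wv h (S.P.side S.m3) 0

/-- root corner at the first mark -/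
def r1 (S : Shape) (h : ℕ) : ℤ × ℤ := oc (v1 S h) (S.k 0 + 1)

/-- root corner at the third mark -/
def r3 (S : Shape) (h : ℕ) : ℤ × ℤ := oc (v3 S h) (S.k S.m3 + 1)

/-- the standard wired labels: the outer layers along the arcs II and IV -/
noncomputable def W0 (S : Shape) (h : ℕ) : Finset (ℤ × ℤ) :=
  ((Ico S.m2 S.m3) ∪ (Ico S.m4 S.N)).biUnion fun i => LY (2 * h) (S.P.side i)

/-- the arcs II and IV are connected -/
def TT (S : Shape) (h : ℕ) (ω : Finset (ℤ × ℤ)) : Prop := Co (ω ∪ W0 S h) (v3 S h) (v1 S h)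

/-- the vertex `v` is connected to the arc IV -/
def C1 (S : Shape) (h : ℕ) (v : ℤ × ℤ) (ω : Finset (ℤ × ℤ)) : Prop := Co (ω ∪ W0 S h) v (v1 S h)

/-- the vertex `v` is connected to the arc II -/
def C3 (S : Shape) (h : ℕ) (v : ℤ × ℤ) (ω : Finset (ℤ × ℤ)) : Prop := Co (ω ∪ W0 S h) v (v3 S h)

/-- random labels -/
noncomputable def EE (S : Shape) (h : ℕ) : Finset (ℤ × ℤ) := TL S.P.Q (2 * h)

/-- probability that II and IV are not connected -/
noncomputable def qn (S : Shape) (h : ℕ) : ℝ := Pr (EE S h) fun ω => ¬ TT S h ω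

/-- masses of the strands at the vertex `v` of the arc I -/
noncomputable def mA (S : Shape) (h : ℕ) (v : ℤ × ℤ) : ℝ :=
  Pr (EE S h) fun ω => C1 S h v ω ∧ TT S h ω

noncomputable def mC (S : Shape) (h : ℕ) (v : ℤ × ℤ) : ℝ :=
  Pr (EE S h) fun ω => C1 S h v ω ∧ ¬ TT S h ω

noncomputable def mD (S : Shape) (h : ℕ) (v : ℤ × ℤ) : ℝ :=
  Pr (EE S h) fun ω => C3 S h v ω ∧ ¬ TT S h ω

/-- **(P5)** at the first mark: the masses at the vertices of the side `0` near the mark. -/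
structure MarkBound (S : Shape) : Prop where
  dec : ∀ ε > (0 : ℝ), ∃ r > (0 : ℝ), ∃ H0 : ℕ, ∀ h : ℕ, H0 ≤ h → ∀ j : ℕ, 1 ≤ j → (j : ℝ) ≤ r * h →
    |mC S h (wv h (S.P.side 0) j) - qn S h * (mA S h (wv h (S.P.side 0) j) +
      mC S h (wv h (S.P.side 0) j))| ≤
      ε * (mA S h (wv h (S.P.side 0) j) + mC S h (wv h (S.P.side 0) j)) ∧
    mD S h (wv h (S.P.side 0) j) ≤
      ε * (mA S h (wv h (S.P.side 0) j) + mC S h (wv h (S.P.side 0) j))
  low : ∀ t > (0 : ℝ), t ≤ 1 → ∃ c > (0 : ℝ), ∃ H0 : ℕ, ∀ h : ℕ, H0 ≤ h →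
    c * (h : ℝ) ^ (2 / 3 : ℝ) ≤ ∑ j ∈ Icc 1 ⌊t * h⌋₊,
      (mA S h (wv h (S.P.side 0) j) + mC S h (wv h (S.P.side 0) j))

end Pool.Agent.H21.FM
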