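import Mathlib
import Pool.Agent.H21.FM.Defs
import Pool.Agent.H33.Q1.Layers
import Pool.Agent.Q1.M4.Inputs
import Pool.Agent.Q1.M6c.Dob

set_option autoImplicit false
open Finset Filter Topology

/-! # Interfaces of the four-marks theorem (statements only)

`GPrim X Ht`: `Ht` is a primitive on the tile grid (vertices = even points, faces = odd points) of the
increments of `X`. `Tab`: the exact side identities for the three primitives (helper21 proves them for the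
environments `(W12, r3)`, `(W0, r1)`, `(W34, r1)`). `LimOK`: the limit passage (a priori bound + N1). -/

namespace Pool.Agent.H21.FM

open Pool.Agent.H75.Perc hiding WL CT hh ph
open Pool.Agent.H75.TwoArm Pool.Agent.H75.Four Pool.Agent.H69.Q1 Pool.Agent.Q1
open Pool.Agent.H5.Q1 (oc vx_oc ty_oc fi_oc oc_congr)
open Pool.Agent.Q1.M4 (Cell Good IsSide nextSide tail head PType Adj4 Conn4 Reg Om lat inV lpt)
open Pool.Agent.H33.Q1

/-- primitive on the tile grid -/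
def GPrim (X : Env) (Ht : ℤ × ℤ → ℂ) : Prop :=
  ∀ c, (lab c ∈ X.E ∨ plab c ∈ X.E) → Ht (tv (vx c)) - Ht (tf (fi c)) = X.inc c

/-- statement (4a-1): existence of the primitive -/
def ExGPrim (P : PType) : Prop :=
  ∀ (h : ℕ) (X : Env), 1 ≤ h → X.E = TL P.Q (2 * h) → ∃ Ht, GPrim X Ht

/-- lattice points of the closed polygon at scale `2 h` (tile grid) -/
def inG (P : PType) (h : ℕ) (p : ℤ × ℤ) : Prop :=
  inV P.Q (fun i => 2 * h * i) (fun i => 2 * h * i) p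

/-- statement (4a-2): Hölder bound up to the boundary -/
def HoldOK (P : PType) (K : Env → Prop) : Prop :=
  ∃ C > (0 : ℝ), ∃ δ > (0 : ℝ), ∃ h0 : ℕ, ∀ h : ℕ, h0 ≤ h → ∀ X, K X → X.E = TL P.Q (2 * h) →
    ∀ Ht, GPrim X Ht → ∀ p q, inG P h p → inG P h q → ‖lat p - lat q‖ ≤ δ * h →
      ‖Ht p - Ht q‖ ≤ C * ‖lat p - lat q‖ ^ (2 / 3 : ℝ)

/-- base point of the primitive: the first mark -/
def bp (P : PType) (h : ℕ) : ℤ × ℤ := lpt (fun i => 2 * h * i) (fun i => 2 * h * i) (P.vert 0)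

/-- normalised primitive -/
noncomputable def nrm (P : PType) (h : ℕ) (Ht : ℤ × ℤ → ℂ) (p : ℤ × ℤ) : ℂ :=
  (((2 * h : ℝ) ^ (-(2 / 3) : ℝ) : ℝ) : ℂ) * (Ht p - Ht (bp P h))

/-- `g` is the limit of the normalised primitives along `U` -/
structure IsLim4 (P : PType) (hs : ℕ → ℕ) (Ht : ℕ → ℤ × ℤ → ℂ) (U : Ultrafilter ℕ) (g : ℂ → ℂ) :
    Prop where
  cont : ContinuousOn g (Reg P.Q (fun i : ℤ => (i : ℝ)) (fun i : ℤ => (i : ℝ)))
  holo : DifferentiableOn ℂ g (Om P.Q (fun i : ℤ => (i : ℝ)) (fun i : ℤ => (i : ℝ)))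
  hold : ∃ C > 0, ∃ r > 0, ∀ z ∈ Reg P.Q (fun i : ℤ => (i : ℝ)) (fun i : ℤ => (i : ℝ)),
    ∀ z' ∈ Reg P.Q (fun i : ℤ => (i : ℝ)) (fun i : ℤ => (i : ℝ)), ‖z - z'‖ ≤ r →
      ‖g z - g z'‖ ≤ C * ‖z - z'‖ ^ (2 / 3 : ℝ)
  lim : ∀ z ∈ Reg P.Q (fun i : ℤ => (i : ℝ)) (fun i : ℤ => (i : ℝ)), ∀ v : ℕ → ℤ × ℤ,
    (∀ᶠ j in (U : Filter ℕ), inG P (hs j) (v j)) →
    Tendsto (fun j => lat (v j) / ((2 * (hs j : ℝ) : ℝ) : ℂ)) U (𝓝 z) →
    Tendsto (fun j => nrm P (hs j) (Ht j) (v j)) U (𝓝 (g z))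

/-- statement (4a-3): the limit passage -/
def LimOK (P : PType) (K : Env → Prop) : Prop :=
  ∀ hs : ℕ → ℕ, Tendsto hs atTop atTop → ∀ (X : ℕ → Env) (Ht : ℕ → ℤ × ℤ → ℂ),
    (∀ᶠ j in atTop, K (X j) ∧ (X j).E = TL P.Q (2 * hs j) ∧ GPrim (X j) (Ht j)) →
    ∀ U : Ultrafilter ℕ, (U : Filter ℕ) ≤ atTop → ∃ g : ℂ → ℂ, IsLim4 P hs Ht U g

/-- the increment of `H` along the side `s` between the tile grid points `t` and `t'` -/
def incr (h : ℕ) (s : Cell × ℤ) (H : ℤ × ℤ → ℂ) (t t' : ℤ) : ℂ :=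
  H (wp (2 * h) s t') - H (wp (2 * h) s t)

/-- **The exact side identities** at scale `h`. -/
structure Tab (S : Shape) (h : ℕ) (H12 H23 H34 : ℤ × ℤ → ℂ) : Prop where
  one : ∀ i, i < S.m2 → ∀ j : ℕ, 1 ≤ j → j < h →
    incr h (S.P.side i) H23 (2 * j - 1) (2 * j + 1) = (1 - ph 2) * (ph (S.k i) *
      (mA S h (wv h (S.P.side i) j) + mC S h (wv h (S.P.side i) j) : ℝ)) ∧
    incr h (S.P.side i) H34 (2 * j - 1) (2 * j + 1) = (1 - ph 2) * (ph (S.k i) *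
      (mA S h (wv h (S.P.side i) j) + mC S h (wv h (S.P.side i) j) +
        mD S h (wv h (S.P.side i) j) : ℝ)) ∧
    incr h (S.P.side i) H12 (2 * j - 1) (2 * j + 1) = (1 - ph 2) * (ph (S.k i) *
      ((mC S h (wv h (S.P.side i) j) : ℝ) + ph 4 * (mD S h (wv h (S.P.side i) j) : ℝ)))
  two : ∀ i, S.m2 ≤ i → i < S.m3 → ∀ j : ℕ, j < h → ∃ a b d : ℝ, 0 ≤ a ∧ 0 ≤ b ∧ 0 ≤ d ∧
    incr h (S.P.side i) H23 (2 * j) (2 * j + 2) =
      (1 - ph 2) * (ph (S.k i + 1) * a + ph (S.k i - 1) * b) ∧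
    incr h (S.P.side i) H34 (2 * j) (2 * j + 2) = (1 - ph 2) * (ph (S.k i + 1) * (a + d)) ∧
    incr h (S.P.side i) H12 (2 * j) (2 * j + 2) = (1 - ph 2) * (ph (S.k i - 1) * (b + d))
  three : ∀ i, S.m3 ≤ i → i < S.m4 → ∀ j : ℕ, 1 ≤ j → j < h → ∃ b c d : ℝ,
    0 ≤ b ∧ 0 ≤ c ∧ 0 ≤ d ∧
    incr h (S.P.side i) H23 (2 * j - 1) (2 * j + 1) = (1 - ph 2) * (ph (S.k i) * (b + c)) ∧
    incr h (S.P.side i) H34 (2 * j - 1) (2 * j + 1) = (1 - ph 2) * (ph (S.k i) * (c + ph 2 * d)) ∧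
    incr h (S.P.side i) H12 (2 * j - 1) (2 * j + 1) = (1 - ph 2) * (ph (S.k i) * (b + c + d))
  four : ∀ i, S.m4 ≤ i → i < S.N → ∀ j : ℕ, j < h → ∃ a b c : ℝ, 0 ≤ a ∧ 0 ≤ b ∧ 0 ≤ c ∧
    incr h (S.P.side i) H23 (2 * j) (2 * j + 2) = (1 - ph 2) * (ph (S.k i + 1) * (a + b + c)) ∧
    incr h (S.P.side i) H34 (2 * j) (2 * j + 2) = (1 - ph 2) * (ph (S.k i + 1) * (a + c)) ∧
    incr h (S.P.side i) H12 (2 * j) (2 * j + 2) = (1 - ph 2) * (ph (S.k i + 1) * (b + c))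

/-- the root hypotheses of `Env.plane` -/
structure RootOK (S : Shape) (h : ℕ) (W : Finset (ℤ × ℤ)) (r : ℤ × ℤ) : Prop where
  notMem : plab r ∉ EE S h
  low : ∃ g : ℤ × ℤ, DCo (EE S h ∪ W) (fi r) g ∧ ∀ v, Co (EE S h ∪ W) (vx r) v → g.2 < v.2

/-- **The wired labels of the three environments** (helper33). -/
structure ThreeW (S : Shape) (h : ℕ) (W34 W12 : Finset (ℤ × ℤ)) : Prop where
  w0 : Wir S h (W0 S h)
  w34 : Wir S h W34
  w12 : Wir S h W12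
  root0 : RootOK S h (W0 S h) (r1 S h)
  root34 : RootOK S h W34 (r1 S h)
  root12 : RootOK S h W12 (r3 S h)
  co34 : Co W34 (v1 S h) (v3 S h)
  co12 : Co W12 (v1 S h) (v3 S h)
  dco : DCo (EE S h ∪ W0 S h) (fi (r1 S h)) (fi (r3 S h))

/-- The environment rooted at `r` with the wired labels `W` and the lifted root index `k0`. -/
def IsEnv (S : Shape) (h : ℕ) (W : Finset (ℤ × ℤ)) (r : ℤ × ℤ) (k0 : ℤ) (X : Env) : Prop :=
  M6c.PlaneEnv X W ∧ X.E = EE S h ∧ X.c0 = r ∧ X.k0 = k0 ∧ X.T = 4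

end Pool.Agent.H21.FM
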