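import Mathlib
import Pool.Agent.H21.FM.Inter

set_option autoImplicit false
open Finset Filter Topology

/-! # The table, configuration by configuration (statement)

`V1 ω z`, `V3 ω z`: phases of the visits of the strands `S1`, `S3` at the corner `z`; `s1 ω z`, `s3 ω z`:
the strand passes through `z`. helper21 proves `∃ V1 V3 s1 s3, CTab ..` for the three environments;
`tab_of_ctab` (expectations, `GPrim`) gives `Tab`. -/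

namespace Pool.Agent.H21.FM

open Pool.Agent.H75.Perc hiding WL CT hh ph
open Pool.Agent.H75.TwoArm Pool.Agent.H75.Four Pool.Agent.H69.Q1 Pool.Agent.Q1
open Pool.Agent.H5.Q1 (oc vx_oc ty_oc fi_oc oc_congr)
open Pool.Agent.H33.Q1

open scoped Classical in
/-- the table for one configuration -/
structure CTab (S : Shape) (h : ℕ) (X12 X23 X34 : Env)
    (V1 V3 : Finset (ℤ × ℤ) → ℤ × ℤ → ℂ) (s1 s3 : Finset (ℤ × ℤ) → ℤ × ℤ → Prop) : Prop where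
  e12 : X12.E = EE S h
  e23 : X23.E = EE S h
  e34 : X34.E = EE S h
  incO23 : ∀ ω ⊆ EE S h, ∀ z, (lab z ∈ EE S h ∨ plab z ∈ EE S h) →
    X23.incO ω z = V1 ω z + if TT S h ω then V3 ω z else 0
  incO34 : ∀ ω ⊆ EE S h, ∀ z, (lab z ∈ EE S h ∨ plab z ∈ EE S h) →
    X34.incO ω z = V1 ω z + if TT S h ω then 0 else ph 2 * V3 ω z
  incO12 : ∀ ω ⊆ EE S h, ∀ z, (lab z ∈ EE S h ∨ plab z ∈ EE S h) →
    X12.incO ω z = V3 ω z + if TT S h ω then 0 else V1 ω z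
  exi1 : ∀ ω ⊆ EE S h, ∀ i < S.N, ∀ j, 1 ≤ j → j ≤ h →
    V1 ω (exi h (S.P.side i) j) = if s1 ω (exi h (S.P.side i) j) then ph (S.k i) else 0
  exi3 : ∀ ω ⊆ EE S h, ∀ i < S.N, ∀ j, 1 ≤ j → j ≤ h →
    V3 ω (exi h (S.P.side i) j) =
      if s3 ω (exi h (S.P.side i) j) then ph (S.k i + if i < S.m3 then 4 else 0) else 0
  free1 : ∀ ω ⊆ EE S h, ∀ i < S.N, S.Fr i → ∀ j, 1 ≤ j → j < h →
    V1 ω (ent h (S.P.side i) j) = ph 2 * V1 ω (exi h (S.P.side i) j)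
  free3 : ∀ ω ⊆ EE S h, ∀ i < S.N, S.Fr i → ∀ j, 1 ≤ j → j < h →
    V3 ω (ent h (S.P.side i) j) = ph 2 * V3 ω (exi h (S.P.side i) j)
  wired1 : ∀ ω ⊆ EE S h, ∀ i < S.N, S.Wd i → ∀ j, j < h →
    V1 ω (ent h (S.P.side i) j) = ph (-2) * V1 ω (exi h (S.P.side i) (j + 1))
  wired3 : ∀ ω ⊆ EE S h, ∀ i < S.N, S.Wd i → ∀ j, j < h →
    V3 ω (ent h (S.P.side i) j) = ph (-2) * V3 ω (exi h (S.P.side i) (j + 1))
  vanI : ∀ ω ⊆ EE S h, ∀ i, i < S.m2 → ∀ j, 1 ≤ j → j ≤ h →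
    s3 ω (exi h (S.P.side i) j) → ¬ TT S h ω
  vanII : ∀ ω ⊆ EE S h, ∀ i, S.m2 ≤ i → i < S.m3 → ∀ j, 1 ≤ j → j ≤ h →
    s1 ω (exi h (S.P.side i) j) → TT S h ω
  vanIII : ∀ ω ⊆ EE S h, ∀ i, S.m3 ≤ i → i < S.m4 → ∀ j, 1 ≤ j → j ≤ h →
    s1 ω (exi h (S.P.side i) j) → ¬ TT S h ω
  vanIV : ∀ ω ⊆ EE S h, ∀ i, S.m4 ≤ i → i < S.N → ∀ j, 1 ≤ j → j ≤ h →
    s3 ω (exi h (S.P.side i) j) → TT S h ω
  eqA : ∀ ω ⊆ EE S h, ∀ i, i < S.m2 → ∀ j, 1 ≤ j → j < h →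
    (s1 ω (exi h (S.P.side i) j) ↔ C1 S h (wv h (S.P.side i) j) ω)
  eqD : ∀ ω ⊆ EE S h, ∀ i, i < S.m2 → ∀ j, 1 ≤ j → j < h → ¬ TT S h ω →
    (s3 ω (exi h (S.P.side i) j) ↔ C3 S h (wv h (S.P.side i) j) ω)

end Pool.Agent.H21.FM
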