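import Mathlib
import Pool.Agent.H21.FM.Defs

set_option autoImplicit false
open Finset

/-! # Geometry of the walls of a tile polygon

Labels at the wall vertices `wv h s j`; exit and entry corners. -/

namespace Pool.Agent.H21.FM

open Pool.Agent.H75.Perc hiding WL CT hh
open Pool.Agent.H75.TwoArm Pool.Agent.H75.Four Pool.Agent.H69.Q1 Pool.Agent.Q1
open Pool.Agent.H5.Q1 (oc vx_oc ty_oc fi_oc oc_congr oc_inj eq_oc nxC_oc nxO_oc oc_cases)
open Pool.Agent.Q1.M4 (Cell Good IsSide nextSide tail head PType Adj4 Conn4 dir_add_four)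
open Pool.Agent.H33.Q1

lemma lab_oc (p : ℤ × ℤ) (k : ℤ) : lab (oc p k) = ql p (k - 1) := Pool.Agent.Q1.Dob.lab_oc p k

lemma dir_congr {k l : ℤ} (h : k % 4 = l % 4) : dir k = dir l := by
  rcases dir_cases k with ⟨a, e⟩ | ⟨a, e⟩ | ⟨a, e⟩ | ⟨a, e⟩ <;>
  rcases dir_cases l with ⟨b, f⟩ | ⟨b, f⟩ | ⟨b, f⟩ | ⟨b, f⟩ <;>
  first | (exfalso; omega) | rw [e, f]

lemma ql_congr (p : ℤ × ℤ) {k l : ℤ} (h : k % 4 = l % 4) : ql p k = ql p l := by
  unfold ql; rw [dir_congr h]

lemma dir0 {k : ℤ} (h : k % 4 = 0) : dir k = (1, 0) := by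
  rcases dir_cases k with ⟨b, f⟩ | ⟨b, f⟩ | ⟨b, f⟩ | ⟨b, f⟩ <;> first | (exfalso; omega) | exact f

lemma dir1 {k : ℤ} (h : k % 4 = 1) : dir k = (0, 1) := by
  rcases dir_cases k with ⟨b, f⟩ | ⟨b, f⟩ | ⟨b, f⟩ | ⟨b, f⟩ <;> first | (exfalso; omega) | exact f

lemma dir2 {k : ℤ} (h : k % 4 = 2) : dir k = (-1, 0) := by
  rcases dir_cases k with ⟨b, f⟩ | ⟨b, f⟩ | ⟨b, f⟩ | ⟨b, f⟩ <;> first | (exfalso; omega) | exact f

lemma dir3 {k : ℤ} (h : k % 4 = 3) : dir k = (0, -1) := by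
  rcases dir_cases k with ⟨b, f⟩ | ⟨b, f⟩ | ⟨b, f⟩ | ⟨b, f⟩ <;> first | (exfalso; omega) | exact f

lemma ql_odd (p : ℤ × ℤ) (k : ℤ) : ((ql p k).1 + (ql p k).2) % 2 = 1 := by
  unfold ql
  rcases dir_cases k with ⟨b, f⟩ | ⟨b, f⟩ | ⟨b, f⟩ | ⟨b, f⟩ <;> rw [f] <;> simp <;> omega

/-- position of the tile of a label at a vertex -/
lemma tt_ql (p : ℤ × ℤ) (k : ℤ) : (k % 4 = 0 → tt (ql p k) = tv p - (0, 1)) ∧
    (k % 4 = 1 → tt (ql p k) = tv p) ∧
    (k % 4 = 2 → tt (ql p k) = tv p - (1, 0)) ∧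
    (k % 4 = 3 → tt (ql p k) = tv p - (1, 1)) := by
  obtain ⟨x, y⟩ := p
  refine ⟨fun h => ?_, fun h => ?_, fun h => ?_, fun h => ?_⟩
  · unfold ql tt tv; rw [dir0 h]; refine Prod.ext ?_ ?_ <;> simp <;> omega
  · unfold ql tt tv; rw [dir1 h]; refine Prod.ext ?_ ?_ <;> simp <;> omega
  · unfold ql tt tv; rw [dir2 h]; refine Prod.ext ?_ ?_ <;> simp <;> omega
  · unfold ql tt tv; rw [dir3 h]; refine Prod.ext ?_ ?_ <;> simp <;> omega

lemma tv_inj {p q : ℤ × ℤ} (h : tv p = tv q) : p = q := by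
  unfold tv at h
  have e1 := congrArg Prod.fst h
  have e2 := congrArg Prod.snd h
  simp only at e1 e2
  exact Prod.ext (by omega) (by omega)

lemma plab_oc (p : ℤ × ℤ) (k : ℤ) : plab (oc p k) = ql p (k + 2) := by
  have h1 := tt_plab_oc p k
  have h2 := tt_ql p (k + 2)
  have e : tt (plab (oc p k)) = tt (ql p (k + 2)) := by
    obtain ⟨a0, a1, a2, a3⟩ := h1
    obtain ⟨b0, b1, b2, b3⟩ := h2
    have : k % 4 = 0 ∨ k % 4 = 1 ∨ k % 4 = 2 ∨ k % 4 = 3 := by omega
    rcases this with h | h | h | h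
    · rw [a0 h, b2 (by omega)]
    · rw [a1 h, b3 (by omega)]
    · rw [a2 h, b0 (by omega)]
    · rw [a3 h, b1 (by omega)]
  have o1 : ((plab (oc p k)).1 + (plab (oc p k)).2) % 2 = 1 := by
    obtain ⟨x, y⟩ := p
    rcases oc_cases (x, y) k with ⟨a, h⟩ | ⟨a, h⟩ | ⟨a, h⟩ | ⟨a, h⟩ <;> rw [h] <;> unfold plab <;>
      simp only <;> split_ifs <;> simp <;> omega
  rw [← lt_tt o1, e, lt_tt (ql_odd p (k + 2))]

/-! ### Wall vertices -/

lemma wv_congr (h : ℕ) {c : Cell} {k l : ℤ} (hk : k % 4 = l % 4) (j : ℕ) :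
    wv h (c, k) j = wv h (c, l) j := by
  have e1 : tail (c, k) = tail (c, l) := by unfold tail; simp only [hk]
  have e2 : dir k = dir l := dir_congr hk
  have e3 : dir (k + 1) = dir (l + 1) := dir_congr (by omega)
  unfold wv
  simp only [e1, e2, e3]

lemma tv_wv (h : ℕ) (s : Cell × ℤ) (j : ℕ) : tv (wv h s j) =
    (2 * h * (tail s).1 + 2 * j * (dir s.2).1, 2 * h * (tail s).2 + 2 * j * (dir s.2).2) := by
  unfold wv tv
  have : (dir (s.2 + 1)).1 = -(dir s.2).2 ∧ (dir (s.2 + 1)).2 = (dir s.2).1 := by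
    rcases dir_cases s.2 with ⟨a, e⟩ | ⟨a, e⟩ | ⟨a, e⟩ | ⟨a, e⟩ <;>
    rcases dir_cases (s.2 + 1) with ⟨b, f⟩ | ⟨b, f⟩ | ⟨b, f⟩ | ⟨b, f⟩ <;>
    first | (exfalso; omega) | (rw [e, f]; constructor <;> rfl)
  simp only [Prod.fst_add, Prod.snd_add, this.1, this.2]
  refine Prod.ext ?_ ?_ <;> simp only <;> ring

lemma wv_succ (h : ℕ) (s : Cell × ℤ) (j : ℕ) :
    wv h s (j + 1) = wv h s j + dir s.2 + dir (s.2 + 1) := by
  unfold wv
  refine Prod.ext ?_ ?_ <;> simp <;> ring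

/-- the last vertex of a side is the first vertex of the next side -/
lemma wv_last (h : ℕ) (Q : Finset Cell) (s : Cell × ℤ) : wv h s h = wv h (nextSide Q s) 0 := by
  apply tv_inj
  rw [tv_wv, tv_wv, M4.head_eq_tail_next]
  unfold head
  refine Prod.ext ?_ ?_ <;> simp <;> ring

section cells

variable {h : ℕ}

lemma tail0 {s : Cell × ℤ} (a : s.2 % 4 = 0) : tail s = s.1 := by unfold tail; rw [if_pos a]

lemma tail1 {s : Cell × ℤ} (a : s.2 % 4 = 1) : tail s = s.1 + (1, 0) := by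
  unfold tail; rw [if_neg (by omega), if_pos a]

lemma tail2 {s : Cell × ℤ} (a : s.2 % 4 = 2) : tail s = s.1 + (1, 1) := by
  unfold tail; rw [if_neg (by omega), if_neg (by omega), if_pos a]

lemma tail3 {s : Cell × ℤ} (a : s.2 % 4 = 3) : tail s = s.1 + (0, 1) := by
  unfold tail; rw [if_neg (by omega), if_neg (by omega), if_neg (by omega)]

/-- The four tiles at a wall vertex: description in coordinates. -/
lemma pos_wv (hh : 0 < h) (s : Cell × ℤ) (j : ℕ) (hj : j ≤ h) :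
    (s.2 % 4 = 0 ∧ (tv (wv h s j)) = (2 * h * s.1.1 + 2 * j, 2 * h * s.1.2)) ∨
    (s.2 % 4 = 1 ∧ (tv (wv h s j)) = (2 * h * s.1.1 + 2 * h, 2 * h * s.1.2 + 2 * j)) ∨
    (s.2 % 4 = 2 ∧ (tv (wv h s j)) = (2 * h * s.1.1 + 2 * h - 2 * j, 2 * h * s.1.2 + 2 * h)) ∨
    (s.2 % 4 = 3 ∧ (tv (wv h s j)) = (2 * h * s.1.1, 2 * h * s.1.2 + 2 * h - 2 * j)) := by
  rw [tv_wv]
  rcases dir_cases s.2 with ⟨a, e⟩ | ⟨a, e⟩ | ⟨a, e⟩ | ⟨a, e⟩ <;> rw [e]
  · left; rw [tail0 a]; exact ⟨a, by refine Prod.ext ?_ ?_ <;> simp⟩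
  · right; left; rw [tail1 a]; exact ⟨a, by refine Prod.ext ?_ ?_ <;> simp <;> ring⟩
  · right; right; left; rw [tail2 a]; exact ⟨a, by refine Prod.ext ?_ ?_ <;> simp <;> ring⟩
  · right; right; right; rw [tail3 a]; exact ⟨a, by refine Prod.ext ?_ ?_ <;> simp <;> ring⟩

lemma ct_of' (hh : 0 < h) {p : ℤ × ℤ} {c : Cell} (h1 : 2 * h * c.1 ≤ p.1)
    (h2 : p.1 < 2 * h * c.1 + 2 * h) (h3 : 2 * h * c.2 ≤ p.2) (h4 : p.2 < 2 * h * c.2 + 2 * h) :
    ct (2 * h) p = c :=
  ct_of (by positivity) (by linarith) (by linarith) (by linarith) (by linarith)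

/-- inner tile after the vertex -/
lemma ct_in (hh : 0 < h) (s : Cell × ℤ) {j : ℕ} (hj : j < h) :
    ct (2 * h) (tt (ql (wv h s j) (s.2 + 1))) = s.1 := by
  have hjz : (j : ℤ) < h := by exact_mod_cast hj
  have h0 : (0 : ℤ) ≤ j := by positivity
  obtain ⟨q0, q1, q2, q3⟩ := tt_ql (wv h s j) (s.2 + 1)
  rcases pos_wv hh s j hj.le with ⟨a, e⟩ | ⟨a, e⟩ | ⟨a, e⟩ | ⟨a, e⟩
  · rw [q1 (by omega), e]; apply ct_of' hh <;> simp only <;> linarith
  · rw [q2 (by omega), e]; apply ct_of' hh <;> simp only [Prod.fst_sub, Prod.snd_sub] <;> linarith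
  · rw [q3 (by omega), e]; apply ct_of' hh <;> simp only [Prod.fst_sub, Prod.snd_sub] <;> linarith
  · rw [q0 (by omega), e]; apply ct_of' hh <;> simp only [Prod.fst_sub, Prod.snd_sub] <;> linarith

/-- inner tile before the vertex -/
lemma ct_in' (hh : 0 < h) (s : Cell × ℤ) {j : ℕ} (hj1 : 1 ≤ j) (hj : j ≤ h) :
    ct (2 * h) (tt (ql (wv h s j) (s.2 + 2))) = s.1 := by
  have hjz : (j : ℤ) ≤ h := by exact_mod_cast hj
  have h0 : (1 : ℤ) ≤ j := by exact_mod_cast hj1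
  obtain ⟨q0, q1, q2, q3⟩ := tt_ql (wv h s j) (s.2 + 2)
  rcases pos_wv hh s j hj with ⟨a, e⟩ | ⟨a, e⟩ | ⟨a, e⟩ | ⟨a, e⟩
  · rw [q2 (by omega), e]; apply ct_of' hh <;> simp only [Prod.fst_sub, Prod.snd_sub] <;> linarith
  · rw [q3 (by omega), e]; apply ct_of' hh <;> simp only [Prod.fst_sub, Prod.snd_sub] <;> linarith
  · rw [q0 (by omega), e]; apply ct_of' hh <;> simp only [Prod.fst_sub, Prod.snd_sub] <;> linarith
  · rw [q1 (by omega), e]; apply ct_of' hh <;> simp only <;> linarith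

/-- outer tile after the vertex -/
lemma ly_out (hh : 0 < h) (s : Cell × ℤ) {j : ℕ} (hj : j < h) :
    ql (wv h s j) s.2 ∈ LY (2 * h) s := by
  have hjz : (j : ℤ) < h := by exact_mod_cast hj
  have h0 : (0 : ℤ) ≤ j := by positivity
  have hn : (0 : ℤ) < 2 * h := by positivity
  rw [mem_LY hn]
  refine ⟨ql_odd _ _, ?_⟩
  obtain ⟨q0, q1, q2, q3⟩ := tt_ql (wv h s j) s.2
  rcases pos_wv hh s j hj.le with ⟨a, e⟩ | ⟨a, e⟩ | ⟨a, e⟩ | ⟨a, e⟩
  · rw [q0 a, e, dir3 (by omega : (s.2 - 1) % 4 = 3)]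
    constructor <;> apply ct_of' hh <;> simp <;> linarith
  · rw [q1 a, e, dir0 (by omega : (s.2 - 1) % 4 = 0)]
    constructor <;> apply ct_of' hh <;> simp <;> linarith
  · rw [q2 a, e, dir1 (by omega : (s.2 - 1) % 4 = 1)]
    constructor <;> apply ct_of' hh <;> simp <;> linarith
  · rw [q3 a, e, dir2 (by omega : (s.2 - 1) % 4 = 2)]
    constructor <;> apply ct_of' hh <;> simp <;> linarith

/-- outer tile before the vertex -/
lemma ly_out' (hh : 0 < h) (s : Cell × ℤ) {j : ℕ} (hj1 : 1 ≤ j) (hj : j ≤ h) :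
    ql (wv h s j) (s.2 - 1) ∈ LY (2 * h) s := by
  have hjz : (j : ℤ) ≤ h := by exact_mod_cast hj
  have h0 : (1 : ℤ) ≤ j := by exact_mod_cast hj1
  have hn : (0 : ℤ) < 2 * h := by positivity
  rw [mem_LY hn]
  refine ⟨ql_odd _ _, ?_⟩
  obtain ⟨q0, q1, q2, q3⟩ := tt_ql (wv h s j) (s.2 - 1)
  rcases pos_wv hh s j hj with ⟨a, e⟩ | ⟨a, e⟩ | ⟨a, e⟩ | ⟨a, e⟩
  · rw [q3 (by omega), e, dir3 (by omega : (s.2 - 1) % 4 = 3)]
    constructor <;> apply ct_of' hh <;> simp <;> linarith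
  · rw [q0 (by omega), e, dir0 (by omega : (s.2 - 1) % 4 = 0)]
    constructor <;> apply ct_of' hh <;> simp <;> linarith
  · rw [q1 (by omega), e, dir1 (by omega : (s.2 - 1) % 4 = 1)]
    constructor <;> apply ct_of' hh <;> simp <;> linarith
  · rw [q2 (by omega), e, dir2 (by omega : (s.2 - 1) % 4 = 2)]
    constructor <;> apply ct_of' hh <;> simp <;> linarith

end cells

section converse

variable {h : ℕ}

lemma tv_parity (p : ℤ × ℤ) : ((tv p).1 + (tv p).2) % 2 = 0 := by unfold tv; simp only; omega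

lemma ct_spec (hh : 0 < h) (p : ℤ × ℤ) : ∃ a b : ℤ, a = h * (ct (2 * h) p).1 ∧
    b = h * (ct (2 * h) p).2 ∧ 2 * a ≤ p.1 ∧ p.1 < 2 * a + 2 * h ∧ 2 * b ≤ p.2 ∧
    p.2 < 2 * b + 2 * h := by
  have hn : (0 : ℤ) < 2 * h := by positivity
  obtain ⟨⟨h1, h2⟩, h3, h4⟩ := (ct_eq hn (p := p) (c := ct (2 * h) p)).1 rfl
  exact ⟨_, _, rfl, rfl, by linarith, by linarith, by linarith, by linarith⟩

/-- Exit corners: the label behind is inside, the label in front is outside. -/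
lemma exit_of (hh : 0 < h) {Q : Finset Cell} {p : ℤ × ℤ} {k : ℤ}
    (h1 : ql p (k + 2) ∈ TL Q (2 * h)) (h2 : ql p (k - 1) ∉ TL Q (2 * h)) :
    ∃ c : Cell, IsSide Q (c, k) ∧ ∃ j, 1 ≤ j ∧ j ≤ h ∧ p = wv h (c, k) j := by
  have hn : (0 : ℤ) < 2 * h := by positivity
  have g1 := ((mem_TL hn).1 h1).2
  have g2 : ct (2 * h) (tt (ql p (k - 1))) ∉ Q := fun h' => h2 ((mem_TL hn).2 ⟨ql_odd _ _, h'⟩)
  set c := ct (2 * h) (tt (ql p (k + 2))) with hc
  obtain ⟨a, b, ha, hb, i1, i2, i3, i4⟩ := ct_spec hh (tt (ql p (k + 2)))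
  rw [← hc] at ha hb
  obtain ⟨q0, q1, q2, q3⟩ := tt_ql p (k + 2)
  obtain ⟨r0, r1, r2, r3⟩ := tt_ql p (k - 1)
  have hpar := tv_parity p
  set X := (tv p).1 with hX
  set Y := (tv p).2 with hY
  have htv : tv p = (X, Y) := rfl
  have hk : k % 4 = 0 ∨ k % 4 = 1 ∨ k % 4 = 2 ∨ k % 4 = 3 := by omega
  rcases hk with hk | hk | hk | hk
  · rw [q2 (by omega), htv] at i1 i2 i3 i4
    rw [r3 (by omega), htv] at g2
    simp only [Prod.fst_sub, Prod.snd_sub, sub_zero] at i1 i2 i3 i4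
    have e1 : Y = 2 * b := by
      by_contra hcon
      apply g2
      rw [ct_of' hh (c := c)]
      · exact g1
      all_goals simp only [Prod.fst_sub, Prod.snd_sub]; rw [mul_assoc]; first | rw [← ha] | rw [← hb]
      all_goals omega
    have e2 : ct (2 * h) (tv p - (1, 1)) = c + dir (k - 1) := by
      rw [dir3 (by omega : (k - 1) % 4 = 3), htv]
      apply ct_of' hh <;> simp only [Prod.fst_sub, Prod.snd_sub, Prod.fst_add, Prod.snd_add,
        add_zero] <;> nlinarith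
    refine ⟨c, ⟨g1, ?_⟩, ((X - 2 * a) / 2).toNat, by omega, by omega, ?_⟩
    · rw [← e2]; exact g2
    · apply tv_inj
      rcases pos_wv hh (c, k) (((X - 2 * a) / 2).toNat) (by omega) with ⟨z, e⟩ | ⟨z, e⟩ | ⟨z, e⟩ | ⟨z, e⟩
      · rw [e, htv]
        refine Prod.ext ?_ ?_ <;> simp only [mul_assoc] <;> first | rw [← ha] | rw [← hb]
        all_goals omega
      all_goals (simp only at z; omega)
  · rw [q3 (by omega), htv] at i1 i2 i3 i4
    rw [r0 (by omega), htv] at g2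
    simp only [Prod.fst_sub, Prod.snd_sub, sub_zero] at i1 i2 i3 i4
    have e1 : X = 2 * a + 2 * h := by
      by_contra hcon
      apply g2
      rw [ct_of' hh (c := c)]
      · exact g1
      all_goals simp only [Prod.fst_sub, Prod.snd_sub]; rw [mul_assoc]; first | rw [← ha] | rw [← hb]
      all_goals omega
    have e2 : ct (2 * h) (tv p - (0, 1)) = c + dir (k - 1) := by
      rw [dir0 (by omega : (k - 1) % 4 = 0), htv]
      apply ct_of' hh <;> simp only [Prod.fst_sub, Prod.snd_sub, Prod.fst_add, Prod.snd_add,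
        add_zero] <;> nlinarith
    refine ⟨c, ⟨g1, ?_⟩, ((Y - 2 * b) / 2).toNat, by omega, by omega, ?_⟩
    · rw [← e2]; exact g2
    · apply tv_inj
      rcases pos_wv hh (c, k) (((Y - 2 * b) / 2).toNat) (by omega) with ⟨z, e⟩ | ⟨z, e⟩ | ⟨z, e⟩ | ⟨z, e⟩
      · simp only at z; omega
      · rw [e, htv]
        refine Prod.ext ?_ ?_ <;> simp only [mul_assoc] <;> first | rw [← ha] | rw [← hb]
        all_goals omega
      all_goals (simp only at z; omega)
  · rw [q0 (by omega), htv] at i1 i2 i3 i4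
    rw [r1 (by omega), htv] at g2
    simp only [Prod.fst_sub, Prod.snd_sub, sub_zero] at i1 i2 i3 i4
    have e1 : Y = 2 * b + 2 * h := by
      by_contra hcon
      apply g2
      rw [ct_of' hh (c := c)]
      · exact g1
      all_goals simp only; rw [mul_assoc]; first | rw [← ha] | rw [← hb]
      all_goals omega
    have e2 : ct (2 * h) (tv p) = c + dir (k - 1) := by
      rw [dir1 (by omega : (k - 1) % 4 = 1), htv]
      apply ct_of' hh <;> simp only [Prod.fst_add, Prod.snd_add,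
        add_zero] <;> nlinarith
    refine ⟨c, ⟨g1, ?_⟩, ((2 * a + 2 * h - X) / 2).toNat, by omega, by omega, ?_⟩
    · rw [← e2, htv]; exact g2
    · apply tv_inj
      rcases pos_wv hh (c, k) (((2 * a + 2 * h - X) / 2).toNat) (by omega) with
        ⟨z, e⟩ | ⟨z, e⟩ | ⟨z, e⟩ | ⟨z, e⟩
      · simp only at z; omega
      · simp only at z; omega
      · rw [e, htv]
        refine Prod.ext ?_ ?_ <;> simp only [mul_assoc] <;> first | rw [← ha] | rw [← hb]
        all_goals omega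
      · simp only at z; omega
  · rw [q1 (by omega), htv] at i1 i2 i3 i4
    rw [r2 (by omega), htv] at g2
    simp only [Prod.fst_sub, Prod.snd_sub, sub_zero] at i1 i2 i3 i4
    have e1 : X = 2 * a := by
      by_contra hcon
      apply g2
      rw [ct_of' hh (c := c)]
      · exact g1
      all_goals simp only [Prod.fst_sub, Prod.snd_sub]; rw [mul_assoc]; first | rw [← ha] | rw [← hb]
      all_goals omega
    have e2 : ct (2 * h) (tv p - (1, 0)) = c + dir (k - 1) := by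
      rw [dir2 (by omega : (k - 1) % 4 = 2), htv]
      apply ct_of' hh <;> simp only [Prod.fst_sub, Prod.snd_sub, Prod.fst_add, Prod.snd_add,
        add_zero] <;> nlinarith
    refine ⟨c, ⟨g1, ?_⟩, ((2 * b + 2 * h - Y) / 2).toNat, by omega, by omega, ?_⟩
    · rw [← e2]; exact g2
    · apply tv_inj
      rcases pos_wv hh (c, k) (((2 * b + 2 * h - Y) / 2).toNat) (by omega) with
        ⟨z, e⟩ | ⟨z, e⟩ | ⟨z, e⟩ | ⟨z, e⟩
      · simp only at z; omega
      · simp only at z; omega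
      · simp only at z; omega
      · rw [e, htv]
        refine Prod.ext ?_ ?_ <;> simp only [mul_assoc] <;> first | rw [← ha] | rw [← hb]
        all_goals omega

/-- Entry corners: the label in front is inside, the label behind is outside. -/
lemma entry_of (hh : 0 < h) {Q : Finset Cell} {p : ℤ × ℤ} {k : ℤ}
    (h1 : ql p (k + 1) ∈ TL Q (2 * h)) (h2 : ql p k ∉ TL Q (2 * h)) :
    ∃ c : Cell, IsSide Q (c, k) ∧ ∃ j < h, p = wv h (c, k) j := by
  have hn : (0 : ℤ) < 2 * h := by positivity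
  have g1 := ((mem_TL hn).1 h1).2
  have g2 : ct (2 * h) (tt (ql p k)) ∉ Q := fun h' => h2 ((mem_TL hn).2 ⟨ql_odd _ _, h'⟩)
  set c := ct (2 * h) (tt (ql p (k + 1))) with hc
  obtain ⟨a, b, ha, hb, i1, i2, i3, i4⟩ := ct_spec hh (tt (ql p (k + 1)))
  rw [← hc] at ha hb
  obtain ⟨q0, q1, q2, q3⟩ := tt_ql p (k + 1)
  obtain ⟨r0, r1, r2, r3⟩ := tt_ql p k
  have hpar := tv_parity p
  set X := (tv p).1 with hX
  set Y := (tv p).2 with hY
  have htv : tv p = (X, Y) := rfl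
  have hk : k % 4 = 0 ∨ k % 4 = 1 ∨ k % 4 = 2 ∨ k % 4 = 3 := by omega
  rcases hk with hk | hk | hk | hk
  · rw [q1 (by omega), htv] at i1 i2 i3 i4
    rw [r0 (by omega), htv] at g2
    simp only [Prod.fst_sub, Prod.snd_sub, sub_zero] at i1 i2 i3 i4
    have e1 : Y = 2 * b := by
      by_contra hcon
      apply g2
      rw [ct_of' hh (c := c)]
      · exact g1
      all_goals simp only [Prod.fst_sub, Prod.snd_sub]; rw [mul_assoc]; first | rw [← ha] | rw [← hb]
      all_goals omega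
    have e2 : ct (2 * h) (tv p - (0, 1)) = c + dir (k - 1) := by
      rw [dir3 (by omega : (k - 1) % 4 = 3), htv]
      apply ct_of' hh <;> simp only [Prod.fst_sub, Prod.snd_sub, Prod.fst_add, Prod.snd_add,
        add_zero] <;> nlinarith
    refine ⟨c, ⟨g1, ?_⟩, ((X - 2 * a) / 2).toNat, by omega, ?_⟩
    · rw [← e2, htv]; exact g2
    · apply tv_inj
      rcases pos_wv hh (c, k) (((X - 2 * a) / 2).toNat) (by omega) with
        ⟨z, e⟩ | ⟨z, e⟩ | ⟨z, e⟩ | ⟨z, e⟩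
      · rw [e, htv]
        refine Prod.ext ?_ ?_ <;> simp only [mul_assoc] <;> first | rw [← ha] | rw [← hb]
        all_goals omega
      · simp only at z; omega
      · simp only at z; omega
      · simp only at z; omega
  · rw [q2 (by omega), htv] at i1 i2 i3 i4
    rw [r1 (by omega), htv] at g2
    simp only [Prod.fst_sub, Prod.snd_sub, sub_zero] at i1 i2 i3 i4
    have e1 : X = 2 * a + 2 * h := by
      by_contra hcon
      apply g2
      rw [ct_of' hh (c := c)]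
      · exact g1
      all_goals simp only [Prod.fst_sub, Prod.snd_sub]; rw [mul_assoc]; first | rw [← ha] | rw [← hb]
      all_goals omega
    have e2 : ct (2 * h) (tv p) = c + dir (k - 1) := by
      rw [dir0 (by omega : (k - 1) % 4 = 0), htv]
      apply ct_of' hh <;> simp only [Prod.fst_sub, Prod.snd_sub, Prod.fst_add, Prod.snd_add,
        add_zero] <;> nlinarith
    refine ⟨c, ⟨g1, ?_⟩, ((Y - 2 * b) / 2).toNat, by omega, ?_⟩
    · rw [← e2, htv]; exact g2
    · apply tv_inj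
      rcases pos_wv hh (c, k) (((Y - 2 * b) / 2).toNat) (by omega) with
        ⟨z, e⟩ | ⟨z, e⟩ | ⟨z, e⟩ | ⟨z, e⟩
      · simp only at z; omega
      · rw [e, htv]
        refine Prod.ext ?_ ?_ <;> simp only [mul_assoc] <;> first | rw [← ha] | rw [← hb]
        all_goals omega
      · simp only at z; omega
      · simp only at z; omega
  · rw [q3 (by omega), htv] at i1 i2 i3 i4
    rw [r2 (by omega), htv] at g2
    simp only [Prod.fst_sub, Prod.snd_sub, sub_zero] at i1 i2 i3 i4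
    have e1 : Y = 2 * b + 2 * h := by
      by_contra hcon
      apply g2
      rw [ct_of' hh (c := c)]
      · exact g1
      all_goals simp only [Prod.fst_sub, Prod.snd_sub]; rw [mul_assoc]; first | rw [← ha] | rw [← hb]
      all_goals omega
    have e2 : ct (2 * h) (tv p - (1, 0)) = c + dir (k - 1) := by
      rw [dir1 (by omega : (k - 1) % 4 = 1), htv]
      apply ct_of' hh <;> simp only [Prod.fst_sub, Prod.snd_sub, Prod.fst_add, Prod.snd_add,
        add_zero] <;> nlinarith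
    refine ⟨c, ⟨g1, ?_⟩, ((2 * a + 2 * h - X) / 2).toNat, by omega, ?_⟩
    · rw [← e2, htv]; exact g2
    · apply tv_inj
      rcases pos_wv hh (c, k) (((2 * a + 2 * h - X) / 2).toNat) (by omega) with
        ⟨z, e⟩ | ⟨z, e⟩ | ⟨z, e⟩ | ⟨z, e⟩
      · simp only at z; omega
      · simp only at z; omega
      · rw [e, htv]
        refine Prod.ext ?_ ?_ <;> simp only [mul_assoc] <;> first | rw [← ha] | rw [← hb]
        all_goals omega
      · simp only at z; omega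
  · rw [q0 (by omega), htv] at i1 i2 i3 i4
    rw [r3 (by omega), htv] at g2
    simp only [Prod.fst_sub, Prod.snd_sub, sub_zero] at i1 i2 i3 i4
    have e1 : X = 2 * a := by
      by_contra hcon
      apply g2
      rw [ct_of' hh (c := c)]
      · exact g1
      all_goals simp only [Prod.fst_sub, Prod.snd_sub]; rw [mul_assoc]; first | rw [← ha] | rw [← hb]
      all_goals omega
    have e2 : ct (2 * h) (tv p - (1, 1)) = c + dir (k - 1) := by
      rw [dir2 (by omega : (k - 1) % 4 = 2), htv]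
      apply ct_of' hh <;> simp only [Prod.fst_sub, Prod.snd_sub, Prod.fst_add, Prod.snd_add,
        add_zero] <;> nlinarith
    refine ⟨c, ⟨g1, ?_⟩, ((2 * b + 2 * h - Y) / 2).toNat, by omega, ?_⟩
    · rw [← e2, htv]; exact g2
    · apply tv_inj
      rcases pos_wv hh (c, k) (((2 * b + 2 * h - Y) / 2).toNat) (by omega) with
        ⟨z, e⟩ | ⟨z, e⟩ | ⟨z, e⟩ | ⟨z, e⟩
      · simp only at z; omega
      · simp only at z; omega
      · simp only at z; omega
      · rw [e, htv]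
        refine Prod.ext ?_ ?_ <;> simp only [mul_assoc] <;> first | rw [← ha] | rw [← hb]
        all_goals omega

end converse

end Pool.Agent.H21.FM
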