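import Mathlib
import Pool.Agent.H21.FM.Wall

set_option autoImplicit false
open Finset

/-! # Steps along the walls

Turns of the boundary walk, caps of the free and of the wired sides, pieces of the path which follow
the wall when all tiles are open (free side) or all tiles are closed (wired side). -/

namespace Pool.Agent.H21.FM

open Pool.Agent.H75.Perc hiding WL CT hh
open Pool.Agent.H75.TwoArm Pool.Agent.H75.Four Pool.Agent.H69.Q1 Pool.Agent.Q1
open Pool.Agent.H5.Q1 (oc vx_oc ty_oc fi_oc oc_congr oc_inj eq_oc nxC_oc nxO_oc oc_cases)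
open Pool.Agent.Q1.M4 (Cell Good IsSide nextSide tail head PType Adj4 Conn4 dir_add_four)
open Pool.Agent.H33.Q1

section steps

variable {w : Finset (ℤ × ℤ)} {p : ℤ × ℤ} {k : ℤ}

lemma nx_closed (hl : ql p (k - 1) ∉ w) : nx w (oc p k) = oc p (k + 1) := by
  unfold nx; rw [lab_oc, if_neg hl, nxC_oc]

lemma del_closed (hl : ql p (k - 1) ∉ w) : del w (oc p k) = 1 := by
  unfold del; rw [lab_oc, if_neg hl]

lemma nx_open (hl : ql p (k - 1) ∈ w) : nx w (oc p k) = oc (p + dir (k - 1)) (k - 1) := by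
  unfold nx; rw [lab_oc, if_pos hl, nxO_oc]

lemma del_open (hl : ql p (k - 1) ∈ w) : del w (oc p k) = -1 := by
  unfold del; rw [lab_oc, if_pos hl]

/-- the label of a vertex seen from its other end -/
lemma ql_other (p : ℤ × ℤ) (k : ℤ) : ql (p + dir k) (k + 2) = ql p k := by
  unfold ql
  have : dir (k + 2) = - dir k := M4.dir_neg k
  rw [this]; abel

end steps

/-! ### Turns -/

/-- kinds of turns -/
lemma turn_cases (Q : Finset Cell) (s : Cell × ℤ) :
    (nextSide Q s = (s.1 + dir s.2 + dir (s.2 - 1), s.2 - 1) ∧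
      s.1 + dir s.2 + dir (s.2 - 1) ∈ Q) ∨
    (nextSide Q s = (s.1 + dir s.2, s.2) ∧ s.1 + dir s.2 ∈ Q) ∨
    (nextSide Q s = (s.1, s.2 + 1) ∧ s.1 + dir s.2 ∉ Q) := by
  unfold nextSide
  by_cases h1 : s.1 + dir s.2 + dir (s.2 - 1) ∈ Q
  · left; rw [if_pos h1]; exact ⟨rfl, h1⟩
  · right
    rw [if_neg h1]
    by_cases h2 : s.1 + dir s.2 ∈ Q
    · left; rw [if_pos h2]; exact ⟨rfl, h2⟩
    · right; rw [if_neg h2]; exact ⟨rfl, h2⟩

/-- at a reflex corner the middle cell is in `Q` -/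
lemma mid_mem {Q : Finset Cell} (hQ : Good Q) {s : Cell × ℤ} (hs : IsSide Q s)
    (h : s.1 + dir s.2 + dir (s.2 - 1) ∈ Q) : s.1 + dir s.2 ∈ Q := by
  by_contra hcon
  obtain ⟨⟨i, j⟩, l⟩ := s
  obtain ⟨h0, h3⟩ := hs
  simp only at h0 h3 h hcon
  rcases dir_cases l with ⟨a, e⟩ | ⟨a, e⟩ | ⟨a, e⟩ | ⟨a, e⟩ <;>
  rcases dir_cases (l - 1) with ⟨b, f⟩ | ⟨b, f⟩ | ⟨b, f⟩ | ⟨b, f⟩ <;>
  first
  | (exfalso; omega)
  | (rw [e, f] at h
     rw [f] at h3
     rw [e] at hcon
     simp only [Prod.mk_add_mk, add_zero, zero_add] at h h3 hcon)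
  · -- east, south
    have h5 := hQ.diag2 (i, j + -1) (by simpa using h) (by simpa using h0)
    simp only [Prod.mk_add_mk] at h5
    rcases h5 with h5 | h5
    · exact h3 h5
    · exact hcon (by simpa using h5)
  · -- north, east
    have h5 := hQ.diag1 (i, j) h0 (by simpa using h)
    simp only [Prod.mk_add_mk, add_zero] at h5
    rcases h5 with h5 | h5
    · exact h3 h5
    · exact hcon h5
  · -- west, north
    have h5 := hQ.diag2 (i + -1, j) (by simpa using h0) (by simpa using h)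
    simp only [Prod.mk_add_mk, add_zero] at h5
    rcases h5 with h5 | h5
    · exact hcon h5
    · exact h3 (by simpa using h5)
  · -- south, west
    have h5 := hQ.diag1 (i + -1, j + -1) (by simpa using h) (by simpa using h0)
    simp only [Prod.mk_add_mk, add_zero] at h5
    rcases h5 with h5 | h5
    · exact hcon (by simpa using h5)
    · exact h3 (by simpa using h5)

section cells

variable {h : ℕ}

/-- the tile beyond the end of a side -/
lemma ct_beyond (hh : 0 < h) (s : Cell × ℤ) :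
    ct (2 * h) (tt (ql (wv h s h) (s.2 + 1))) = s.1 + dir s.2 := by
  have hz : (0 : ℤ) < h := by exact_mod_cast hh
  obtain ⟨q0, q1, q2, q3⟩ := tt_ql (wv h s h) (s.2 + 1)
  rcases pos_wv hh s h le_rfl with ⟨a, e⟩ | ⟨a, e⟩ | ⟨a, e⟩ | ⟨a, e⟩
  · rw [q1 (by omega), e, dir0 a]; apply ct_of' hh <;> simp <;> linarith
  · rw [q2 (by omega), e, dir1 a]; apply ct_of' hh <;> simp <;> linarith
  · rw [q3 (by omega), e, dir2 a]; apply ct_of' hh <;> simp <;> linarith
  · rw [q0 (by omega), e, dir3 a]; apply ct_of' hh <;> simp <;> linarith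

lemma in_mem (hh : 0 < h) {Q : Finset Cell} {s : Cell × ℤ} (hs : IsSide Q s) {j : ℕ} (hj : j < h) :
    ql (wv h s j) (s.2 + 1) ∈ TL Q (2 * h) := by
  rw [mem_TL (by positivity)]
  exact ⟨ql_odd _ _, by rw [ct_in hh s hj]; exact hs.1⟩

lemma in_mem' (hh : 0 < h) {Q : Finset Cell} {s : Cell × ℤ} (hs : IsSide Q s) {j : ℕ}
    (hj1 : 1 ≤ j) (hj : j ≤ h) : ql (wv h s j) (s.2 + 2) ∈ TL Q (2 * h) := by
  rw [mem_TL (by positivity)]
  exact ⟨ql_odd _ _, by rw [ct_in' hh s hj1 hj]; exact hs.1⟩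

lemma ly_notMem (hh : 0 < h) {Q : Finset Cell} {s : Cell × ℤ} (hs : IsSide Q s) {e : ℤ × ℤ}
    (he : e ∈ LY (2 * h) s) : e ∉ TL Q (2 * h) := by
  have hn : (0 : ℤ) < 2 * h := by positivity
  rw [mem_LY hn] at he
  intro h1
  have := ((mem_TL hn).1 h1).2
  rw [he.2.1] at this
  exact hs.2 this

end cells

end Pool.Agent.H21.FM
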