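import Mathlib
import Pool.Agent.H21.FM.Turn

set_option autoImplicit false
open Finset

/-! # Common corners

`CC S h z`: the next step at the corner `z` is the same for all admissible wired labels. The path stays
in `CC` until it reaches one of the exit corners `e2`, `e4` of the marks. -/

namespace Pool.Agent.H21.FM

open Pool.Agent.H75.Perc hiding WL CT hh
open Pool.Agent.H75.TwoArm Pool.Agent.H75.Four Pool.Agent.H69.Q1 Pool.Agent.Q1
open Pool.Agent.H5.Q1 (oc vx_oc ty_oc fi_oc oc_congr oc_inj eq_oc nxC_oc nxO_oc oc_cases)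
open Pool.Agent.Q1.M4 (Cell Good IsSide nextSide tail head PType Adj4 Conn4 dir_add_four)
open Pool.Agent.H33.Q1

variable {S : Shape} {h : ℕ}

/-! ### Sides of the shape -/

lemma Shape.isSide (S : Shape) (i : ℕ) : IsSide S.P.Q (S.P.side i) := M4.isSide_iter S.P.side0 i

lemma Shape.succ (S : Shape) (i : ℕ) : S.P.side (i + 1) = nextSide S.P.Q (S.P.side i) := by
  unfold PType.side
  rw [Function.iterate_succ_apply']

lemma Shape.m4N (S : Shape) : S.m4 < S.N := S.P.hmN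

lemma Shape.Fr.lt {i : ℕ} (hi : S.Fr i) : i < S.m4 := by
  have := S.h23; have := S.h34
  rcases hi with h | h
  · have : S.m2 < S.P.m := by omega
    exact lt_trans h this
  · exact h.2

lemma Shape.Fr.not_Wd {i : ℕ} (hi : S.Fr i) : ¬ S.Wd i := by
  have := S.h23; have := S.h34
  have e : S.m4 = S.P.m := rfl
  unfold Shape.Fr at hi
  unfold Shape.Wd
  omega

lemma Shape.cases (S : Shape) {i : ℕ} (hi : i < S.N) : S.Fr i ∨ S.Wd i := by
  have := S.h23; have := S.h34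
  have e : S.m4 = S.P.m := rfl
  unfold Shape.Fr Shape.Wd
  omega

/-- after a free side comes a free side or one of the marks 2, 4 -/
lemma Shape.Fr.next {i : ℕ} (hi : S.Fr i) : S.Fr (i + 1) ∨ i + 1 = S.m2 ∨ i + 1 = S.m4 := by
  unfold Shape.Fr at *
  omega

/-- before a free side comes a free side or one of the marks 1, 3 -/
lemma Shape.Fr.prev {i : ℕ} (hi : S.Fr i) : i = 0 ∨ i = S.m3 ∨ (1 ≤ i ∧ S.Fr (i - 1)) := by
  unfold Shape.Fr at *
  omega

/-- every side occurs -/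
lemma Shape.ex_side (S : Shape) {c : Cell} {k : ℤ} (hs : IsSide S.P.Q (c, k)) :
    ∃ i < S.N, (S.P.side i).1 = c ∧ (S.k i) % 4 = k % 4 := by
  obtain ⟨i, hi, h1, h2⟩ := S.P.all _ hs
  refine ⟨i, hi, h1, ?_⟩
  have : ((S.P.side i).2 - k) % 4 = 0 := h2
  unfold Shape.k
  omega

/-- exit corner at the second mark -/
def e2 (S : Shape) (h : ℕ) : ℤ × ℤ := exi h (S.P.side (S.m2 - 1)) h

/-- exit corner at the fourth mark -/
def e4 (S : Shape) (h : ℕ) : ℤ × ℤ := exi h (S.P.side (S.m4 - 1)) h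

/-- entry corner at the first mark -/
def c1 (S : Shape) (h : ℕ) : ℤ × ℤ := ent h (S.P.side 0) 0

/-- entry corner at the third mark -/
def c3 (S : Shape) (h : ℕ) : ℤ × ℤ := ent h (S.P.side S.m3) 0

/-- the middle corner of the cap of a wired side -/
def mid (h : ℕ) (s : Cell × ℤ) (j : ℕ) : ℤ × ℤ := oc (wv h s j + dir (s.2 - 1)) (s.2 - 1)

/-- free vertices: all labels are random or closed -/
def FV (S : Shape) (h : ℕ) (v : ℤ × ℤ) : Prop :=
  ∀ k, ql v k ∈ EE S h ∨ ∀ W, Wir S h W → ql v k ∉ W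

/-- common corners -/
def CC (S : Shape) (h : ℕ) (z : ℤ × ℤ) : Prop :=
  lab z ∈ EE S h ∨ FV S h (vx z) ∨ ∃ i, S.Wd i ∧ ∃ j, 1 ≤ j ∧ j ≤ h ∧
    (z = exi h (S.P.side i) j ∨ z = mid h (S.P.side i) j)

lemma four_labels {P : ℤ × ℤ → Prop} {v : ℤ × ℤ} (κ : ℤ) (h0 : P (ql v κ)) (h1 : P (ql v (κ + 1)))
    (h2 : P (ql v (κ + 2))) (h3 : P (ql v (κ - 1))) (k : ℤ) : P (ql v k) := by
  have : k % 4 = κ % 4 ∨ k % 4 = (κ + 1) % 4 ∨ k % 4 = (κ + 2) % 4 ∨ k % 4 = (κ - 1) % 4 := by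
    omega
  rcases this with h | h | h | h
  · rw [ql_congr v h]; exact h0
  · rw [ql_congr v h]; exact h1
  · rw [ql_congr v h]; exact h2
  · rw [ql_congr v h]; exact h3

lemma free_notMem {i : ℕ} (hi : S.Fr i) {e : ℤ × ℤ} (he : e ∈ LY (2 * h) (S.P.side i))
    {W : Finset (ℤ × ℤ)} (hW : Wir S h W) : e ∉ W :=
  fun h' => (disjoint_left.1 (hW.free i hi)) he h'

/-- inner vertices of a free side -/
lemma fv_inner (hh : 0 < h) {i : ℕ} (hi : S.Fr i) {j : ℕ} (hj1 : 1 ≤ j) (hj : j < h) :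
    FV S h (wv h (S.P.side i) j) := by
  apply four_labels (P := fun e => e ∈ EE S h ∨ ∀ W, Wir S h W → e ∉ W) (S.P.side i).2
  · right; exact fun W hW => free_notMem hi (ly_out hh _ hj) hW
  · left; exact in_mem hh (S.isSide i) hj
  · left; exact in_mem' hh (S.isSide i) hj1 hj.le
  · right; exact fun W hW => free_notMem hi (ly_out' hh _ hj1 hj.le) hW

/-- the vertex between two free sides -/
lemma fv_corner (hh : 0 < h) {i : ℕ} (hi : S.Fr i) (hi' : S.Fr (i + 1)) :
    FV S h (wv h (S.P.side (i + 1)) 0) := by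
  have e0 : wv h (S.P.side (i + 1)) 0 = wv h (S.P.side i) h := by
    rw [S.succ, wv_last h S.P.Q]
  have a1 : ∀ W, Wir S h W → ql (wv h (S.P.side (i + 1)) 0) ((S.P.side i).2 - 1) ∉ W := by
    intro W hW
    rw [e0]; exact free_notMem hi (ly_out' hh _ hh le_rfl) hW
  have a2 : ql (wv h (S.P.side (i + 1)) 0) ((S.P.side i).2 + 2) ∈ EE S h := by
    rw [e0]; exact in_mem' hh (S.isSide i) hh le_rfl
  have b1 : ∀ W, Wir S h W → ql (wv h (S.P.side (i + 1)) 0) (S.P.side (i + 1)).2 ∉ W :=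
    fun W hW => free_notMem hi' (ly_out hh _ hh) hW
  have b2 : ql (wv h (S.P.side (i + 1)) 0) ((S.P.side (i + 1)).2 + 1) ∈ EE S h :=
    in_mem hh (S.isSide (i + 1)) hh
  have hs := S.succ i
  apply four_labels (P := fun e => e ∈ EE S h ∨ ∀ W, Wir S h W → e ∉ W) (S.P.side i).2
  · rcases turn_cases S.P.Q (S.P.side i) with ⟨h1, -⟩ | ⟨h1, -⟩ | ⟨h1, -⟩
    · left
      have : (S.P.side (i + 1)).2 = (S.P.side i).2 - 1 := by rw [hs, h1]
      rw [this, sub_add_cancel] at b2; exact b2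
    · right
      have : (S.P.side (i + 1)).2 = (S.P.side i).2 := by rw [hs, h1]
      rw [this] at b1; exact b1
    · right
      exact fun W hW => hW.diag i hi hi' (by rw [hs, h1])
  · rcases turn_cases S.P.Q (S.P.side i) with ⟨h1, h2⟩ | ⟨h1, h2⟩ | ⟨h1, -⟩
    · left
      rw [e0]
      unfold EE
      rw [mem_TL (by positivity)]
      exact ⟨ql_odd _ _, by rw [ct_beyond hh]; exact mid_mem S.P.good (S.isSide i) h2⟩
    · left
      rw [e0]
      unfold EE
      rw [mem_TL (by positivity)]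
      exact ⟨ql_odd _ _, by rw [ct_beyond hh]; exact h2⟩
    · right
      have : (S.P.side (i + 1)).2 = (S.P.side i).2 + 1 := by rw [hs, h1]
      rw [this] at b1; exact b1
  · left; exact a2
  · right; exact a1

/-! ### Wired caps -/

section wired

variable {w : Finset (ℤ × ℤ)} {s : Cell × ℤ} {j : ℕ}

/-- label in front of the middle corner of the cap of a wired side -/
lemma ql_mid (h : ℕ) (s : Cell × ℤ) (j : ℕ) :
    ql (wv h s (j + 1) + dir (s.2 - 1)) (s.2 - 1 - 1) = ql (wv h s j) s.2 := by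
  rw [wv_succ]
  unfold ql
  rcases dir_cases s.2 with ⟨a, e⟩ | ⟨a, e⟩ | ⟨a, e⟩ | ⟨a, e⟩ <;>
  rcases dir_cases (s.2 + 1) with ⟨b, f⟩ | ⟨b, f⟩ | ⟨b, f⟩ | ⟨b, f⟩ <;>
  rcases dir_cases (s.2 - 1) with ⟨c, g⟩ | ⟨c, g⟩ | ⟨c, g⟩ | ⟨c, g⟩ <;>
  rcases dir_cases (s.2 - 1 - 1) with ⟨d, i⟩ | ⟨d, i⟩ | ⟨d, i⟩ | ⟨d, i⟩ <;>
  first
  | (exfalso; omega)
  | (rw [e, f, g, i]; refine Prod.ext ?_ ?_ <;> simp <;> ring)

lemma vx_mid_next (h : ℕ) (s : Cell × ℤ) (j : ℕ) :
    wv h s (j + 1) + dir (s.2 - 1) + dir (s.2 - 1 - 1) = wv h s j := by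
  rw [wv_succ]
  rcases dir_cases s.2 with ⟨a, e⟩ | ⟨a, e⟩ | ⟨a, e⟩ | ⟨a, e⟩ <;>
  rcases dir_cases (s.2 + 1) with ⟨b, f⟩ | ⟨b, f⟩ | ⟨b, f⟩ | ⟨b, f⟩ <;>
  rcases dir_cases (s.2 - 1) with ⟨c, g⟩ | ⟨c, g⟩ | ⟨c, g⟩ | ⟨c, g⟩ <;>
  rcases dir_cases (s.2 - 1 - 1) with ⟨d, i⟩ | ⟨d, i⟩ | ⟨d, i⟩ | ⟨d, i⟩ <;>
  first
  | (exfalso; omega)
  | (rw [e, f, g, i]; refine Prod.ext ?_ ?_ <;> simp)

/-- first step of the cap of a wired side -/
lemma nx_exi (hh : 0 < h) (hj1 : 1 ≤ j) (hj : j ≤ h) (hw : LY (2 * h) s ⊆ w) :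
    nx w (exi h s j) = mid h s j ∧ del w (exi h s j) = -1 := by
  have h1 := hw (ly_out' hh s hj1 hj)
  exact ⟨nx_open h1, del_open h1⟩

/-- second step of the cap of a wired side -/
lemma nx_mid (hh : 0 < h) (hj : j < h) (hw : LY (2 * h) s ⊆ w) :
    nx w (mid h s (j + 1)) = ent h s j ∧ del w (mid h s (j + 1)) = -1 := by
  have h1 := hw (ly_out hh s hj)
  rw [← ql_mid] at h1
  refine ⟨?_, del_open h1⟩
  unfold mid
  rw [nx_open h1, vx_mid_next]
  exact oc_congr _ (by omega)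

end wired

/-! ### Closure -/

lemma W_EE {ω W : Finset (ℤ × ℤ)} (hω : ω ⊆ EE S h) (hW : Wir S h W) {e : ℤ × ℤ}
    (he : e ∈ EE S h) : e ∈ ω ∪ W ↔ e ∈ ω := by
  rw [mem_union]
  exact ⟨fun h' => h'.resolve_right (disjoint_left.1 hW.disj he), Or.inl⟩

lemma nx_FV {ω W : Finset (ℤ × ℤ)} (hω : ω ⊆ EE S h) (hW : Wir S h W) {v : ℤ × ℤ} {k : ℤ}
    (hv : FV S h v) (hl : ql v (k - 1) ∉ EE S h) : ql v (k - 1) ∉ ω ∪ W := by
  rw [mem_union, not_or]
  exact ⟨fun h' => hl (hω h'), ((hv (k - 1)).resolve_left hl) W hW⟩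

/-- exits: a corner whose label behind is random and whose label in front is not -/
lemma exit_side (hh : 0 < h) {z : ℤ × ℤ} (h1 : plab z ∈ EE S h) (h2 : lab z ∉ EE S h) :
    ∃ i < S.N, ∃ j, 1 ≤ j ∧ j ≤ h ∧ z = exi h (S.P.side i) j := by
  have e := eq_oc z
  rw [e, plab_oc] at h1
  rw [e, lab_oc] at h2
  obtain ⟨c, hs, j, hj1, hj, hp⟩ := exit_of hh h1 h2
  obtain ⟨i, hi, hc, hk⟩ := S.ex_side hs
  refine ⟨i, hi, j, hj1, hj, ?_⟩
  have e2 : wv h (S.P.side i) j = wv h (c, ty z) j := by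
    have : S.P.side i = (c, S.k i) := by rw [← hc]; rfl
    rw [this]; exact wv_congr h hk j
  rw [e]
  unfold exi
  rw [e2, ← hp]
  have e3 : (S.P.side i).2 % 4 = ty z % 4 := hk
  exact (oc_congr _ e3).symm

/-- entries: a corner whose label in front is random and whose label behind is not -/
lemma entry_side (hh : 0 < h) {z : ℤ × ℤ} (h1 : lab z ∈ EE S h) (h2 : plab z ∉ EE S h) :
    ∃ i < S.N, ∃ j < h, z = ent h (S.P.side i) j := by
  have e := eq_oc z
  rw [e, plab_oc] at h2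
  rw [e, lab_oc] at h1
  have h1' : ql (vx z) ((ty z + 2) + 1) ∈ TL S.P.Q (2 * h) := by
    rw [ql_congr _ (show (ty z + 2 + 1) % 4 = (ty z - 1) % 4 by omega)]; exact h1
  obtain ⟨c, hs, j, hj, hp⟩ := entry_of hh h1' h2
  obtain ⟨i, hi, hc, hk⟩ := S.ex_side hs
  refine ⟨i, hi, j, hj, ?_⟩
  have e2 : wv h (S.P.side i) j = wv h (c, ty z + 2) j := by
    have : S.P.side i = (c, S.k i) := by rw [← hc]; rfl
    rw [this]; exact wv_congr h hk j
  rw [e]
  unfold ent
  rw [e2, ← hp]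
  have e3 : (S.P.side i).2 % 4 = (ty z + 2) % 4 := hk
  exact (oc_congr _ (by omega)).symm

/-- **The path stays in the common corners until it reaches the marks.** -/
theorem CC.next (hh : 0 < h) {ω W : Finset (ℤ × ℤ)} (hω : ω ⊆ EE S h) (hW : Wir S h W)
    {z : ℤ × ℤ} (hz : CC S h z) :
    CC S h (nx (ω ∪ W) z) ∨ nx (ω ∪ W) z = e2 S h ∨ nx (ω ∪ W) z = e4 S h := by
  by_cases hl : lab z ∈ EE S h
  · by_cases hn : lab (nx (ω ∪ W) z) ∈ EE S h
    · exact Or.inl (Or.inl hn)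
    · obtain ⟨i, hi, j, hj1, hj, he⟩ := exit_side hh (by rw [plab_nx]; exact hl) hn
      rcases S.cases hi with hf | hf
      · rcases Nat.lt_or_ge j h with hlt | hge
        · left; right; left
          rw [he]
          unfold exi
          rw [vx_oc]
          exact fv_inner hh hf hj1 hlt
        · have hjh : j = h := le_antisymm hj hge
          subst hjh
          rcases hf.next with h1 | h1 | h1
          · left; right; left
            rw [he]
            unfold exi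
            rw [vx_oc, wv_last j S.P.Q, ← S.succ]
            exact fv_corner hh hf h1
          · right; left
            rw [he]; unfold e2
            rw [show S.m2 - 1 = i by omega]
          · right; right
            rw [he]; unfold e4
            rw [show S.m4 - 1 = i by omega]
      · left; right; right
        exact ⟨i, hf, j, hj1, hj, Or.inl he⟩
  · rcases hz with hz | hz | ⟨i, hi, j, hj1, hj, hz | hz⟩
    · exact absurd hz hl
    · left; right; left
      have e := eq_oc z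
      rw [e, lab_oc] at hl
      have := nx_closed (nx_FV hω hW hz hl)
      rw [← e] at this
      rw [this, vx_oc]
      exact hz
    · left; right; right
      refine ⟨i, hi, j, hj1, hj, Or.inr ?_⟩
      rw [hz, (nx_exi hh hj1 hj ((hW.wired i hi).trans subset_union_right)).1]
    · left; left
      obtain ⟨j, rfl⟩ : ∃ j', j = j' + 1 := ⟨j - 1, by omega⟩
      rw [hz, (nx_mid hh (by omega) ((hW.wired i hi).trans subset_union_right)).1]
      unfold ent
      rw [lab_oc]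
      have := in_mem hh (S.isSide i) (show j < h by omega)
      rw [show (S.P.side i).2 + 2 - 1 = (S.P.side i).2 + 1 by ring]
      exact this

/-- **The step at a common corner does not depend on the wired labels.** -/
theorem CC.same (hh : 0 < h) {ω W W' : Finset (ℤ × ℤ)} (hω : ω ⊆ EE S h) (hW : Wir S h W)
    (hW' : Wir S h W') {z : ℤ × ℤ} (hz : CC S h z) : (lab z ∈ ω ∪ W ↔ lab z ∈ ω ∪ W') := by
  by_cases hl : lab z ∈ EE S h
  · rw [W_EE hω hW hl, W_EE hω hW' hl]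
  · rcases hz with hz | hz | ⟨i, hi, j, hj1, hj, hz | hz⟩
    · exact absurd hz hl
    · have e := eq_oc z
      have hl2 := hl
      rw [e, lab_oc] at hl2
      have h1 := nx_FV hω hW hz hl2
      have h2 := nx_FV hω hW' hz hl2
      rw [← lab_oc, ← e] at h1 h2
      exact iff_of_false h1 h2
    · rw [hz]
      unfold exi
      rw [lab_oc]
      have h1 := ly_out' hh (S.P.side i) hj1 hj
      exact iff_of_true (mem_union_right _ (hW.wired i hi h1)) (mem_union_right _ (hW'.wired i hi h1))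
    · rw [hz]
      obtain ⟨j, rfl⟩ : ∃ j', j = j' + 1 := ⟨j - 1, by omega⟩
      unfold mid
      rw [lab_oc, ql_mid]
      have h1 := ly_out hh (S.P.side i) (show j < h by omega)
      exact iff_of_true (mem_union_right _ (hW.wired i hi h1)) (mem_union_right _ (hW'.wired i hi h1))

lemma CC.nx_eq (hh : 0 < h) {ω W W' : Finset (ℤ × ℤ)} (hω : ω ⊆ EE S h) (hW : Wir S h W)
    (hW' : Wir S h W') {z : ℤ × ℤ} (hz : CC S h z) : nx (ω ∪ W) z = nx (ω ∪ W') z := by
  unfold nx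
  simp only [hz.same hh hω hW hW']

lemma CC.del_eq (hh : 0 < h) {ω W W' : Finset (ℤ × ℤ)} (hω : ω ⊆ EE S h) (hW : Wir S h W)
    (hW' : Wir S h W') {z : ℤ × ℤ} (hz : CC S h z) : del (ω ∪ W) z = del (ω ∪ W') z := by
  unfold del
  simp only [hz.same hh hω hW hW']

end Pool.Agent.H21.FM
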