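import Mathlib
import Pool.Agent.H21.FM.Common
import Pool.Agent.Q1.Closed

set_option autoImplicit false
open Finset

/-! # The strands between the marks

For `ω ⊆ EE` the strands `S1` (from the entry corner `c1`) and `S3` (from `c3`) end at one of the exit
corners `e2`, `e4`; they do not depend on the admissible wired labels. Outside the polygon the path
goes from `e2`, `e4` to `c1`, `c3`. -/

namespace Pool.Agent.H21.FM

open Pool.Agent.H75.Perc hiding WL CT hh ph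
open Pool.Agent.H75.TwoArm Pool.Agent.H75.Four Pool.Agent.H69.Q1 Pool.Agent.Q1
open Pool.Agent.H5.Q1 (oc vx_oc ty_oc fi_oc oc_congr oc_inj eq_oc nxC_oc nxO_oc oc_cases)
open Pool.Agent.Q1.M4 (Cell Good IsSide nextSide tail head PType Adj4 Conn4 dir_add_four)
open Pool.Agent.H33.Q1

/-! ### Sums along paths -/

section abs

variable {α : Type*} [DecidableEq α] {f : α → α} {δ : α → ℤ}

lemma KK_add (c : α) (k : ℤ) (m n : ℕ) :
    KK f δ c k (m + n) = KK f δ (f^[m] c) (KK f δ c k m) n := by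
  induction n with
  | zero => rw [add_zero, KK_zero]
  | succ n ih => rw [← add_assoc, KK_succ, ih, KK_succ, add_comm m n, Function.iterate_add_apply]

/-- sum of the phases over the visits of `z` -/
noncomputable def VV (f : α → α) (δ : α → ℤ) (c : α) (k : ℤ) (n : ℕ) (z : α) : ℂ :=
  ∑ i ∈ range n, if f^[i] c = z then ph (KK f δ c k i) else 0

lemma VV_add (c : α) (k : ℤ) (m n : ℕ) (z : α) :
    VV f δ c k (m + n) z = VV f δ c k m z + VV f δ (f^[m] c) (KK f δ c k m) n z := by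
  unfold VV
  rw [Finset.sum_range_add]
  congr 1
  apply Finset.sum_congr rfl
  intro i _
  rw [KK_add, add_comm m i, Function.iterate_add_apply]

lemma VV_zero {c : α} {k : ℤ} {n : ℕ} {z : α} (h : ∀ i < n, f^[i] c ≠ z) :
    VV f δ c k n z = 0 := by
  unfold VV
  apply Finset.sum_eq_zero
  intro i hi
  rw [if_neg (h i (mem_range.1 hi))]

lemma VV_shift (c : α) (k a : ℤ) (n : ℕ) (z : α) :
    VV f δ c (k + a) n z = ph a * VV f δ c k n z := by
  unfold VV
  rw [Finset.mul_sum]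
  apply Finset.sum_congr rfl
  intro i _
  split_ifs
  · rw [KK_shift f δ c k (k + a) i, ← ph_add]; congr 1; ring
  · simp

lemma VV_one (c : α) (k : ℤ) (z : α) : VV f δ c k 1 z = if c = z then ph k else 0 := by
  unfold VV
  rw [Finset.sum_range_one]
  simp only [Function.iterate_zero, id_eq, KK_zero]

/-- rotation of a loop by one step -/
lemma VV_rotate {r : α} {L : ℕ} (hper : f^[L] r = r) (k : ℤ) {z : α} (hz : z ≠ r) :
    VV f δ r k L z = VV f δ (f r) (k + δ r) L z := by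
  have h1 := VV_add (f := f) (δ := δ) r k L 1 z
  have h2 := VV_add (f := f) (δ := δ) r k 1 L z
  rw [VV_one, hper, if_neg (fun h => hz h.symm), add_zero] at h1
  rw [VV_one, if_neg (fun h => hz h.symm), zero_add] at h2
  have e : KK f δ r k 1 = k + δ r := by rw [show (1 : ℕ) = 0 + 1 from rfl, KK_succ, KK_zero]; rfl
  rw [← h1, add_comm L 1, h2, e]
  rfl

/-- equal steps give equal paths -/
lemma iter_same {g : α → α} {c : α} {T : ℕ} (h : ∀ s < T, g (f^[s] c) = f (f^[s] c)) :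
    ∀ s ≤ T, g^[s] c = f^[s] c := by
  intro s
  induction s with
  | zero => intro _; rfl
  | succ s ih =>
    intro hs
    rw [Function.iterate_succ_apply', Function.iterate_succ_apply', ih (by omega), h s (by omega)]

lemma KK_same {g : α → α} {δ' : α → ℤ} {c : α} {k : ℤ} {T : ℕ}
    (h : ∀ s < T, g (f^[s] c) = f (f^[s] c)) (hd : ∀ s < T, δ' (f^[s] c) = δ (f^[s] c)) :
    ∀ s ≤ T, KK g δ' c k s = KK f δ c k s := by
  intro s
  induction s with
  | zero => intro _; rw [KK_zero, KK_zero]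
  | succ s ih =>
    intro hs
    rw [KK_succ, KK_succ, ih (by omega), iter_same h s (by omega), hd s (by omega)]

end abs

variable {S : Shape} {h : ℕ}

/-! ### Corners which are not common -/

lemma not_CC {W : Finset (ℤ × ℤ)} (hh : 0 < h) (hW : Wir S h W) {z : ℤ × ℤ} {i : ℕ} (hi : S.Fr i)
    (hl : lab z ∈ LY (2 * h) (S.P.side i)) (hv : ¬ FV S h (vx z)) : ¬ CC S h z := by
  have hlW : lab z ∉ W := free_notMem hi hl hW
  rintro (h1 | h1 | ⟨i', hi', j, hj1, hj, h1 | h1⟩)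
  · exact ly_notMem hh (S.isSide i) hl h1
  · exact hv h1
  · apply hlW
    rw [h1]
    unfold exi
    rw [lab_oc]
    exact hW.wired i' hi' (ly_out' hh _ hj1 hj)
  · apply hlW
    obtain ⟨j, rfl⟩ : ∃ j', j = j' + 1 := ⟨j - 1, by omega⟩
    rw [h1]
    unfold mid
    rw [lab_oc, ql_mid]
    exact hW.wired i' hi' (ly_out hh _ (by omega))

lemma not_FV {W : Finset (ℤ × ℤ)} (hh : 0 < h) (hW : Wir S h W) {v : ℤ × ℤ} {k : ℤ} {i : ℕ}
    (hi : S.Wd i) (hl : ql v k ∈ LY (2 * h) (S.P.side i)) : ¬ FV S h v := by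
  intro hv
  rcases hv k with h1 | h1
  · exact ly_notMem hh (S.isSide i) hl h1
  · exact h1 W hW (hW.wired i hi hl)

/-- vertices at the end of a wired side -/
lemma not_FV_last {W : Finset (ℤ × ℤ)} (hh : 0 < h) (hW : Wir S h W) {i : ℕ} (hi : S.Wd i) :
    ¬ FV S h (wv h (S.P.side (i + 1)) 0) := by
  have e : wv h (S.P.side (i + 1)) 0 = wv h (S.P.side i) h := by rw [S.succ, wv_last h S.P.Q]
  rw [e]
  exact not_FV hh hW hi (ly_out' hh _ hh le_rfl)

/-- vertices at the beginning of a wired side -/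
lemma not_FV_first {W : Finset (ℤ × ℤ)} (hh : 0 < h) (hW : Wir S h W) {i : ℕ} (hi : S.Wd i) :
    ¬ FV S h (wv h (S.P.side i) 0) :=
  not_FV hh hW hi (ly_out hh _ hh)

lemma Shape.pos (S : Shape) : 0 < S.m2 ∧ S.m2 < S.m3 ∧ S.m3 < S.m4 ∧ S.m4 < S.N :=
  ⟨S.h02, S.h23, S.h34, S.m4N⟩

lemma Shape.fr0 (S : Shape) : S.Fr 0 := Or.inl S.h02
lemma Shape.fr2 (S : Shape) : S.Fr (S.m2 - 1) := by
  obtain ⟨a, b, c, d⟩ := S.pos
  left; omega
lemma Shape.fr3 (S : Shape) : S.Fr S.m3 := Or.inr ⟨le_rfl, S.h34⟩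
lemma Shape.fr4 (S : Shape) : S.Fr (S.m4 - 1) := by
  obtain ⟨a, b, c, d⟩ := S.pos
  right; omega
lemma Shape.wd2 (S : Shape) : S.Wd S.m2 := Or.inl ⟨le_rfl, S.h23⟩
lemma Shape.wd3 (S : Shape) : S.Wd (S.m3 - 1) := by
  obtain ⟨a, b, c, d⟩ := S.pos
  left; omega
lemma Shape.wd4 (S : Shape) : S.Wd S.m4 := Or.inr ⟨le_rfl, S.m4N⟩
lemma Shape.wd1 (S : Shape) : S.Wd (S.N - 1) := by
  obtain ⟨a, b, c, d⟩ := S.pos
  right; omega

/-- the side `N` is the side `0`, one turn later -/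
lemma Shape.side_N (S : Shape) : S.P.side S.N = ((S.P.side 0).1, (S.P.side 0).2 + 4) := S.P.period

lemma wv_side_N (S : Shape) (h j : ℕ) : wv h (S.P.side S.N) j = wv h (S.P.side 0) j := by
  rw [S.side_N]
  exact wv_congr h (k := (S.P.side 0).2 + 4) (l := (S.P.side 0).2) (by omega) j

lemma v1_eq (S : Shape) (h : ℕ) : v1 S h = wv h (S.P.side (S.N - 1)) h := by
  obtain ⟨a, b, c, d⟩ := S.pos
  have e : S.N - 1 + 1 = S.N := by omega
  unfold v1
  rw [wv_last h S.P.Q, ← S.succ, e, wv_side_N]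

lemma v3_eq (S : Shape) (h : ℕ) : v3 S h = wv h (S.P.side (S.m3 - 1)) h := by
  obtain ⟨a, b, c, d⟩ := S.pos
  have e : S.m3 - 1 + 1 = S.m3 := by omega
  unfold v3
  rw [wv_last h S.P.Q, ← S.succ, e]

section marks

variable {W : Finset (ℤ × ℤ)}

lemma not_FV_v1 (hh : 0 < h) (hW : Wir S h W) : ¬ FV S h (v1 S h) := by
  have := not_FV_last hh hW S.wd1
  obtain ⟨a, b, c, d⟩ := S.pos
  rwa [show S.N - 1 + 1 = S.N by omega, wv_side_N] at this

lemma not_FV_v3 (hh : 0 < h) (hW : Wir S h W) : ¬ FV S h (v3 S h) := by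
  have := not_FV_last hh hW S.wd3
  obtain ⟨a, b, c, d⟩ := S.pos
  rwa [show S.m3 - 1 + 1 = S.m3 by omega] at this

lemma not_CC_r1 (hh : 0 < h) (hW : Wir S h W) : ¬ CC S h (r1 S h) := by
  refine not_CC hh hW S.fr0 ?_ (by unfold r1; rw [vx_oc]; exact not_FV_v1 hh hW)
  unfold r1
  rw [lab_oc, add_sub_cancel_right]
  exact ly_out hh _ hh

lemma not_CC_r3 (hh : 0 < h) (hW : Wir S h W) : ¬ CC S h (r3 S h) := by
  refine not_CC hh hW S.fr3 ?_ (by unfold r3; rw [vx_oc]; exact not_FV_v3 hh hW)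
  unfold r3
  rw [lab_oc, add_sub_cancel_right]
  exact ly_out hh _ hh

lemma vx_e2 (S : Shape) (h : ℕ) : vx (e2 S h) = wv h (S.P.side S.m2) 0 := by
  obtain ⟨a, b, c, d⟩ := S.pos
  unfold e2 exi
  rw [vx_oc, wv_last h S.P.Q, ← S.succ, show S.m2 - 1 + 1 = S.m2 by omega]

lemma vx_e4 (S : Shape) (h : ℕ) : vx (e4 S h) = wv h (S.P.side S.m4) 0 := by
  obtain ⟨a, b, c, d⟩ := S.pos
  unfold e4 exi
  rw [vx_oc, wv_last h S.P.Q, ← S.succ, show S.m4 - 1 + 1 = S.m4 by omega]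

lemma lab_e2 (hh : 0 < h) : lab (e2 S h) ∈ LY (2 * h) (S.P.side (S.m2 - 1)) := by
  unfold e2 exi
  rw [lab_oc]
  exact ly_out' hh _ hh le_rfl

lemma lab_e4 (hh : 0 < h) : lab (e4 S h) ∈ LY (2 * h) (S.P.side (S.m4 - 1)) := by
  unfold e4 exi
  rw [lab_oc]
  exact ly_out' hh _ hh le_rfl

lemma not_CC_e2 (hh : 0 < h) (hW : Wir S h W) : ¬ CC S h (e2 S h) :=
  not_CC hh hW S.fr2 (lab_e2 hh) (by rw [vx_e2]; exact not_FV_first hh hW S.wd2)

lemma not_CC_e4 (hh : 0 < h) (hW : Wir S h W) : ¬ CC S h (e4 S h) :=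
  not_CC hh hW S.fr4 (lab_e4 hh) (by rw [vx_e4]; exact not_FV_first hh hW S.wd4)

lemma lab_e2_notMem (hh : 0 < h) : lab (e2 S h) ∉ EE S h := ly_notMem hh (S.isSide _) (lab_e2 hh)

lemma lab_e4_notMem (hh : 0 < h) : lab (e4 S h) ∉ EE S h := ly_notMem hh (S.isSide _) (lab_e4 hh)

lemma plab_exi (hh : 0 < h) (i : ℕ) {j : ℕ} (hj1 : 1 ≤ j) (hj : j ≤ h) :
    plab (exi h (S.P.side i) j) ∈ EE S h := by
  unfold exi
  rw [plab_oc]
  exact in_mem' hh (S.isSide i) hj1 hj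

lemma lab_exi (hh : 0 < h) (i : ℕ) {j : ℕ} (hj1 : 1 ≤ j) (hj : j ≤ h) :
    lab (exi h (S.P.side i) j) ∉ EE S h := by
  unfold exi
  rw [lab_oc]
  exact ly_notMem hh (S.isSide i) (ly_out' hh _ hj1 hj)

lemma lab_ent (hh : 0 < h) (i : ℕ) {j : ℕ} (hj : j < h) :
    lab (ent h (S.P.side i) j) ∈ EE S h := by
  unfold ent
  rw [lab_oc, show (S.P.side i).2 + 2 - 1 = (S.P.side i).2 + 1 by ring]
  exact in_mem hh (S.isSide i) hj

lemma plab_ent (hh : 0 < h) (i : ℕ) {j : ℕ} (hj : j < h) :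
    plab (ent h (S.P.side i) j) ∈ LY (2 * h) (S.P.side i) := by
  unfold ent
  rw [plab_oc, ql_congr _ (show ((S.P.side i).2 + 2 + 2) % 4 = (S.P.side i).2 % 4 by omega)]
  exact ly_out hh _ hj

lemma lab_c1 (hh : 0 < h) : lab (c1 S h) ∈ EE S h := lab_ent hh 0 hh
lemma lab_c3 (hh : 0 < h) : lab (c3 S h) ∈ EE S h := lab_ent hh _ hh

lemma lab_r1 (hh : 0 < h) : lab (r1 S h) ∈ LY (2 * h) (S.P.side 0) := by
  unfold r1
  rw [lab_oc, add_sub_cancel_right]
  exact ly_out hh _ hh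

lemma lab_r3 (hh : 0 < h) : lab (r3 S h) ∈ LY (2 * h) (S.P.side S.m3) := by
  unfold r3
  rw [lab_oc, add_sub_cancel_right]
  exact ly_out hh _ hh

variable {ω : Finset (ℤ × ℤ)}

lemma out_notMem (hω : ω ⊆ EE S h) (hh : 0 < h) (hW : Wir S h W) {i : ℕ} (hi : S.Fr i)
    {e : ℤ × ℤ} (he : e ∈ LY (2 * h) (S.P.side i)) : e ∉ ω ∪ W := by
  rw [mem_union, not_or]
  exact ⟨fun h' => ly_notMem hh (S.isSide i) he (hω h'), free_notMem hi he hW⟩

/-- from the root corner to the entry corner -/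
lemma nx_r1 (hh : 0 < h) (hω : ω ⊆ EE S h) (hW : Wir S h W) :
    nx (ω ∪ W) (r1 S h) = c1 S h ∧ del (ω ∪ W) (r1 S h) = 1 := by
  have h1 := out_notMem hω hh hW S.fr0 (lab_r1 hh)
  unfold r1 at h1 ⊢
  rw [lab_oc] at h1
  refine ⟨?_, del_closed h1⟩
  rw [nx_closed h1, add_assoc]
  rfl

lemma nx_r3 (hh : 0 < h) (hω : ω ⊆ EE S h) (hW : Wir S h W) :
    nx (ω ∪ W) (r3 S h) = c3 S h ∧ del (ω ∪ W) (r3 S h) = 1 := by
  have h1 := out_notMem hω hh hW S.fr3 (lab_r3 hh)
  unfold r3 at h1 ⊢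
  rw [lab_oc] at h1
  refine ⟨?_, del_closed h1⟩
  rw [nx_closed h1, add_assoc]
  rfl

/-! ### Predecessors -/

/-- The predecessor of an entry corner other than `c1`, `c3` is common. -/
lemma pred_CC (hh : 0 < h) (hω : ω ⊆ EE S h) (hW : Wir S h W) {y : ℤ × ℤ}
    (hy : lab y ∉ EE S h) (hz : lab (nx (ω ∪ W) y) ∈ EE S h) (h1 : nx (ω ∪ W) y ≠ c1 S h)
    (h3 : nx (ω ∪ W) y ≠ c3 S h) : CC S h y := by
  have hp : plab (nx (ω ∪ W) y) = lab y := plab_nx _ _
  obtain ⟨i, hi, j, hj, he⟩ := entry_side hh hz (by rw [hp]; exact hy)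
  have key : FV S h (vx (nx (ω ∪ W) y)) → CC S h y := by
    intro hv
    right; left
    have e := eq_oc (nx (ω ∪ W) y)
    have hl : lab y = ql (vx (nx (ω ∪ W) y)) (ty (nx (ω ∪ W) y) + 2) := by
      rw [← hp]
      conv_lhs => rw [e]
      rw [plab_oc]
    have hc : lab y ∉ ω ∪ W := by
      rw [mem_union, not_or]
      refine ⟨fun h' => hy (hω h'), ?_⟩
      rcases hv (ty (nx (ω ∪ W) y) + 2) with h' | h'
      · rw [← hl] at h'; exact absurd h' hy
      · rw [hl]; exact h' W hW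
    have e1 : nx (ω ∪ W) y = nxC y := by unfold nx; rw [if_neg hc]
    have e2 : vx (nx (ω ∪ W) y) = vx y := by rw [e1, Pool.Agent.H75.Perc.vx_nxC]
    rw [← e2]; exact hv
  rcases S.cases hi with hf | hf
  · rcases Nat.eq_zero_or_pos j with h0 | h0
    · subst h0
      rcases hf.prev with h' | h' | ⟨h', h''⟩
      · subst h'; exact absurd he h1
      · subst h'; exact absurd he h3
      · obtain ⟨i, rfl⟩ : ∃ i', i = i' + 1 := ⟨i - 1, by omega⟩
        apply key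
        rw [he]; unfold ent; rw [vx_oc]
        exact fv_corner hh h'' hf
    · apply key
      rw [he]; unfold ent; rw [vx_oc]
      exact fv_inner hh hf h0 hj
  · have e1 := (nx_mid hh hj ((hW.wired i hf).trans (subset_union_right (s₁ := ω)))).1
    have e2 := nx_injective _ (e1.trans he.symm)
    right; right
    exact ⟨i, hf, j + 1, by omega, by omega, Or.inr e2.symm⟩

/-- Going back among the outer common corners. -/
lemma back_CC (hh : 0 < h) (hω : ω ⊆ EE S h) (hW : Wir S h W) {y : ℤ × ℤ}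
    (hy : lab y ∉ EE S h) (hz : lab (nx (ω ∪ W) y) ∉ EE S h) (hc : CC S h (nx (ω ∪ W) y)) :
    CC S h y := by
  have hp : plab (nx (ω ∪ W) y) = lab y := plab_nx _ _
  rcases hc with hc | hv | ⟨i, hi, j, hj1, hj, he | he⟩
  · exact absurd hc hz
  · right; left
    have e := eq_oc (nx (ω ∪ W) y)
    have hl : lab y = ql (vx (nx (ω ∪ W) y)) (ty (nx (ω ∪ W) y) + 2) := by
      rw [← hp]
      conv_lhs => rw [e]
      rw [plab_oc]
    have hc : lab y ∉ ω ∪ W := by
      rw [mem_union, not_or]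
      refine ⟨fun h' => hy (hω h'), ?_⟩
      rcases hv (ty (nx (ω ∪ W) y) + 2) with h' | h'
      · rw [← hl] at h'; exact absurd h' hy
      · rw [hl]; exact h' W hW
    have e1 : nx (ω ∪ W) y = nxC y := by unfold nx; rw [if_neg hc]
    have e2 : vx (nx (ω ∪ W) y) = vx y := by rw [e1, Pool.Agent.H75.Perc.vx_nxC]
    rw [← e2]; exact hv
  · exfalso
    apply hy
    rw [← hp, he]
    exact plab_exi hh i hj1 hj
  · have e1 := (nx_exi hh hj1 hj ((hW.wired i hi).trans (subset_union_right (s₁ := ω)))).1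
    have e2 := nx_injective _ (e1.trans he.symm)
    right; right
    exact ⟨i, hi, j, hj1, hj, Or.inl e2.symm⟩

/-! ### Outer segments -/

/-- the segment outside the polygon from the corner `e` to the entry corner `c` -/
structure Outr (S : Shape) (h : ℕ) (w : Finset (ℤ × ℤ)) (e : ℤ × ℤ) (o : ℕ) (c : ℤ × ℤ) : Prop where
  pos : 1 ≤ o
  fin : (nx w)^[o] e = c
  out : ∀ s < o, lab ((nx w)^[s] e) ∉ EE S h
  tgt : c = c1 S h ∨ c = c3 S h

lemma exists_outr (hh : 0 < h) (hω : ω ⊆ EE S h) (hW : Wir S h W) {e : ℤ × ℤ}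
    (he : e = e2 S h ∨ e = e4 S h) : ∃ o c, Outr S h (ω ∪ W) e o c := by
  classical
  have hle : lab e ∉ EE S h := by
    rcases he with rfl | rfl
    · exact lab_e2_notMem hh
    · exact lab_e4_notMem hh
  have hpe : plab e ∈ EE S h := by
    rcases he with rfl | rfl
    · exact plab_exi hh _ hh le_rfl
    · exact plab_exi hh _ hh le_rfl
  have hCe : ¬ CC S h e := by
    rcases he with rfl | rfl
    · exact not_CC_e2 hh hW
    · exact not_CC_e4 hh hW
  obtain ⟨L, hL⟩ := exists_orb_nx (ω ∪ W) e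
  have hex : ∃ t, lab ((nx (ω ∪ W))^[t] e) ∈ EE S h := by
    refine ⟨L - 1, ?_⟩
    have h1 : (nx (ω ∪ W))^[L - 1 + 1] e = e := by
      rw [Nat.sub_add_cancel hL.pos]; exact hL.per
    rw [Function.iterate_succ_apply'] at h1
    rw [← plab_nx (ω ∪ W), h1]
    exact hpe
  set o := Nat.find hex with ho
  have ho1 : lab ((nx (ω ∪ W))^[o] e) ∈ EE S h := Nat.find_spec hex
  have ho2 : ∀ s < o, lab ((nx (ω ∪ W))^[s] e) ∉ EE S h := fun s hs => Nat.find_min hex hs
  have hpos : 1 ≤ o := by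
    by_contra hcon
    have : o = 0 := by omega
    rw [this] at ho1
    exact hle ho1
  refine ⟨o, _, hpos, rfl, ho2, ?_⟩
  by_contra hcon
  rw [not_or] at hcon
  obtain ⟨m, hm⟩ : ∃ m, o = m + 1 := ⟨o - 1, by omega⟩
  rw [hm, Function.iterate_succ_apply'] at hcon ho1
  have hC := pred_CC hh hω hW (ho2 m (by omega)) ho1 hcon.1 hcon.2
  have back : ∀ n ≤ m, CC S h ((nx (ω ∪ W))^[m - n] e) := by
    intro n
    induction n with
    | zero => intro _; exact hC
    | succ n ih =>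
      intro hn
      have h1 := ih (by omega)
      have e1 : m - n = (m - (n + 1)) + 1 := by omega
      rw [e1, Function.iterate_succ_apply'] at h1
      refine back_CC hh hω hW (ho2 _ (by omega)) ?_ h1
      rw [← Function.iterate_succ_apply' (nx (ω ∪ W))]
      exact ho2 _ (by omega)
  have := back m le_rfl
  rw [Nat.sub_self] at this
  exact hCe this

/-- the outer segments do not depend on the configuration -/
lemma Outr.transfer (hω : ω ⊆ EE S h) {ω' : Finset (ℤ × ℤ)} (hω' : ω' ⊆ EE S h) {e c : ℤ × ℤ}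
    {o : ℕ} (H : Outr S h (ω ∪ W) e o c) : Outr S h (ω' ∪ W) e o c ∧
      ∀ k, KK (nx (ω' ∪ W)) (del (ω' ∪ W)) e k o = KK (nx (ω ∪ W)) (del (ω ∪ W)) e k o := by
  have hl : ∀ s < o, (lab ((nx (ω ∪ W))^[s] e) ∈ ω' ∪ W ↔ lab ((nx (ω ∪ W))^[s] e) ∈ ω ∪ W) := by
    intro s hs
    rw [mem_union, mem_union]
    exact ⟨fun h' => Or.inr (h'.resolve_left fun h'' => H.out s hs (hω' h'')),
      fun h' => Or.inr (h'.resolve_left fun h'' => H.out s hs (hω h''))⟩
  have h1 : ∀ s < o, nx (ω' ∪ W) ((nx (ω ∪ W))^[s] e) = nx (ω ∪ W) ((nx (ω ∪ W))^[s] e) := by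
    intro s hs
    have h5 := hl s hs
    generalize (nx (ω ∪ W))^[s] e = y at h5 ⊢
    unfold nx
    simp only [h5]
  have h2 : ∀ s < o, del (ω' ∪ W) ((nx (ω ∪ W))^[s] e) = del (ω ∪ W) ((nx (ω ∪ W))^[s] e) := by
    intro s hs
    have h5 := hl s hs
    generalize (nx (ω ∪ W))^[s] e = y at h5 ⊢
    unfold del
    simp only [h5]
  have h3 := iter_same h1
  refine ⟨⟨H.pos, by rw [h3 o le_rfl]; exact H.fin, ?_, H.tgt⟩, fun k => ?_⟩
  · intro s hs
    rw [h3 s hs.le]; exact H.out s hs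
  · exact KK_same h1 h2 o le_rfl

/-- outer segments are unique -/
lemma Outr.unique {w : Finset (ℤ × ℤ)} {e c c' : ℤ × ℤ} {o o' : ℕ} (hh : 0 < h)
    (H : Outr S h w e o c) (H' : Outr S h w e o' c') : o = o' ∧ c = c' := by
  have hc : ∀ {c : ℤ × ℤ}, (c = c1 S h ∨ c = c3 S h) → lab c ∈ EE S h := by
    rintro c (rfl | rfl)
    · exact lab_c1 hh
    · exact lab_c3 hh
  have : o = o' := by
    rcases lt_trichotomy o o' with h1 | h1 | h1
    · exact absurd (by rw [H.fin]; exact hc H.tgt) (H'.out o h1)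
    · exact h1
    · exact absurd (by rw [H'.fin]; exact hc H'.tgt) (H.out o' h1)
  subst this
  exact ⟨rfl, H.fin.symm.trans H'.fin⟩

end marks

end Pool.Agent.H21.FM
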