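import Mathlib
import Pool.Agent.H21.FM.Strand
import Pool.Agent.Q1.M4.Tot
import Pool.Agent.H33.Q1.Inv

set_option autoImplicit false
open Finset

/-! # Indices on the loop of a corner

`At w c k z κ`: the corner `z` is on the loop of `c` (configuration `w`), with index `κ`. If all loops of
`c` have total turning `4` then the index of `z` does not change when one label is changed and `z` stays
on the loop. -/

namespace Pool.Agent.H21.FM

open Pool.Agent.H75.Perc hiding WL CT hh ph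
open Pool.Agent.H75.TwoArm Pool.Agent.H75.Four Pool.Agent.H69.Q1 Pool.Agent.Q1
open Pool.Agent.Q1.M4 (Tot)
open Pool.Agent.H33.Q1

/-- `z` is on the loop of `c`, with index `κ` (root index `k`). -/
def At (w : Finset (ℤ × ℤ)) (c : ℤ × ℤ) (k : ℤ) (z : ℤ × ℤ) (κ : ℤ) : Prop :=
  ∃ L, Orb (nx w) c L ∧ ∃ i < L, (nx w)^[i] c = z ∧ KK (nx w) (del w) c k i = κ

variable {w : Finset (ℤ × ℤ)} {c z : ℤ × ℤ} {k κ κ' : ℤ}

/-- positions on a loop are unique -/
lemma orb_inj {α : Type*} {f : α → α} {c : α} {L : ℕ} (h : Orb f c L) {i j : ℕ} (hi : i < L)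
    (hj : j < L) (e : f^[i] c = f^[j] c) : i = j := by
  rcases lt_trichotomy i j with h1 | h1 | h1
  · exact absurd e (h.inj i j h1 hj)
  · exact h1
  · exact absurd e.symm (h.inj j i h1 hi)

lemma At.unique (h : At w c k z κ) (h' : At w c k z κ') : κ = κ' := by
  obtain ⟨L, hL, i, hi, h1, h2⟩ := h
  obtain ⟨L', hL', j, hj, h3, h4⟩ := h'
  have := hL.unique hL'
  subst this
  have := orb_inj hL hi hj (h1.trans h3.symm)
  subst this
  exact h2.symm.trans h4

lemma At.inOrb (h : At w c k z κ) : InOrb (nx w) c z := by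
  obtain ⟨L, hL, i, hi, h1, h2⟩ := h
  exact ⟨i, h1⟩

lemma exists_at (h : InOrb (nx w) c z) (k : ℤ) : ∃ κ, At w c k z κ := by
  obtain ⟨L, hL⟩ := exists_orb_nx w c
  obtain ⟨i, hi, h1⟩ := (hL.inOrb_iff z).1 h
  exact ⟨_, L, hL, i, hi, h1, rfl⟩

lemma At.shift (h : At w c k z κ) (a : ℤ) : At w c (k + a) z (κ + a) := by
  obtain ⟨L, hL, i, hi, h1, h2⟩ := h
  refine ⟨L, hL, i, hi, h1, ?_⟩
  rw [KK_shift _ _ c k (k + a) i, h2]; ring

/-- all loops of `c` have total turning `4` -/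
def TotW (D W : Finset (ℤ × ℤ)) (c : ℤ × ℤ) : Prop :=
  ∀ ω ⊆ D, ∀ L, Orb (nx (ω ∪ W)) c L → ∀ k, KK (nx (ω ∪ W)) (del (ω ∪ W)) c k L = k + 4

variable {D W ω : Finset (ℤ × ℤ)}

/-- **One label.** -/
lemma At.step (hodd : ∀ e ∈ D, (e.1 + e.2) % 2 = 1) (hd : Disjoint D W) (h0 : TotW D W c)
    (hω : ω ⊆ D) {e : ℤ × ℤ} (heD : e ∈ D) (hen : e ∉ ω) (h : At (ω ∪ W) c k z κ)
    (hz : InOrb (nx (insert e ω ∪ W)) c z) : At (insert e ω ∪ W) c k z κ := by
  classical
  have hodd := hodd e heD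
  have hω' : insert e ω ⊆ D := insert_subset heD hω
  have hen' : e ∉ ω ∪ W := by
    rw [mem_union, not_or]
    exact ⟨hen, disjoint_left.1 hd heD⟩
  have hw : insert e ω ∪ W = insert e (ω ∪ W) := insert_union e ω W
  obtain ⟨L, hO, i, hi, hic, hK⟩ := h
  obtain ⟨L', hO'⟩ := exists_orb_nx (insert e ω ∪ W) c
  obtain ⟨j, hj, hjc⟩ := (hO'.inOrb_iff z).1 hz
  refine ⟨L', hO', j, hj, hjc, ?_⟩
  have hT := h0 ω hω L hO k
  have hT' := h0 (insert e ω) hω' L' hO' k
  rw [hw] at hO' hjc hT' ⊢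
  have hsw := swapped_insert (ω ∪ W) e hodd hen'
  have d1 : del (ω ∪ W) (in1 e) = 1 := by unfold del; rw [lab_in1 e hodd, if_neg hen']
  have d2 : del (ω ∪ W) (in2 e) = 1 := by unfold del; rw [lab_in2 e hodd, if_neg hen']
  have d3 : del (insert e (ω ∪ W)) (in1 e) = -1 := by
    unfold del; rw [lab_in1 e hodd, if_pos (mem_insert_self _ _)]
  have d4 : del (insert e (ω ∪ W)) (in2 e) = -1 := by
    unfold del; rw [lab_in2 e hodd, if_pos (mem_insert_self _ _)]
  have hoff' : ∀ x, x ≠ in1 e → x ≠ in2 e → del (ω ∪ W) x = del (insert e (ω ∪ W)) x :=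
    fun x h1 h2 => (del_off (ω ∪ W) e hodd x h1 h2).symm
  -- the position in the new loop is unique
  have fin : (∃ m < L', (nx (insert e (ω ∪ W)))^[m] c = (nx (ω ∪ W))^[i] c ∧
      KK (nx (insert e (ω ∪ W))) (del (insert e (ω ∪ W))) c k m =
        KK (nx (ω ∪ W)) (del (ω ∪ W)) c k i) →
      KK (nx (insert e (ω ∪ W))) (del (insert e (ω ∪ W))) c k j = κ := by
    rintro ⟨m, hm, hm1, hm2⟩
    have : m = j := orb_inj hO' hm hj (by rw [hm1, hic, hjc])
    subst this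
    rw [hm2, hK]
  have caseB : InOrb (nx (insert e (ω ∪ W))) c (in1 e) →
      InOrb (nx (insert e (ω ∪ W))) c (in2 e) →
      KK (nx (insert e (ω ∪ W))) (del (insert e (ω ∪ W))) c k j = κ := by
    intro hp hq
    obtain ⟨-, h2⟩ := hsw.symm.keep_idx (nx_injective _) (in1_ne_in2 e) (e := -1) hoff' d3 d4
      (by rw [d1]; norm_num) (by rw [d2]; norm_num) k hO' hO hT' hT hp hq
    exact fin (h2 i hi)
  by_cases hp : InOrb (nx (ω ∪ W)) c (in1 e) <;> by_cases hq : InOrb (nx (ω ∪ W)) c (in2 e)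
  · obtain ⟨h1, -⟩ := hsw.keep_idx (nx_injective _) (in1_ne_in2 e) (e := 1)
      (del_off (ω ∪ W) e hodd) d1 d2 d3 d4 k hO hO' hT hT' hp hq
    rcases h1 i hi with h3 | ⟨M, hM, hM2⟩
    · exact fin h3
    · exfalso
      obtain ⟨r1, r2⟩ := hO'.rotate (nx_injective _) (del (insert e (ω ∪ W))) k j
      rw [hjc] at r1 r2
      rw [hic] at hM hM2
      have := r1.unique hM
      subst this
      have h6 := hM2 k
      rw [r2, hT'] at h6
      omega
  · obtain ⟨Mq, hMq⟩ := exists_orb_nx (ω ∪ W) (in2 e)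
    obtain ⟨m1, m2, -, -⟩ := hsw.merge hO hMq hp hq
    exact caseB m1 m2
  · obtain ⟨Mp, hMp⟩ := exists_orb_nx (ω ∪ W) (in1 e)
    obtain ⟨m1, m2, -, -⟩ := hsw.comm.merge hO hMp hq hp
    exact caseB m2 m1
  · have hag : ∀ i, (nx (insert e (ω ∪ W)))^[i] c = (nx (ω ∪ W))^[i] c := fun i =>
      hsw.agree c i (fun j _ => ⟨fun h => hp ⟨j, h⟩, fun h => hq ⟨j, h⟩⟩) i le_rfl
    have hO2 : Orb (nx (insert e (ω ∪ W))) c L := by
      refine ⟨hO.pos, by rw [hag, hO.per], ?_⟩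
      intro i j hij hj
      rw [hag, hag]; exact hO.inj i j hij hj
    have := hO'.unique hO2
    subst this
    apply fin
    refine ⟨i, hi, hag i, ?_⟩
    unfold KK
    congr 1
    apply Finset.sum_congr rfl
    intro j _
    rw [hag]
    symm
    apply hoff'
    · intro h; exact hp ⟨j, h⟩
    · intro h; exact hq ⟨j, h⟩

/-- One label, backwards. -/
lemma At.step' (hodd : ∀ e ∈ D, (e.1 + e.2) % 2 = 1) (hd : Disjoint D W) (h0 : TotW D W c)
    (hω : ω ⊆ D) {e : ℤ × ℤ} (heD : e ∈ D) (hen : e ∉ ω) (h : At (insert e ω ∪ W) c k z κ)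
    (hz : InOrb (nx (ω ∪ W)) c z) : At (ω ∪ W) c k z κ := by
  obtain ⟨κ', h'⟩ := exists_at hz k
  have h1 := h'.step hodd hd h0 hω heD hen h.inOrb
  rw [h.unique h1]
  exact h'

/-- **Increasing events.** -/
theorem At.up (hodd : ∀ e ∈ D, (e.1 + e.2) % 2 = 1) (hd : Disjoint D W) (h0 : TotW D W c)
    (hm : ∀ ω ⊆ D, ∀ ω' ⊆ D, ω ⊆ ω' → InOrb (nx (ω ∪ W)) c z → InOrb (nx (ω' ∪ W)) c z) :
    ∀ (n : ℕ) (ω : Finset (ℤ × ℤ)), ω ⊆ D → (D \ ω).card = n → At (ω ∪ W) c k z κ →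
      At (D ∪ W) c k z κ := by
  classical
  intro n
  induction n with
  | zero =>
    intro ω hω hn h
    have : ω = D := by
      apply subset_antisymm hω
      exact sdiff_eq_empty_iff_subset.1 (card_eq_zero.1 hn)
    rw [this] at h
    exact h
  | succ n ih =>
    intro ω hω hn h
    obtain ⟨e, he⟩ : (D \ ω).Nonempty := by rw [← card_pos]; omega
    rw [mem_sdiff] at he
    have hsub : insert e ω ⊆ D := insert_subset he.1 hω
    have hcard : (D \ insert e ω).card = n := by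
      rw [sdiff_insert, card_erase_of_mem (mem_sdiff.2 he)]; omega
    exact ih _ hsub hcard (h.step hodd hd h0 hω he.1 he.2
      (hm ω hω _ hsub (subset_insert _ _) h.inOrb))

/-- **Decreasing events.** -/
theorem At.down (hodd : ∀ e ∈ D, (e.1 + e.2) % 2 = 1) (hd : Disjoint D W) (h0 : TotW D W c)
    (hm : ∀ ω ⊆ D, ∀ ω' ⊆ D, ω ⊆ ω' → InOrb (nx (ω' ∪ W)) c z → InOrb (nx (ω ∪ W)) c z) :
    ∀ (n : ℕ) (ω : Finset (ℤ × ℤ)), ω ⊆ D → ω.card = n → At (ω ∪ W) c k z κ →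
      At (∅ ∪ W) c k z κ := by
  classical
  intro n
  induction n with
  | zero =>
    intro ω hω hn h
    rw [card_eq_zero.1 hn] at h
    exact h
  | succ n ih =>
    intro ω hω hn h
    obtain ⟨e, he⟩ : ω.Nonempty := by rw [← card_pos]; omega
    have hsub : ω.erase e ⊆ D := (erase_subset _ _).trans hω
    have hcard : (ω.erase e).card = n := by rw [card_erase_of_mem he]; omega
    have h2 : insert e (ω.erase e) = ω := insert_erase he
    refine ih _ hsub hcard (At.step' hodd hd h0 hsub (hω he) (notMem_erase e ω) ?_ ?_)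
    · rw [h2]; exact h
    · exact hm _ hsub _ hω (erase_subset _ _) h.inOrb

/-! ### Loops and clusters -/

lemma dco_anti {w w' : Finset (ℤ × ℤ)} {f g : ℤ × ℤ} (h : DCo w f g) (hs : w' ⊆ w) : DCo w' f g :=
  h.anti hs

lemma inOrb_vx (h : InOrb (nx w) c z) : Co w (vx c) (vx z) := (inOrb_iff_dco.1 h).1

lemma inOrb_fi (h : InOrb (nx w) c z) : DCo w (fi c) (fi z) := (inOrb_iff_dco.1 h).2

lemma inOrb_of (h1 : Co w (vx c) (vx z)) (h2 : DCo w (fi c) (fi z)) : InOrb (nx w) c z :=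
  inOrb_iff_dco.2 ⟨h1, h2⟩

/-- increasing event: the faces are joined with all labels open -/
lemma mono_up (h : DCo (D ∪ W) (fi c) (fi z)) : ∀ ω ⊆ D, ∀ ω' ⊆ D, ω ⊆ ω' →
    InOrb (nx (ω ∪ W)) c z → InOrb (nx (ω' ∪ W)) c z := by
  intro ω _ ω' hω' hs hz
  exact inOrb_of ((inOrb_vx hz).mono (union_subset_union_left hs))
    (h.anti (union_subset_union_left hω'))

/-- decreasing event: the vertices are joined with all labels closed -/
lemma mono_down (h : Co (∅ ∪ W) (vx c) (vx z)) : ∀ ω ⊆ D, ∀ ω' ⊆ D, ω ⊆ ω' →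
    InOrb (nx (ω' ∪ W)) c z → InOrb (nx (ω ∪ W)) c z := by
  intro ω _ ω' _ hs hz
  exact inOrb_of (h.mono (union_subset_union_left (empty_subset _)))
    ((inOrb_fi hz).anti (union_subset_union_left hs))

/-- **Index by increasing to all labels open.** -/
theorem At.eq_up (hodd : ∀ e ∈ D, (e.1 + e.2) % 2 = 1) (hd : Disjoint D W) (h0 : TotW D W c)
    (hω : ω ⊆ D) (h : At (ω ∪ W) c k z κ) (hD : At (D ∪ W) c k z κ') : κ = κ' := by
  have h1 := At.up hodd hd h0 (mono_up (inOrb_fi hD.inOrb)) _ ω hω rfl h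
  exact h1.unique hD

/-- **Index by decreasing to all labels closed.** -/
theorem At.eq_down (hodd : ∀ e ∈ D, (e.1 + e.2) % 2 = 1) (hd : Disjoint D W) (h0 : TotW D W c)
    (hω : ω ⊆ D) (h : At (ω ∪ W) c k z κ) (hD : At (∅ ∪ W) c k z κ') : κ = κ' := by
  have h1 := At.down hodd hd h0 (mono_down (inOrb_vx hD.inOrb)) _ ω hω rfl h
  exact h1.unique hD

end Pool.Agent.H21.FM
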