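import Mathlib
import Pool.Agent.H21.FM.Index

set_option autoImplicit false
open Finset

/-! # Strands and loops

`Pth S h w c T e`: the strand from the entry corner `c` to the exit corner `e`. The loop of `c1` consists
of one strand and one outer segment or of the two strands and the two outer segments. -/

namespace Pool.Agent.H21.FM

open Pool.Agent.H75.Perc hiding WL CT hh ph
open Pool.Agent.H75.TwoArm Pool.Agent.H75.Four Pool.Agent.H69.Q1 Pool.Agent.Q1
open Pool.Agent.H5.Q1 (oc vx_oc ty_oc fi_oc oc_congr oc_inj eq_oc nxC_oc nxO_oc oc_cases)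
open Pool.Agent.Q1.M4 (Cell Good IsSide nextSide tail head PType Adj4 Conn4 dir_add_four)
open Pool.Agent.H33.Q1

section gen

variable {α : Type*} {f : α → α}

lemma orb_of_first (hf : Function.Injective f) {c : α} {L : ℕ} (hL : 0 < L) (hper : f^[L] c = c)
    (hne : ∀ i, 0 < i → i < L → f^[i] c ≠ c) : Orb f c L := by
  refine ⟨hL, hper, ?_⟩
  intro i j hij hj he
  have e : j = i + (j - i) := by omega
  rw [e, Function.iterate_add_apply] at he
  exact hne (j - i) (by omega) (by omega) ((hf.iterate i) he).symm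

lemma iter_add (f : α → α) (m n : ℕ) (c : α) : f^[m + n] c = f^[n] (f^[m] c) := by
  rw [add_comm, Function.iterate_add_apply]

end gen

variable {S : Shape} {h : ℕ}

/-! ### Injectivity of entry and exit corners -/

lemma side_eq_of (S : Shape) {i i' : ℕ} (hi : i < S.N) (hi' : i' < S.N)
    (h1 : (S.P.side i).1 = (S.P.side i').1) (h2 : (S.P.side i).2 % 4 = (S.P.side i').2 % 4) :
    i = i' :=
  S.P.inj i hi i' hi' h1 (by
    have e : ∀ n, (nextSide S.P.Q)^[n] S.P.s0 = S.P.side n := fun _ => rfl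
    rw [e, e]; omega)

lemma wv_inj (hh : 0 < h) {s : Cell × ℤ} {j j' : ℕ} (e : wv h s j = wv h s j') : j = j' := by
  have h1 := congrArg tv e
  rw [tv_wv, tv_wv] at h1
  have a := congrArg Prod.fst h1
  have b := congrArg Prod.snd h1
  simp only at a b
  rcases dir_cases s.2 with ⟨-, g⟩ | ⟨-, g⟩ | ⟨-, g⟩ | ⟨-, g⟩ <;> rw [g] at a b <;>
    simp only at a b <;> omega

lemma ent_inj (hh : 0 < h) {i i' j j' : ℕ} (hi : i < S.N) (hi' : i' < S.N) (hj : j < h)
    (hj' : j' < h) (e : ent h (S.P.side i) j = ent h (S.P.side i') j') : i = i' ∧ j = j' := by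
  unfold ent at e
  obtain ⟨h1, h2⟩ := oc_inj e
  have h3 := ct_in hh (S.P.side i) hj
  have h4 := ct_in hh (S.P.side i') hj'
  have h5 : ql (wv h (S.P.side i) j) ((S.P.side i).2 + 1) =
      ql (wv h (S.P.side i') j') ((S.P.side i').2 + 1) := by
    rw [h1]; exact ql_congr _ (by omega)
  rw [h5, h4] at h3
  have h6 := side_eq_of S hi hi' h3.symm (by omega)
  subst h6
  exact ⟨rfl, wv_inj hh h1⟩

lemma exi_inj (hh : 0 < h) {i i' j j' : ℕ} (hi : i < S.N) (hi' : i' < S.N) (h1j : 1 ≤ j)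
    (hj : j ≤ h) (h1j' : 1 ≤ j') (hj' : j' ≤ h)
    (e : exi h (S.P.side i) j = exi h (S.P.side i') j') : i = i' ∧ j = j' := by
  unfold exi at e
  obtain ⟨h1, h2⟩ := oc_inj e
  have h3 := ct_in' hh (S.P.side i) h1j hj
  have h4 := ct_in' hh (S.P.side i') h1j' hj'
  have h5 : ql (wv h (S.P.side i) j) ((S.P.side i).2 + 2) =
      ql (wv h (S.P.side i') j') ((S.P.side i').2 + 2) := by
    rw [h1]; exact ql_congr _ (by omega)
  rw [h5, h4] at h3
  have h6 := side_eq_of S hi hi' h3.symm (by omega)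
  subst h6
  exact ⟨rfl, wv_inj hh h1⟩

lemma c1_ne_c3 (hh : 0 < h) : c1 S h ≠ c3 S h := by
  obtain ⟨a, b, c, d⟩ := S.pos
  intro e
  have := (ent_inj hh (by omega) (by omega) hh hh e).1
  omega

lemma e2_ne_e4 (hh : 0 < h) : e2 S h ≠ e4 S h := by
  obtain ⟨a, b, c, d⟩ := S.pos
  intro e
  have := (exi_inj hh (by omega) (by omega) hh le_rfl hh le_rfl e).1
  omega

/-- entry corners of the marks -/
def IsC (S : Shape) (h : ℕ) (c : ℤ × ℤ) : Prop := c = c1 S h ∨ c = c3 S h

/-- exit corners of the marks -/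
def IsE (S : Shape) (h : ℕ) (e : ℤ × ℤ) : Prop := e = e2 S h ∨ e = e4 S h

lemma IsC.lab (hh : 0 < h) {c : ℤ × ℤ} (hc : IsC S h c) : lab c ∈ EE S h := by
  rcases hc with rfl | rfl
  · exact lab_c1 hh
  · exact lab_c3 hh

lemma IsE.plab (hh : 0 < h) {e : ℤ × ℤ} (he : IsE S h e) : plab e ∈ EE S h := by
  rcases he with rfl | rfl
  · exact plab_exi hh _ hh le_rfl
  · exact plab_exi hh _ hh le_rfl

lemma IsE.lab (hh : 0 < h) {e : ℤ × ℤ} (he : IsE S h e) : Pool.Agent.H75.Perc.lab e ∉ EE S h := by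
  rcases he with rfl | rfl
  · exact lab_e2_notMem hh
  · exact lab_e4_notMem hh

variable {W W' ω : Finset (ℤ × ℤ)} {w : Finset (ℤ × ℤ)}

lemma IsE.notCC (hh : 0 < h) (hW : Wir S h W) {e : ℤ × ℤ} (he : IsE S h e) : ¬ CC S h e := by
  rcases he with rfl | rfl
  · exact not_CC_e2 hh hW
  · exact not_CC_e4 hh hW

/-- the corner before an entry corner of a mark is not common -/
lemma IsC.pre (hh : 0 < h) (hω : ω ⊆ EE S h) (hW : Wir S h W) {c y : ℤ × ℤ} (hc : IsC S h c)
    (hy : nx (ω ∪ W) y = c) : ¬ CC S h y := by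
  rcases hc with rfl | rfl
  · have : y = r1 S h := nx_injective _ (hy.trans (nx_r1 hh hω hW).1.symm)
    rw [this]; exact not_CC_r1 hh hW
  · have : y = r3 S h := nx_injective _ (hy.trans (nx_r3 hh hω hW).1.symm)
    rw [this]; exact not_CC_r3 hh hW

/-! ### Strands -/

/-- the strand from `c` to `e` -/
structure Pth (S : Shape) (h : ℕ) (w : Finset (ℤ × ℤ)) (c : ℤ × ℤ) (T : ℕ) (e : ℤ × ℤ) : Prop where
  com : ∀ s < T, CC S h ((nx w)^[s] c)
  fin : (nx w)^[T] c = e
  tgt : IsE S h e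

lemma exists_pth (hh : 0 < h) (hω : ω ⊆ EE S h) (hW : Wir S h W) {c : ℤ × ℤ} (hc : IsC S h c) :
    ∃ T e, Pth S h (ω ∪ W) c T e := by
  by_contra hcon
  push Not at hcon
  have key : ∀ s, ∀ s' ≤ s, CC S h ((nx (ω ∪ W))^[s'] c) := by
    intro s
    induction s with
    | zero =>
      intro s' hs'
      rw [Nat.le_zero.1 hs']
      exact Or.inl (hc.lab hh)
    | succ s ih =>
      intro s' hs'
      rcases Nat.lt_or_ge s' (s + 1) with h1 | h1
      · exact ih s' (by omega)
      · have : s' = s + 1 := by omega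
        rw [this, Function.iterate_succ_apply']
        rcases CC.next hh hω hW (ih s le_rfl) with h2 | h2
        · exact h2
        · exfalso
          exact hcon (s + 1) _ ⟨fun s'' hs'' => ih s'' (by omega),
            Function.iterate_succ_apply' _ _ _, h2⟩
  obtain ⟨L, hL⟩ := exists_orb_nx (ω ∪ W) c
  have h1 : (nx (ω ∪ W))^[L - 1 + 1] c = c := by
    rw [Nat.sub_add_cancel hL.pos]; exact hL.per
  rw [Function.iterate_succ_apply'] at h1
  exact hc.pre hh hω hW h1 (key _ _ le_rfl)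

lemma Pth.unique (hh : 0 < h) (hW : Wir S h W) {c e e' : ℤ × ℤ} {T T' : ℕ}
    (P : Pth S h w c T e) (P' : Pth S h w c T' e') : T = T' ∧ e = e' := by
  have : T = T' := by
    rcases lt_trichotomy T T' with h1 | h1 | h1
    · have := P'.com T h1
      rw [P.fin] at this
      exact absurd this (P.tgt.notCC hh hW)
    · exact h1
    · have := P.com T' h1
      rw [P'.fin] at this
      exact absurd this (P'.tgt.notCC hh hW)
  subst this
  exact ⟨rfl, P.fin.symm.trans P'.fin⟩

/-- the strands do not depend on the wired labels -/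
lemma Pth.transfer (hh : 0 < h) (hω : ω ⊆ EE S h) (hW : Wir S h W) (hW' : Wir S h W')
    {c e : ℤ × ℤ} {T : ℕ} (P : Pth S h (ω ∪ W) c T e) : Pth S h (ω ∪ W') c T e ∧
      (∀ s ≤ T, (nx (ω ∪ W'))^[s] c = (nx (ω ∪ W))^[s] c) ∧
      ∀ k, ∀ s ≤ T, KK (nx (ω ∪ W')) (del (ω ∪ W')) c k s = KK (nx (ω ∪ W)) (del (ω ∪ W)) c k s := by
  have h1 : ∀ s < T, nx (ω ∪ W') ((nx (ω ∪ W))^[s] c) = nx (ω ∪ W) ((nx (ω ∪ W))^[s] c) :=
    fun s hs => ((P.com s hs).nx_eq hh hω hW hW').symm
  have h2 : ∀ s < T, del (ω ∪ W') ((nx (ω ∪ W))^[s] c) = del (ω ∪ W) ((nx (ω ∪ W))^[s] c) :=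
    fun s hs => ((P.com s hs).del_eq hh hω hW hW').symm
  have h3 := iter_same h1
  refine ⟨⟨fun s hs => ?_, ?_, P.tgt⟩, h3, fun k => KK_same h1 h2⟩
  · rw [h3 s hs.le]; exact P.com s hs
  · rw [h3 T le_rfl]; exact P.fin

/-- the two strands end at different corners -/
lemma Pth.ends_ne (hh : 0 < h) (hω : ω ⊆ EE S h) (hW : Wir S h W) {c c' e e' : ℤ × ℤ} {T T' : ℕ}
    (hc : IsC S h c) (hc' : IsC S h c') (hne : c ≠ c')
    (P : Pth S h (ω ∪ W) c T e) (P' : Pth S h (ω ∪ W) c' T' e') : e ≠ e' := by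
  have key : ∀ {c c' : ℤ × ℤ} {T T' : ℕ}, IsC S h c → c ≠ c' → T ≤ T' →
      (∀ s < T', CC S h ((nx (ω ∪ W))^[s] c')) →
      (nx (ω ∪ W))^[T] c = (nx (ω ∪ W))^[T'] c' → False := by
    intro c c' T T' hc hne hT hC he
    have e1 : T' = T + (T' - T) := by omega
    rw [e1, Function.iterate_add_apply] at he
    have h1 := ((nx_injective (ω ∪ W)).iterate T) he
    rcases Nat.eq_zero_or_pos (T' - T) with h2 | h2
    · rw [h2] at h1; exact hne h1
    · obtain ⟨m, hm⟩ : ∃ m, T' - T = m + 1 := ⟨T' - T - 1, by omega⟩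
      rw [hm, Function.iterate_succ_apply'] at h1
      exact hc.pre hh hω hW h1.symm (hC m (by omega))
  intro he
  have h1 : (nx (ω ∪ W))^[T] c = (nx (ω ∪ W))^[T'] c' := by rw [P.fin, P'.fin, he]
  rcases le_total T T' with h2 | h2
  · exact key hc hne h2 P'.com h1
  · exact key hc' (Ne.symm hne) h2 P.com h1.symm

/-- the two outer segments end at different corners -/
lemma Outr.ends_ne (hh : 0 < h) {e e' c c' : ℤ × ℤ} {o o' : ℕ} (he : IsE S h e) (he' : IsE S h e')
    (hne : e ≠ e') (O : Outr S h w e o c) (O' : Outr S h w e' o' c') : c ≠ c' := by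
  have key : ∀ {e e' : ℤ × ℤ} {o o' : ℕ}, IsE S h e → e ≠ e' → o ≤ o' →
      (∀ s < o', lab ((nx w)^[s] e') ∉ EE S h) → (nx w)^[o] e = (nx w)^[o'] e' → False := by
    intro e e' o o' he hne ho hC heq
    have e1 : o' = o + (o' - o) := by omega
    rw [e1, Function.iterate_add_apply] at heq
    have h1 := ((nx_injective w).iterate o) heq
    rcases Nat.eq_zero_or_pos (o' - o) with h2 | h2
    · rw [h2] at h1; exact hne h1
    · obtain ⟨m, hm⟩ : ∃ m, o' - o = m + 1 := ⟨o' - o - 1, by omega⟩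
      rw [hm, Function.iterate_succ_apply'] at h1
      apply hC m (by omega)
      have := he.plab hh
      rw [h1, plab_nx] at this
      exact this
  intro hcc
  have h1 : (nx w)^[o] e = (nx w)^[o'] e' := by rw [O.fin, O'.fin, hcc]
  rcases le_total o o' with h2 | h2
  · exact key he hne h2 O'.out h1
  · exact key he' (Ne.symm hne) h2 O.out h1.symm

/-! ### Loops -/

/-- the loop which consists of one strand -/
lemma orb_short (hh : 0 < h) (hω : ω ⊆ EE S h) (hW : Wir S h W) {c e : ℤ × ℤ} {T o : ℕ}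
    (hc : IsC S h c) (P : Pth S h (ω ∪ W) c T e) (O : Outr S h (ω ∪ W) e o c) :
    Orb (nx (ω ∪ W)) c (T + o) := by
  refine orb_of_first (nx_injective _) (by have := O.pos; omega) ?_ ?_
  · rw [iter_add, P.fin, O.fin]
  · intro i hi0 hi he
    rcases Nat.lt_or_ge T i with h1 | h1
    · have e1 : i = T + (i - T) := by omega
      rw [e1, iter_add, P.fin] at he
      apply O.out (i - T) (by omega)
      rw [he]; exact hc.lab hh
    · obtain ⟨m, rfl⟩ : ∃ m, i = m + 1 := ⟨i - 1, by omega⟩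
      rw [Function.iterate_succ_apply'] at he
      exact hc.pre hh hω hW he (P.com m (by omega))

/-- the loop which consists of two strands -/
lemma orb_long (hh : 0 < h) (hω : ω ⊆ EE S h) (hW : Wir S h W) {c c' e e' : ℤ × ℤ}
    {T o T' o' : ℕ} (hc : IsC S h c) (hne : c ≠ c') (P : Pth S h (ω ∪ W) c T e)
    (O : Outr S h (ω ∪ W) e o c') (P' : Pth S h (ω ∪ W) c' T' e')
    (O' : Outr S h (ω ∪ W) e' o' c) : Orb (nx (ω ∪ W)) c (T + o + (T' + o')) := by
  have hto : (nx (ω ∪ W))^[T + o] c = c' := by rw [iter_add, P.fin, O.fin]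
  refine orb_of_first (nx_injective _) (by have := O.pos; omega) ?_ ?_
  · rw [iter_add, hto, iter_add, P'.fin, O'.fin]
  · intro i hi0 hi he
    rcases Nat.lt_or_ge T i with h1 | h1
    · rcases Nat.lt_or_ge i (T + o) with h2 | h2
      · have e1 : i = T + (i - T) := by omega
        rw [e1, iter_add, P.fin] at he
        apply O.out (i - T) (by omega)
        rw [he]; exact hc.lab hh
      · have e1 : i = T + o + (i - (T + o)) := by omega
        rw [e1, iter_add, hto] at he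
        rcases Nat.lt_or_ge T' (i - (T + o)) with h3 | h3
        · have e2 : i - (T + o) = T' + (i - (T + o) - T') := by omega
          rw [e2, iter_add, P'.fin] at he
          apply O'.out (i - (T + o) - T') (by omega)
          rw [he]; exact hc.lab hh
        · rcases Nat.eq_zero_or_pos (i - (T + o)) with h4 | h4
          · rw [h4] at he; exact hne he.symm
          · obtain ⟨m, hm⟩ : ∃ m, i - (T + o) = m + 1 := ⟨i - (T + o) - 1, by omega⟩
            rw [hm, Function.iterate_succ_apply'] at he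
            exact hc.pre hh hω hW he (P'.com m (by omega))
    · obtain ⟨m, rfl⟩ : ∃ m, i = m + 1 := ⟨i - 1, by omega⟩
      rw [Function.iterate_succ_apply'] at he
      exact hc.pre hh hω hW he (P.com m (by omega))

/-- corners at a random label -/
def Inn (S : Shape) (h : ℕ) (z : ℤ × ℤ) : Prop := lab z ∈ EE S h ∨ plab z ∈ EE S h

/-- an outer segment has no corner at a random label except its first one -/
lemma Outr.not_inn {e c : ℤ × ℤ} {o : ℕ} (O : Outr S h w e o c) {s : ℕ} (hs : s + 1 < o) :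
    ¬ Inn S h ((nx w)^[s + 1] e) := by
  rintro (h1 | h1)
  · exact O.out _ hs h1
  · rw [Function.iterate_succ_apply', plab_nx] at h1
    exact O.out s (by omega) h1

lemma Outr.VV_eq {e c : ℤ × ℤ} {o : ℕ} (O : Outr S h w e o c) {z : ℤ × ℤ} (hz : Inn S h z) (k : ℤ) :
    VV (nx w) (del w) e k o z = VV (nx w) (del w) e k 1 z := by
  have h0 := O.pos
  have e1 : o = 1 + (o - 1) := by omega
  rw [e1, VV_add]
  have : VV (nx w) (del w) ((nx w)^[1] e) (KK (nx w) (del w) e k 1) (o - 1) z = 0 := by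
    apply VV_zero
    intro i hi he
    rw [← iter_add, add_comm] at he
    rw [← he] at hz
    exact O.not_inn (by omega) hz
  rw [this, add_zero]

/-- visits on a short loop -/
lemma VV_short {c e : ℤ × ℤ} {T o : ℕ} (P : Pth S h w c T e) (O : Outr S h w e o c) {z : ℤ × ℤ}
    (hz : Inn S h z) (k : ℤ) :
    VV (nx w) (del w) c k (T + o) z = VV (nx w) (del w) c k (T + 1) z := by
  rw [VV_add, VV_add, P.fin, O.VV_eq hz]

/-- visits on a long loop -/
lemma VV_long {c c' e e' : ℤ × ℤ} {T o T' o' : ℕ} (P : Pth S h w c T e)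
    (O : Outr S h w e o c') (P' : Pth S h w c' T' e') (O' : Outr S h w e' o' c) {z : ℤ × ℤ}
    (hz : Inn S h z) (k : ℤ) :
    VV (nx w) (del w) c k (T + o + (T' + o')) z = VV (nx w) (del w) c k (T + 1) z +
      VV (nx w) (del w) c' (KK (nx w) (del w) c k (T + o)) (T' + 1) z := by
  have hto : (nx w)^[T + o] c = c' := by rw [iter_add, P.fin, O.fin]
  rw [VV_add c k (T + o), hto, VV_add c k T o, VV_add c k T 1, P.fin, O.VV_eq hz]
  congr 1
  rw [VV_add c' _ T' o', VV_add c' _ T' 1, P'.fin, O'.VV_eq hz]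

/-- the strand from `c` passes through `z` -/
def On (w : Finset (ℤ × ℤ)) (c : ℤ × ℤ) (T : ℕ) (z : ℤ × ℤ) : Prop :=
  ∃ s ≤ T, (nx w)^[s] c = z

lemma On.inOrb {c z : ℤ × ℤ} {T : ℕ} (H : On w c T z) : InOrb (nx w) c z := by
  obtain ⟨s, -, hs⟩ := H
  exact ⟨s, hs⟩

lemma on_of_short (hh : 0 < h) (hω : ω ⊆ EE S h) (hW : Wir S h W) {c e : ℤ × ℤ} {T o : ℕ}
    (hc : IsC S h c) (P : Pth S h (ω ∪ W) c T e) (O : Outr S h (ω ∪ W) e o c) {z : ℤ × ℤ}
    (hz : Inn S h z) (H : InOrb (nx (ω ∪ W)) c z) : On (ω ∪ W) c T z := by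
  obtain ⟨i, hi, he⟩ := ((orb_short hh hω hW hc P O).inOrb_iff z).1 H
  rcases Nat.lt_or_ge T i with h1 | h1
  · exfalso
    have e1 : i = T + (i - T - 1 + 1) := by omega
    rw [e1, iter_add, P.fin] at he
    rw [← he] at hz
    exact O.not_inn (by omega) hz
  · exact ⟨i, h1, he⟩

lemma on_of_long (hh : 0 < h) (hω : ω ⊆ EE S h) (hW : Wir S h W) {c c' e e' : ℤ × ℤ}
    {T o T' o' : ℕ} (hc : IsC S h c) (hne : c ≠ c') (P : Pth S h (ω ∪ W) c T e)
    (O : Outr S h (ω ∪ W) e o c') (P' : Pth S h (ω ∪ W) c' T' e')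
    (O' : Outr S h (ω ∪ W) e' o' c) {z : ℤ × ℤ} (hz : Inn S h z)
    (H : InOrb (nx (ω ∪ W)) c z) : On (ω ∪ W) c T z ∨ On (ω ∪ W) c' T' z := by
  obtain ⟨i, hi, he⟩ := ((orb_long hh hω hW hc hne P O P' O').inOrb_iff z).1 H
  have hto : (nx (ω ∪ W))^[T + o] c = c' := by rw [iter_add, P.fin, O.fin]
  rcases Nat.lt_or_ge T i with h1 | h1
  · rcases Nat.lt_or_ge i (T + o) with h2 | h2
    · exfalso
      have e1 : i = T + (i - T - 1 + 1) := by omega
      rw [e1, iter_add, P.fin] at he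
      rw [← he] at hz
      exact O.not_inn (by omega) hz
    · have e1 : i = T + o + (i - (T + o)) := by omega
      rw [e1, iter_add, hto] at he
      rcases Nat.lt_or_ge T' (i - (T + o)) with h3 | h3
      · exfalso
        have e2 : i - (T + o) = T' + (i - (T + o) - T' - 1 + 1) := by omega
        rw [e2, iter_add, P'.fin] at he
        rw [← he] at hz
        exact O'.not_inn (by omega) hz
      · exact Or.inr ⟨_, h3, he⟩
  · exact Or.inl ⟨i, h1, he⟩

/-- a strand is not on the short loop of the other strand -/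
lemma short_disj (hh : 0 < h) (hω : ω ⊆ EE S h) (hW : Wir S h W) {c c' e : ℤ × ℤ} {T o : ℕ}
    (hc : IsC S h c) (hc' : IsC S h c') (hne : c ≠ c') (P : Pth S h (ω ∪ W) c T e)
    (O : Outr S h (ω ∪ W) e o c) : ¬ InOrb (nx (ω ∪ W)) c c' := by
  intro H
  obtain ⟨i, hi, he⟩ := on_of_short hh hω hW hc P O (Or.inl (hc'.lab hh)) H
  rcases Nat.eq_zero_or_pos i with h4 | h4
  · rw [h4] at he; exact hne he
  · obtain ⟨m, rfl⟩ : ∃ m, i = m + 1 := ⟨i - 1, by omega⟩
    rw [Function.iterate_succ_apply'] at he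
    exact hc'.pre hh hω hW he (P.com m (by omega))

end Pool.Agent.H21.FM
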