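import Mathlib
import Pool.Agent.H21.FM.Path
import Pool.Agent.H21.FM.Inter

set_option autoImplicit false
open Finset

/-! # The two types of wired labels, total turnings, indices of the first strand

`TypX`: outside the polygon `e2 → c3`, `e4 → c1` (wired labels `W0`). `TypY`: `e2 → c1`, `e4 → c3`
(the arcs II, IV are joined by wired labels). `Hug`: the path follows the free arcs when all random
labels are open, and the wired arcs (backwards) when all random labels are closed. -/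

namespace Pool.Agent.H21.FM

open Pool.Agent.H75.Perc hiding WL CT hh ph
open Pool.Agent.H75.TwoArm Pool.Agent.H75.Four Pool.Agent.H69.Q1 Pool.Agent.Q1
open Pool.Agent.H5.Q1 (oc vx_oc ty_oc fi_oc oc_congr oc_inj eq_oc nxC_oc nxO_oc oc_cases)
open Pool.Agent.Q1.M4 (Cell Good IsSide nextSide tail head PType Adj4 Conn4 dir_add_four)
open Pool.Agent.H33.Q1

/-- the path goes from `x` to `y` through common corners, turning `d` -/
def GoC (S : Shape) (h : ℕ) (w : Finset (ℤ × ℤ)) (x y : ℤ × ℤ) (d : ℤ) : Prop :=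
  ∃ n, (nx w)^[n] x = y ∧ (∀ s < n, CC S h ((nx w)^[s] x)) ∧
    ∀ k, KK (nx w) (del w) x k n = k + d

/-- the path follows the walls -/
structure Hug (S : Shape) (h : ℕ) : Prop where
  freeX : ∀ W, Wir S h W → ∀ i i', i ≤ i' → (∀ l, i ≤ l → l ≤ i' → S.Fr l) → ∀ j, 1 ≤ j → j ≤ h →
    GoC S h (EE S h ∪ W) (ent h (S.P.side i) 0) (exi h (S.P.side i') j) (S.k i' - S.k i - 2)
  freeE : ∀ W, Wir S h W → ∀ i i', i ≤ i' → (∀ l, i ≤ l → l ≤ i' → S.Fr l) → ∀ j, j < h →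
    GoC S h (EE S h ∪ W) (ent h (S.P.side i) 0) (ent h (S.P.side i') j) (S.k i' - S.k i)
  wiredX : ∀ W, Wir S h W → ∀ i i', i ≤ i' → (∀ l, i ≤ l → l ≤ i' → S.Wd l) →
    ∀ j, 1 ≤ j → j ≤ h →
    GoC S h W (ent h (S.P.side (i' + 1)) 0) (exi h (S.P.side i) j) (S.k i - S.k (i' + 1) + 2)
  wiredE : ∀ W, Wir S h W → ∀ i i', i ≤ i' → (∀ l, i ≤ l → l ≤ i' → S.Wd l) → ∀ j, j < h →
    GoC S h W (ent h (S.P.side (i' + 1)) 0) (ent h (S.P.side i) j) (S.k i - S.k (i' + 1))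

variable {S : Shape} {h : ℕ} {W ω w : Finset (ℤ × ℤ)} {c z e x y : ℤ × ℤ} {d k κ : ℤ} {T : ℕ}

lemma GoC.inOrb (G : GoC S h w x y d) : InOrb (nx w) x y := by
  obtain ⟨n, h1, -, -⟩ := G
  exact ⟨n, h1⟩

lemma GoC.trans {d' : ℤ} (G : GoC S h w x y d) (G' : GoC S h w y z d') :
    GoC S h w x z (d + d') := by
  obtain ⟨n, h1, h2, h3⟩ := G
  obtain ⟨m, g1, g2, g3⟩ := G'
  refine ⟨n + m, ?_, ?_, ?_⟩
  · rw [iter_add, h1, g1]
  · intro s hs
    rcases Nat.lt_or_ge s n with h4 | h4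
    · exact h2 s h4
    · have e : s = n + (s - n) := by omega
      rw [e, iter_add, h1]
      exact g2 _ (by omega)
  · intro k
    rw [KK_add, h1, g3, h3]; ring

/-- `GoC` to an exit corner of a mark is a strand -/
lemma GoC.pth (G : GoC S h w c e d) (he : IsE S h e) : ∃ T, Pth S h w c T e ∧
    ∀ k, KK (nx w) (del w) c k T = k + d := by
  obtain ⟨n, h1, h2, h3⟩ := G
  exact ⟨n, ⟨h2, h1, he⟩, h3⟩

/-- `GoC` stays on the strand -/
lemma GoC.on (hh : 0 < h) (hW : Wir S h W) (G : GoC S h w c z d) (P : Pth S h w c T e) :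
    ∃ s ≤ T, (nx w)^[s] c = z ∧ ∀ k, KK (nx w) (del w) c k s = k + d := by
  obtain ⟨n, h1, h2, h3⟩ := G
  refine ⟨n, ?_, h1, h3⟩
  by_contra hcon
  push Not at hcon
  have := h2 T hcon
  rw [P.fin] at this
  exact P.tgt.notCC hh hW this

/-! ### Steps at the marks -/

/-- with all random labels closed the path leaves at the mark 2, 4 -/
lemma mark_step (hh : 0 < h) (hW : Wir S h W) {i : ℕ} (hi : S.P.side (i + 1) =
    ((S.P.side i).1, (S.P.side i).2 + 1)) :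
    GoC S h W (ent h (S.P.side (i + 1)) 0) (exi h (S.P.side i) h) 1 := by
  have hl : ql (wv h (S.P.side (i + 1)) 0) ((S.P.side (i + 1)).2 + 1) ∈ EE S h :=
    in_mem hh (S.isSide (i + 1)) hh
  have hn : ql (wv h (S.P.side (i + 1)) 0) ((S.P.side (i + 1)).2 + 2 - 1) ∉ W := by
    rw [show (S.P.side (i + 1)).2 + 2 - 1 = (S.P.side (i + 1)).2 + 1 by ring]
    exact disjoint_left.1 hW.disj hl
  have hlab : lab (ent h (S.P.side (i + 1)) 0) ∈ EE S h := lab_ent hh _ hh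
  refine ⟨1, ?_, ?_, ?_⟩
  · rw [Function.iterate_one]
    unfold ent exi
    rw [nx_closed hn, wv_last h S.P.Q (S.P.side i), ← S.succ]
    apply oc_congr
    rw [hi]; simp only; omega
  · intro s hs
    have : s = 0 := by omega
    subst this
    exact Or.inl hlab
  · intro k
    have e : KK (nx W) (del W) (ent h (S.P.side (i + 1)) 0) k 1 =
        k + del W (ent h (S.P.side (i + 1)) 0) := by
      rw [show (1 : ℕ) = 0 + 1 from rfl, KK_succ, KK_zero]; rfl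
    rw [e]
    unfold ent
    rw [del_closed hn]

lemma Shape.cvx2 (S : Shape) : S.P.side (S.m2 - 1 + 1) =
    ((S.P.side (S.m2 - 1)).1, (S.P.side (S.m2 - 1)).2 + 1) :=
  S.cvx _ (Or.inl (by have := S.pos; omega))

lemma Shape.cvx3 (S : Shape) : S.P.side (S.m3 - 1 + 1) =
    ((S.P.side (S.m3 - 1)).1, (S.P.side (S.m3 - 1)).2 + 1) :=
  S.cvx _ (Or.inr (Or.inl (by have := S.pos; omega)))

lemma Shape.cvx4 (S : Shape) : S.P.side (S.m4 - 1 + 1) =
    ((S.P.side (S.m4 - 1)).1, (S.P.side (S.m4 - 1)).2 + 1) :=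
  S.cvx _ (Or.inr (Or.inr (Or.inl (by have := S.pos; have e : S.m4 = S.P.m := rfl; omega))))

lemma Shape.kN (S : Shape) : S.k S.N = S.k 0 + 4 := by
  unfold Shape.k
  rw [S.side_N]

lemma Shape.k2 (S : Shape) : S.k S.m2 = S.k (S.m2 - 1) + 1 := by
  have h1 := S.cvx2
  rw [show S.m2 - 1 + 1 = S.m2 by have := S.pos; omega] at h1
  unfold Shape.k
  rw [h1]

lemma Shape.k4 (S : Shape) : S.k S.m4 = S.k (S.m4 - 1) + 1 := by
  have h1 := S.cvx4
  rw [show S.m4 - 1 + 1 = S.m4 by have := S.pos; omega] at h1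
  unfold Shape.k
  rw [h1]

/-! ### The strands in the two extreme configurations -/

lemma c1_eqN (S : Shape) (h : ℕ) : c1 S h = ent h (S.P.side S.N) 0 := by
  unfold c1 ent
  rw [wv_side_N]
  apply oc_congr
  rw [S.side_N]; simp only; omega

section ext

variable (H : Hug S h)
include H

/-- all open: the first strand ends at the mark 2 -/
lemma Hug.open1 (hh : 0 < h) (hW : Wir S h W) : GoC S h (EE S h ∪ W) (c1 S h) (e2 S h)
    (S.k (S.m2 - 1) - S.k 0 - 2) := by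
  obtain ⟨a, b, c, d⟩ := S.pos
  exact H.freeX W hW 0 (S.m2 - 1) (by omega) (fun l _ hl => Or.inl (by omega)) h hh le_rfl

/-- all open: the third strand ends at the mark 4 -/
lemma Hug.open3 (hh : 0 < h) (hW : Wir S h W) : GoC S h (EE S h ∪ W) (c3 S h) (e4 S h)
    (S.k (S.m4 - 1) - S.k S.m3 - 2) := by
  obtain ⟨a, b, c, d⟩ := S.pos
  exact H.freeX W hW S.m3 (S.m4 - 1) (by omega) (fun l h1 hl => Or.inr ⟨h1, by omega⟩) h hh le_rfl

/-- all closed: the first strand ends at the mark 4 -/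
lemma Hug.closed1 (hh : 0 < h) (hW : Wir S h W) : GoC S h W (c1 S h) (e4 S h)
    (S.k (S.m4 - 1) - S.k 0 - 2) := by
  obtain ⟨a, b, c, d⟩ := S.pos
  have h1 := H.wiredE W hW S.m4 (S.N - 1) (by omega) (fun l h1 hl => Or.inr ⟨h1, by omega⟩) 0 hh
  rw [show S.N - 1 + 1 = S.N by omega, ← c1_eqN] at h1
  have h2 := mark_step hh hW S.cvx4
  rw [show S.m4 - 1 + 1 = S.m4 by omega] at h2
  have h3 := h1.trans h2
  have e : S.k S.m4 - S.k S.N + 1 = S.k (S.m4 - 1) - S.k 0 - 2 := by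
    rw [S.kN, S.k4]; ring
  rw [e] at h3
  exact h3

/-- all closed: the third strand ends at the mark 2 -/
lemma Hug.closed3 (hh : 0 < h) (hW : Wir S h W) : GoC S h W (c3 S h) (e2 S h)
    (S.k (S.m2 - 1) - S.k S.m3 + 2) := by
  obtain ⟨a, b, c, d⟩ := S.pos
  have h1 := H.wiredE W hW S.m2 (S.m3 - 1) (by omega) (fun l h1 hl => Or.inl ⟨h1, by omega⟩) 0 hh
  rw [show S.m3 - 1 + 1 = S.m3 by omega] at h1
  have h2 := mark_step hh hW S.cvx2
  rw [show S.m2 - 1 + 1 = S.m2 by omega] at h2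
  have h3 := h1.trans h2
  have e : S.k S.m2 - S.k S.m3 + 1 = S.k (S.m2 - 1) - S.k S.m3 + 2 := by
    rw [S.k2]; ring
  rw [e] at h3
  exact h3

end ext

/-! ### Outer segments, for all configurations -/

/-- the outer segment from `e` to `c`, turning `d` -/
def OutT (S : Shape) (h : ℕ) (W : Finset (ℤ × ℤ)) (e : ℤ × ℤ) (o : ℕ) (c : ℤ × ℤ) (d : ℤ) : Prop :=
  ∀ ω ⊆ EE S h, Outr S h (ω ∪ W) e o c ∧
    ∀ k, KK (nx (ω ∪ W)) (del (ω ∪ W)) e k o = k + d

lemma exists_outT (hh : 0 < h) (hW : Wir S h W) (he : IsE S h e) :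
    ∃ o c d, IsC S h c ∧ OutT S h W e o c d := by
  obtain ⟨o, c, O⟩ := exists_outr (ω := ∅) hh (empty_subset _) hW he
  refine ⟨o, c, KK (nx (∅ ∪ W)) (del (∅ ∪ W)) e 0 o, O.tgt, fun ω hω => ?_⟩
  obtain ⟨h1, h2⟩ := O.transfer (empty_subset _) hω
  refine ⟨h1, fun k => ?_⟩
  rw [h2 k, KK_shift _ _ e 0 k o]; ring

/-- `e2 → c3`, `e4 → c1` -/
def TypX (S : Shape) (h : ℕ) (W : Finset (ℤ × ℤ)) : Prop :=
  ∃ o2 o4 d2 d4, OutT S h W (e2 S h) o2 (c3 S h) d2 ∧ OutT S h W (e4 S h) o4 (c1 S h) d4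

/-- `e2 → c1`, `e4 → c3` -/
def TypY (S : Shape) (h : ℕ) (W : Finset (ℤ × ℤ)) : Prop :=
  ∃ o2 o4 d2 d4, OutT S h W (e2 S h) o2 (c1 S h) d2 ∧ OutT S h W (e4 S h) o4 (c3 S h) d4

lemma typ_cases (hh : 0 < h) (hW : Wir S h W) : TypX S h W ∨ TypY S h W := by
  obtain ⟨o2, x2, d2, hx2, O2⟩ := exists_outT hh hW (e := e2 S h) (Or.inl rfl)
  obtain ⟨o4, x4, d4, hx4, O4⟩ := exists_outT hh hW (e := e4 S h) (Or.inr rfl)
  have hne := Outr.ends_ne hh (Or.inl rfl) (Or.inr rfl) (e2_ne_e4 hh) (O2 ∅ (empty_subset _)).1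
    (O4 ∅ (empty_subset _)).1
  rcases hx2 with rfl | rfl <;> rcases hx4 with rfl | rfl
  · exact absurd rfl hne
  · exact Or.inr ⟨_, _, _, _, O2, O4⟩
  · exact Or.inl ⟨_, _, _, _, O2, O4⟩
  · exact absurd rfl hne

section typ

variable (H : Hug S h)
include H

lemma typX_of_dco (hh : 0 < h) (hW : Wir S h W)
    (hd : DCo (EE S h ∪ W) (fi (c1 S h)) (fi (c3 S h))) : TypX S h W := by
  rcases typ_cases hh hW with hX | ⟨o2, o4, d2, d4, O2, O4⟩
  · exact hX
  · exfalso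
    obtain ⟨T, P, -⟩ := (H.open1 hh hW).pth (Or.inl rfl)
    have hco : Co (EE S h ∪ W) (vx (c1 S h)) (vx (c3 S h)) := by
      have h1 := inOrb_vx (H.open1 hh hW).inOrb
      have h2 := inOrb_vx (H.closed3 hh hW).inOrb
      exact h1.trans (h2.symm.mono subset_union_right)
    exact short_disj hh subset_rfl hW (Or.inl rfl) (Or.inr rfl) (c1_ne_c3 hh) P
      (O2 _ subset_rfl).1 (inOrb_of hco hd)

lemma typY_of_co (hh : 0 < h) (hW : Wir S h W)
    (hc : Co W (vx (c1 S h)) (vx (c3 S h))) : TypY S h W := by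
  rcases typ_cases hh hW with ⟨o2, o4, d2, d4, O2, O4⟩ | hY
  · exfalso
    have hG := H.closed1 hh hW
    obtain ⟨T, P, -⟩ := hG.pth (Or.inr rfl)
    have hd : DCo W (fi (c1 S h)) (fi (c3 S h)) := by
      have h1 := inOrb_fi hG.inOrb
      have h2 := inOrb_fi (H.open3 hh hW).inOrb
      exact h1.trans (h2.symm.anti subset_union_right)
    rw [← empty_union W] at P hc hd
    exact short_disj hh (empty_subset _) hW (Or.inl rfl) (Or.inr rfl) (c1_ne_c3 hh) P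
      (O4 _ (empty_subset _)).1 (inOrb_of hc hd)
  · exact hY

end typ

end Pool.Agent.H21.FM
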