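import Mathlib
import Pool.Agent.H21.FM.Types

set_option autoImplicit false
open Finset

/-! # Total turnings and the indices of the first strand -/

namespace Pool.Agent.H21.FM

open Pool.Agent.H75.Perc hiding WL CT hh ph
open Pool.Agent.H75.TwoArm Pool.Agent.H75.Four Pool.Agent.H69.Q1 Pool.Agent.Q1
open Pool.Agent.H5.Q1 (oc vx_oc ty_oc fi_oc oc_congr oc_inj eq_oc nxC_oc nxO_oc oc_cases)
open Pool.Agent.Q1.M4 (Cell Good IsSide nextSide tail head PType Adj4 Conn4 dir_add_four)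
open Pool.Agent.H33.Q1

variable {S : Shape} {h : ℕ} {W W' ω w : Finset (ℤ × ℤ)} {c c' z e e' : ℤ × ℤ} {d k κ : ℤ}
  {T T' o o' : ℕ}

lemma totW_of_next {r : ℤ × ℤ} (hn : ∀ ω ⊆ EE S h, nx (ω ∪ W) r = c)
    (ht : TotW (EE S h) W r) : TotW (EE S h) W c := by
  intro ω hω L hL k
  obtain ⟨L', hL'⟩ := exists_orb_nx (ω ∪ W) r
  obtain ⟨g1, g2⟩ := hL'.rotate_one (nx_injective _) (del (ω ∪ W)) k
  rw [hn ω hω] at g1 g2
  have := g1.unique hL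
  subst this
  rw [g2]
  exact ht ω hω _ hL' k

lemma totW_c1 (hh : 0 < h) (hW : Wir S h W) (ht : TotW (EE S h) W (r1 S h)) :
    TotW (EE S h) W (c1 S h) :=
  totW_of_next (fun _ hω => (nx_r1 hh hω hW).1) ht

lemma totW_c3 (hh : 0 < h) (hW : Wir S h W) (ht : TotW (EE S h) W (r3 S h)) :
    TotW (EE S h) W (c3 S h) :=
  totW_of_next (fun _ hω => (nx_r3 hh hω hW).1) ht

/-! ### Positions -/

lemma Pth.lt_len (hh : 0 < h) (hω : ω ⊆ EE S h) (hW : Wir S h W) (hc : IsC S h c)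
    (P : Pth S h (ω ∪ W) c T e) {L : ℕ} (hL : Orb (nx (ω ∪ W)) c L) : T < L := by
  by_contra hcon
  push Not at hcon
  obtain ⟨m, hm⟩ : ∃ m, L = m + 1 := ⟨L - 1, by have := hL.pos; omega⟩
  have h1 := hL.per
  rw [hm, Function.iterate_succ_apply'] at h1
  exact hc.pre hh hω hW h1 (P.com m (by omega))

lemma at_strand (hh : 0 < h) (hω : ω ⊆ EE S h) (hW : Wir S h W) (hc : IsC S h c)
    (P : Pth S h (ω ∪ W) c T e) {s : ℕ} (hs : s ≤ T) (k : ℤ) :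
    At (ω ∪ W) c k ((nx (ω ∪ W))^[s] c) (KK (nx (ω ∪ W)) (del (ω ∪ W)) c k s) := by
  obtain ⟨L, hL⟩ := exists_orb_nx (ω ∪ W) c
  have := P.lt_len hh hω hW hc hL
  exact ⟨L, hL, s, by omega, rfl, rfl⟩

lemma at_go (hh : 0 < h) (hω : ω ⊆ EE S h) (hW : Wir S h W) (hc : IsC S h c)
    (G : GoC S h (ω ∪ W) c z d) (k : ℤ) : At (ω ∪ W) c k z (k + d) := by
  obtain ⟨T, e, P⟩ := exists_pth hh hω hW hc
  obtain ⟨s, hs, h1, h2⟩ := G.on hh hW P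
  have := at_strand hh hω hW hc P hs k
  rw [h1, h2] at this
  exact this

lemma at_long (hh : 0 < h) (hω : ω ⊆ EE S h) (hW : Wir S h W)
    (hc : IsC S h c) (hne : c ≠ c') (P : Pth S h (ω ∪ W) c T e)
    (O : Outr S h (ω ∪ W) e o c') (P' : Pth S h (ω ∪ W) c' T' e')
    (O' : Outr S h (ω ∪ W) e' o' c) {s : ℕ} (hs : s ≤ T') (k : ℤ) :
    At (ω ∪ W) c k ((nx (ω ∪ W))^[s] c')
      (KK (nx (ω ∪ W)) (del (ω ∪ W)) c' (KK (nx (ω ∪ W)) (del (ω ∪ W)) c k (T + o)) s) := by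
  have hto : (nx (ω ∪ W))^[T + o] c = c' := by rw [iter_add, P.fin, O.fin]
  refine ⟨_, orb_long hh hω hW hc hne P O P' O', T + o + s, ?_, ?_, ?_⟩
  · have := O'.pos; omega
  · rw [iter_add, hto]
  · rw [KK_add, hto]

/-- turning until the second strand -/
lemma kk_out (P : Pth S h (ω ∪ W) c T e) {a d : ℤ}
    (ha : ∀ k, KK (nx (ω ∪ W)) (del (ω ∪ W)) c k T = k + a)
    (hd : ∀ k, KK (nx (ω ∪ W)) (del (ω ∪ W)) e k o = k + d) (k : ℤ) :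
    KK (nx (ω ∪ W)) (del (ω ∪ W)) c k (T + o) = k + a + d := by
  rw [KK_add, P.fin, hd, ha]

lemma EE_odd (hh : 0 < h) {e : ℤ × ℤ} (he : e ∈ EE S h) : (e.1 + e.2) % 2 = 1 :=
  ((mem_TL (by positivity)).1 he).1

section tot

variable (H : Hug S h)
include H

/-- **Outer turnings, type X.** -/
theorem totX (hh : 0 < h) (hW : Wir S h W) (ht : TotW (EE S h) W (c1 S h)) {o2 o4 : ℕ}
    {d2 d4 : ℤ} (O2 : OutT S h W (e2 S h) o2 (c3 S h) d2)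
    (O4 : OutT S h W (e4 S h) o4 (c1 S h) d4) :
    d2 = S.k S.m3 + 2 - S.k (S.m2 - 1) ∧ d4 = S.k 0 + 6 - S.k (S.m4 - 1) := by
  -- all closed: short loop
  have g1 := H.closed1 hh hW
  rw [← empty_union W] at g1
  obtain ⟨T, P, hP⟩ := g1.pth (Or.inr rfl)
  have L1 := orb_short hh (empty_subset _) hW (Or.inl rfl) P (O4 _ (empty_subset _)).1
  have t1 := ht ∅ (empty_subset _) _ L1 0
  rw [kk_out P hP (O4 _ (empty_subset _)).2] at t1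
  -- all open: long loop
  obtain ⟨T1, P1, hP1⟩ := (H.open1 hh hW).pth (Or.inl rfl)
  obtain ⟨T3, P3, hP3⟩ := (H.open3 hh hW).pth (Or.inr rfl)
  have L2 := orb_long hh subset_rfl hW (Or.inl rfl) (c1_ne_c3 hh) P1 (O2 _ subset_rfl).1 P3
    (O4 _ subset_rfl).1
  have t2 := ht _ subset_rfl _ L2 0
  have hto : (nx (EE S h ∪ W))^[T1 + o2] (c1 S h) = c3 S h := by
    rw [iter_add, P1.fin, (O2 _ subset_rfl).1.fin]
  rw [KK_add, hto, kk_out P1 hP1 (O2 _ subset_rfl).2, kk_out P3 hP3 (O4 _ subset_rfl).2] at t2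
  constructor <;> linarith

/-- **Outer turnings, type Y.** -/
theorem totY (hh : 0 < h) (hW : Wir S h W) (ht : TotW (EE S h) W (c1 S h)) {o2 o4 : ℕ}
    {d2 d4 : ℤ} (O2 : OutT S h W (e2 S h) o2 (c1 S h) d2)
    (O4 : OutT S h W (e4 S h) o4 (c3 S h) d4) :
    d2 = S.k 0 + 6 - S.k (S.m2 - 1) ∧ d4 = S.k S.m3 - 2 - S.k (S.m4 - 1) := by
  -- all open: short loop
  obtain ⟨T, P, hP⟩ := (H.open1 hh hW).pth (Or.inl rfl)
  have L1 := orb_short hh subset_rfl hW (Or.inl rfl) P (O2 _ subset_rfl).1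
  have t1 := ht _ subset_rfl _ L1 0
  rw [kk_out P hP (O2 _ subset_rfl).2] at t1
  -- all closed: long loop
  have g1 := H.closed1 hh hW
  have g3 := H.closed3 hh hW
  rw [← empty_union W] at g1 g3
  obtain ⟨T1, P1, hP1⟩ := g1.pth (Or.inr rfl)
  obtain ⟨T3, P3, hP3⟩ := g3.pth (Or.inl rfl)
  have L2 := orb_long hh (empty_subset _) hW (Or.inl rfl) (c1_ne_c3 hh) P1
    (O4 _ (empty_subset _)).1 P3 (O2 _ (empty_subset _)).1
  have t2 := ht _ (empty_subset _) _ L2 0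
  have hto : (nx (∅ ∪ W))^[T1 + o4] (c1 S h) = c3 S h := by
    rw [iter_add, P1.fin, (O4 _ (empty_subset _)).1.fin]
  rw [KK_add, hto, kk_out P1 hP1 (O4 _ (empty_subset _)).2,
    kk_out P3 hP3 (O2 _ (empty_subset _)).2] at t2
  constructor <;> linarith

/-! ### Indices at the exit corners -/

variable (hh : 0 < h) (hW : Wir S h W) (ht : TotW (EE S h) W (c1 S h))
include hh hW ht

lemma idx_up (hω : ω ⊆ EE S h) (P : Pth S h (ω ∪ W) (c1 S h) T e) {s : ℕ} (hs : s ≤ T)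
    (hA : At (EE S h ∪ W) (c1 S h) (S.k 0 + 2) ((nx (ω ∪ W))^[s] (c1 S h)) κ) :
    KK (nx (ω ∪ W)) (del (ω ∪ W)) (c1 S h) (S.k 0 + 2) s = κ :=
  At.eq_up (fun _ he => EE_odd hh he) hW.disj ht hω
    (at_strand hh hω hW (Or.inl rfl) P hs _) hA

lemma idx_down (hω : ω ⊆ EE S h) (P : Pth S h (ω ∪ W) (c1 S h) T e) {s : ℕ} (hs : s ≤ T)
    (hA : At (∅ ∪ W) (c1 S h) (S.k 0 + 2) ((nx (ω ∪ W))^[s] (c1 S h)) κ) :
    KK (nx (ω ∪ W)) (del (ω ∪ W)) (c1 S h) (S.k 0 + 2) s = κ :=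
  At.eq_down (fun _ he => EE_odd hh he) hW.disj ht hω
    (at_strand hh hω hW (Or.inl rfl) P hs _) hA

/-- arc I -/
lemma idx_I (hω : ω ⊆ EE S h) (P : Pth S h (ω ∪ W) (c1 S h) T e) {s : ℕ} (hs : s ≤ T) {i j : ℕ}
    (hi : i < S.m2) (hj1 : 1 ≤ j) (hj : j ≤ h)
    (hz : (nx (ω ∪ W))^[s] (c1 S h) = exi h (S.P.side i) j) :
    KK (nx (ω ∪ W)) (del (ω ∪ W)) (c1 S h) (S.k 0 + 2) s = S.k i := by
  apply idx_up H hh hW ht hω P hs
  rw [hz]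
  have g := H.freeX W hW 0 i (by omega) (fun l _ hl => Or.inl (by omega)) j hj1 hj
  have := at_go hh subset_rfl hW (Or.inl rfl) g (S.k 0 + 2)
  rw [show S.k 0 + 2 + (S.k i - S.k 0 - 2) = S.k i by ring] at this
  exact this

/-- arc IV -/
lemma idx_IV (hω : ω ⊆ EE S h) (P : Pth S h (ω ∪ W) (c1 S h) T e) {s : ℕ} (hs : s ≤ T) {i j : ℕ}
    (hi4 : S.m4 ≤ i) (hi : i < S.N) (hj1 : 1 ≤ j) (hj : j ≤ h)
    (hz : (nx (ω ∪ W))^[s] (c1 S h) = exi h (S.P.side i) j) :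
    KK (nx (ω ∪ W)) (del (ω ∪ W)) (c1 S h) (S.k 0 + 2) s = S.k i := by
  obtain ⟨a, b, c, d⟩ := S.pos
  apply idx_down H hh hW ht hω P hs
  rw [hz]
  have g := H.wiredX W hW i (S.N - 1) (by omega) (fun l h1 hl => Or.inr ⟨by omega, by omega⟩) j
    hj1 hj
  rw [show S.N - 1 + 1 = S.N by omega, ← c1_eqN, ← empty_union W] at g
  have := at_go hh (empty_subset _) hW (Or.inl rfl) g (S.k 0 + 2)
  rw [S.kN, show S.k 0 + 2 + (S.k i - (S.k 0 + 4) + 2) = S.k i by ring] at this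
  exact this

/-- arc III, type X -/
lemma idx_III (hX : TypX S h W) (hω : ω ⊆ EE S h) (P : Pth S h (ω ∪ W) (c1 S h) T e) {s : ℕ}
    (hs : s ≤ T) {i j : ℕ} (hi3 : S.m3 ≤ i) (hi : i < S.m4) (hj1 : 1 ≤ j) (hj : j ≤ h)
    (hz : (nx (ω ∪ W))^[s] (c1 S h) = exi h (S.P.side i) j) :
    KK (nx (ω ∪ W)) (del (ω ∪ W)) (c1 S h) (S.k 0 + 2) s = S.k i := by
  obtain ⟨o2, o4, d2, d4, O2, O4⟩ := hX
  apply idx_up H hh hW ht hω P hs
  rw [hz]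
  obtain ⟨T1, P1, hP1⟩ := (H.open1 hh hW).pth (Or.inl rfl)
  obtain ⟨T3, P3, hP3⟩ := (H.open3 hh hW).pth (Or.inr rfl)
  have g := H.freeX W hW S.m3 i (by omega) (fun l h1 hl => Or.inr ⟨h1, by omega⟩) j hj1 hj
  obtain ⟨s', hs', g1, g2⟩ := g.on hh hW P3
  have hA := at_long hh subset_rfl hW (Or.inl rfl) (c1_ne_c3 hh) P1 (O2 _ subset_rfl).1 P3
    (O4 _ subset_rfl).1 hs' (S.k 0 + 2)
  have g1' : (nx (EE S h ∪ W))^[s'] (c3 S h) = exi h (S.P.side i) j := g1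
  have g2' : ∀ k, KK (nx (EE S h ∪ W)) (del (EE S h ∪ W)) (c3 S h) k s' =
      k + (S.k i - S.k S.m3 - 2) := g2
  rw [g1', g2', kk_out P1 hP1 (O2 _ subset_rfl).2, (totX H hh hW ht O2 O4).1,
    show S.k 0 + 2 + (S.k (S.m2 - 1) - S.k 0 - 2) + (S.k S.m3 + 2 - S.k (S.m2 - 1)) +
      (S.k i - S.k S.m3 - 2) = S.k i by ring] at hA
  exact hA

/-- arc II, type Y -/
lemma idx_II (hY : TypY S h W) (hω : ω ⊆ EE S h) (P : Pth S h (ω ∪ W) (c1 S h) T e) {s : ℕ}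
    (hs : s ≤ T) {i j : ℕ} (hi2 : S.m2 ≤ i) (hi : i < S.m3) (hj1 : 1 ≤ j) (hj : j ≤ h)
    (hz : (nx (ω ∪ W))^[s] (c1 S h) = exi h (S.P.side i) j) :
    KK (nx (ω ∪ W)) (del (ω ∪ W)) (c1 S h) (S.k 0 + 2) s = S.k i := by
  obtain ⟨a, b, c, d⟩ := S.pos
  obtain ⟨o2, o4, d2, d4, O2, O4⟩ := hY
  apply idx_down H hh hW ht hω P hs
  rw [hz]
  have q1 := H.closed1 hh hW
  have q3 := H.closed3 hh hW
  have g := H.wiredX W hW i (S.m3 - 1) (by omega) (fun l h1 hl => Or.inl ⟨by omega, by omega⟩) j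
    hj1 hj
  rw [show S.m3 - 1 + 1 = S.m3 by omega] at g
  rw [← empty_union W] at q1 q3 g
  obtain ⟨T1, P1, hP1⟩ := q1.pth (Or.inr rfl)
  obtain ⟨T3, P3, hP3⟩ := q3.pth (Or.inl rfl)
  obtain ⟨s', hs', g1, g2⟩ := g.on hh hW P3
  have hA := at_long hh (empty_subset _) hW (Or.inl rfl) (c1_ne_c3 hh) P1
    (O4 _ (empty_subset _)).1 P3 (O2 _ (empty_subset _)).1 hs' (S.k 0 + 2)
  have g1' : (nx (∅ ∪ W))^[s'] (c3 S h) = exi h (S.P.side i) j := g1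
  have g2' : ∀ k, KK (nx (∅ ∪ W)) (del (∅ ∪ W)) (c3 S h) k s' =
      k + (S.k i - S.k S.m3 + 2) := g2
  rw [g1', g2', kk_out P1 hP1 (O4 _ (empty_subset _)).2, (totY H hh hW ht O2 O4).2,
    show S.k 0 + 2 + (S.k (S.m4 - 1) - S.k 0 - 2) + (S.k S.m3 - 2 - S.k (S.m4 - 1)) +
      (S.k i - S.k S.m3 + 2) = S.k i by ring] at hA
  exact hA

/-- **Indices of the first strand.** -/
theorem idx1 (hX : TypX S h W) (hW' : Wir S h W') (hY : TypY S h W')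
    (ht' : TotW (EE S h) W' (c1 S h)) (hω : ω ⊆ EE S h)
    (P : Pth S h (ω ∪ W) (c1 S h) T e) {s : ℕ} (hs : s ≤ T) {i j : ℕ} (hi : i < S.N)
    (hj1 : 1 ≤ j) (hj : j ≤ h) (hz : (nx (ω ∪ W))^[s] (c1 S h) = exi h (S.P.side i) j) :
    KK (nx (ω ∪ W)) (del (ω ∪ W)) (c1 S h) (S.k 0 + 2) s = S.k i := by
  rcases Nat.lt_or_ge i S.m2 with h1 | h1
  · exact idx_I H hh hW ht hω P hs h1 hj1 hj hz
  · rcases Nat.lt_or_ge i S.m3 with h2 | h2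
    · obtain ⟨P', q1, q2⟩ := P.transfer hh hω hW hW'
      rw [← q2 _ s hs]
      exact idx_II H hh hW' ht' hY hω P' hs h1 h2 hj1 hj (by rw [q1 s hs]; exact hz)
    · rcases Nat.lt_or_ge i S.m4 with h3 | h3
      · exact idx_III H hh hW ht hX hω P hs h2 h3 hj1 hj hz
      · exact idx_IV H hh hW ht hω P hs h3 hi hj1 hj hz

end tot

end Pool.Agent.H21.FM
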