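import Mathlib
import Pool.Agent.H21.FM.Idx

set_option autoImplicit false
open Finset

/-! # Contributions of the strands, vanishing, connection events -/

namespace Pool.Agent.H21.FM

open Pool.Agent.H75.Perc hiding WL CT hh ph
open Pool.Agent.H75.TwoArm Pool.Agent.H75.Four Pool.Agent.H69.Q1 Pool.Agent.Q1
open Pool.Agent.H5.Q1 (oc vx_oc ty_oc fi_oc oc_congr oc_inj eq_oc nxC_oc nxO_oc oc_cases)
open Pool.Agent.Q1.M4 (Cell Good IsSide nextSide tail head PType Adj4 Conn4 dir_add_four)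
open Pool.Agent.H33.Q1

variable {S : Shape} {h : ℕ} {W W' ω w : Finset (ℤ × ℤ)} {c c' z e e' : ℤ × ℤ} {d k κ : ℤ}
  {T T' o o' : ℕ}

/-! ### One strand -/

section one

variable (hh : 0 < h) (hω : ω ⊆ EE S h) (hW : Wir S h W) (hc : IsC S h c)
  (P : Pth S h (ω ∪ W) c T e)
include hh hω hW hc P

lemma Pth.inj {s s' : ℕ} (hs : s ≤ T) (hs' : s' ≤ T)
    (he : (nx (ω ∪ W))^[s] c = (nx (ω ∪ W))^[s'] c) : s = s' := by
  obtain ⟨L, hL⟩ := exists_orb_nx (ω ∪ W) c
  have := P.lt_len hh hω hW hc hL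
  exact orb_inj hL (by omega) (by omega) he

lemma VV_on {s : ℕ} (hs : s ≤ T) (he : (nx (ω ∪ W))^[s] c = z) (k : ℤ) :
    VV (nx (ω ∪ W)) (del (ω ∪ W)) c k (T + 1) z =
      ph (KK (nx (ω ∪ W)) (del (ω ∪ W)) c k s) := by
  unfold VV
  rw [Finset.sum_eq_single s]
  · rw [if_pos he]
  · intro j hj hne
    rw [if_neg]
    intro h2
    exact hne (P.inj hh hω hW hc (by rw [mem_range] at hj; omega) hs (h2.trans he.symm))
  · intro hn
    exact absurd (mem_range.2 (by omega)) hn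

omit hh hω hW hc P in
lemma VV_off (hn : ¬ On w c T z) (k : ℤ) : VV (nx w) (del w) c k (T + 1) z = 0 := by
  apply VV_zero
  intro i hi he
  exact hn ⟨i, by omega, he⟩

/-- two steps outside along the wall -/
lemma VV_two {z0 z1 z2 : ℤ × ℤ} {δ : ℤ} (h01 : nx (ω ∪ W) z0 = z1) (h12 : nx (ω ∪ W) z1 = z2)
    (d0 : del (ω ∪ W) z0 = δ) (d1 : del (ω ∪ W) z1 = δ) (hz0 : ¬ IsE S h z0)
    (l0 : lab z0 ∉ EE S h) (l1 : lab z1 ∉ EE S h) (hz2 : ¬ IsC S h z2) (k : ℤ) :
    VV (nx (ω ∪ W)) (del (ω ∪ W)) c k (T + 1) z2 =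
      ph (δ + δ) * VV (nx (ω ∪ W)) (del (ω ∪ W)) c k (T + 1) z0 := by
  by_cases hO : On (ω ∪ W) c T z0
  · obtain ⟨s, hs, he⟩ := hO
    have hs1 : s < T := by
      rcases hs.lt_or_eq with h1 | h1
      · exact h1
      · exfalso
        subst h1
        rw [P.fin] at he
        exact hz0 (he ▸ P.tgt)
    have e1 : (nx (ω ∪ W))^[s + 1] c = z1 := by
      rw [Function.iterate_succ_apply', he, h01]
    have e2 : (nx (ω ∪ W))^[s + 2] c = z2 := by
      rw [show s + 2 = s + 1 + 1 from rfl, Function.iterate_succ_apply', e1, h12]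
    have hs2 : s + 1 < T := by
      rcases Nat.lt_or_ge (s + 1) T with h1 | h1
      · exact h1
      · exfalso
        have h1' : s + 1 = T := by omega
        have h2 := P.tgt.plab hh
        rw [← P.fin, ← h1', Function.iterate_succ_apply', he, plab_nx] at h2
        exact l0 h2
    rw [VV_on hh hω hW hc P (by omega) e2, VV_on hh hω hW hc P hs he, ← ph_add]
    congr 1
    rw [show s + 2 = s + 1 + 1 from rfl, KK_succ, KK_succ, e1, he, d0, d1]
    ring
  · have hO2 : ¬ On (ω ∪ W) c T z2 := by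
      rintro ⟨s, hs, he⟩
      rcases Nat.eq_zero_or_pos s with h1 | h1
      · subst h1
        exact hz2 (by rw [← he]; exact hc)
      · obtain ⟨m, rfl⟩ : ∃ m, s = m + 1 := ⟨s - 1, by omega⟩
        rw [Function.iterate_succ_apply', ← h12] at he
        have he' := nx_injective _ he
        rcases Nat.eq_zero_or_pos m with h2 | h2
        · subst h2
          apply l1
          rw [← he']
          exact hc.lab hh
        · obtain ⟨m', rfl⟩ : ∃ m', m = m' + 1 := ⟨m - 1, by omega⟩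
          rw [Function.iterate_succ_apply', ← h01] at he'
          exact hO ⟨m', by omega, nx_injective _ he'⟩
    rw [VV_off hO2, VV_off hO, mul_zero]

/-- free wall: entry from exit -/
lemma VV_free {i j : ℕ} (hi : i < S.N) (hf : S.Fr i) (hj1 : 1 ≤ j) (hj : j < h) (k : ℤ) :
    VV (nx (ω ∪ W)) (del (ω ∪ W)) c k (T + 1) (ent h (S.P.side i) j) =
      ph 2 * VV (nx (ω ∪ W)) (del (ω ∪ W)) c k (T + 1) (exi h (S.P.side i) j) := by
  obtain ⟨a1, a2, a3, a4⟩ := S.pos
  have n1 : ql (wv h (S.P.side i) j) ((S.P.side i).2 - 1) ∈ LY (2 * h) (S.P.side i) :=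
    ly_out' hh _ hj1 hj.le
  have n2 : ql (wv h (S.P.side i) j) (S.P.side i).2 ∈ LY (2 * h) (S.P.side i) := ly_out hh _ hj
  have m1 := out_notMem hω hh hW hf n1
  have m2 : ql (wv h (S.P.side i) j) ((S.P.side i).2 + 1 - 1) ∉ ω ∪ W := by
    rw [add_sub_cancel_right]; exact out_notMem hω hh hW hf n2
  have s1 : nx (ω ∪ W) (exi h (S.P.side i) j) = oc (wv h (S.P.side i) j) ((S.P.side i).2 + 1) :=
    nx_closed m1
  have s2 : nx (ω ∪ W) (oc (wv h (S.P.side i) j) ((S.P.side i).2 + 1)) =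
      ent h (S.P.side i) j := by
    rw [nx_closed m2]
    unfold ent
    apply oc_congr; omega
  refine VV_two hh hω hW hc P s1 s2 (del_closed m1) (del_closed m2) ?_ ?_ ?_ ?_ k
  · rintro (h1 | h1)
    · have := (exi_inj hh hi (by omega) hj1 hj.le hh le_rfl h1).2; omega
    · have := (exi_inj hh hi (by omega) hj1 hj.le hh le_rfl h1).2; omega
  · exact lab_exi hh i hj1 hj.le
  · rw [lab_oc, add_sub_cancel_right]
    exact ly_notMem hh (S.isSide i) n2
  · rintro (h1 | h1)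
    · have := (ent_inj hh hi (by omega) hj hh h1).2; omega
    · have := (ent_inj hh hi (by omega) hj hh h1).2; omega

/-- wired wall: entry from exit -/
lemma VV_wired {i j : ℕ} (hi : i < S.N) (hf : S.Wd i) (hj : j < h) (k : ℤ) :
    VV (nx (ω ∪ W)) (del (ω ∪ W)) c k (T + 1) (ent h (S.P.side i) j) =
      ph (-2) * VV (nx (ω ∪ W)) (del (ω ∪ W)) c k (T + 1) (exi h (S.P.side i) (j + 1)) := by
  obtain ⟨a1, a2, a3, a4⟩ := S.pos
  have hm4 : S.m4 = S.P.m := rfl
  have hi1 : i ≠ S.m2 - 1 ∧ i ≠ S.m4 - 1 := by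
    rcases hf with h1 | h1 <;> constructor <;> omega
  have hi2 : i ≠ 0 ∧ i ≠ S.m3 := by
    rcases hf with h1 | h1 <;> constructor <;> omega
  have hLY : LY (2 * h) (S.P.side i) ⊆ ω ∪ W := (hW.wired i hf).trans subset_union_right
  obtain ⟨s1, d1⟩ := nx_exi hh (show 1 ≤ j + 1 by omega) (show j + 1 ≤ h by omega) hLY
  obtain ⟨s2, d2⟩ := nx_mid hh hj hLY
  refine VV_two hh hω hW hc P s1 s2 d1 d2 ?_ ?_ ?_ ?_ k
  · rintro (h1 | h1)
    · exact hi1.1 (exi_inj hh hi (by omega) (by omega) (by omega) hh le_rfl h1).1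
    · exact hi1.2 (exi_inj hh hi (by omega) (by omega) (by omega) hh le_rfl h1).1
  · exact lab_exi hh i (by omega) (by omega)
  · unfold mid
    rw [lab_oc, ql_mid]
    exact ly_notMem hh (S.isSide i) (ly_out hh _ hj)
  · rintro (h1 | h1)
    · exact hi2.1 (ent_inj hh hi (by omega) hj hh h1).1
    · exact hi2.2 (ent_inj hh hi (by omega) hj hh h1).1

end one

/-- the contributions do not depend on the wired labels -/
lemma VV_transfer (hh : 0 < h) (hω : ω ⊆ EE S h) (hW : Wir S h W) (hW' : Wir S h W')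
    (P : Pth S h (ω ∪ W) c T e) (k : ℤ) (z : ℤ × ℤ) :
    VV (nx (ω ∪ W')) (del (ω ∪ W')) c k (T + 1) z =
      VV (nx (ω ∪ W)) (del (ω ∪ W)) c k (T + 1) z := by
  obtain ⟨-, q1, q2⟩ := P.transfer hh hω hW hW'
  unfold VV
  apply Finset.sum_congr rfl
  intro i hi
  rw [mem_range] at hi
  rw [q1 i (by omega), q2 k i (by omega)]

lemma On.transfer (hh : 0 < h) (hω : ω ⊆ EE S h) (hW : Wir S h W) (hW' : Wir S h W')
    (P : Pth S h (ω ∪ W) c T e) : On (ω ∪ W') c T z ↔ On (ω ∪ W) c T z := by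
  obtain ⟨-, q1, q2⟩ := P.transfer hh hω hW hW'
  constructor
  · rintro ⟨s, hs, he⟩
    exact ⟨s, hs, by rw [← q1 s hs]; exact he⟩
  · rintro ⟨s, hs, he⟩
    exact ⟨s, hs, by rw [q1 s hs]; exact he⟩

/-! ### The two connections -/

lemma vx_c1 (S : Shape) (h : ℕ) : vx (c1 S h) = v1 S h := by unfold c1 ent v1; rw [vx_oc]

lemma vx_c3 (S : Shape) (h : ℕ) : vx (c3 S h) = v3 S h := by unfold c3 ent v3; rw [vx_oc]

section ev

variable (hh : 0 < h) (H : Hug S h) (hW0 : Wir S h (W0 S h)) (hX : TypX S h (W0 S h))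
  (hd : DCo (EE S h ∪ W0 S h) (fi (c1 S h)) (fi (c3 S h)))
include hh H hW0 hX hd

omit H in
/-- **II and IV are connected iff the first strand ends at the mark 2.** -/
lemma tt_iff (hω : ω ⊆ EE S h) (P : Pth S h (ω ∪ W0 S h) (c1 S h) T e) :
    TT S h ω ↔ e = e2 S h := by
  obtain ⟨o2, o4, d2, d4, O2, O4⟩ := hX
  constructor
  · intro ht
    rcases P.tgt with h1 | h1
    · exact h1
    · exfalso
      rw [h1] at P
      refine short_disj hh hω hW0 (Or.inl rfl) (Or.inr rfl) (c1_ne_c3 hh) P (O4 ω hω).1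
        (inOrb_of ?_ (hd.anti (union_subset_union_left hω)))
      rw [vx_c1, vx_c3]
      exact Co.symm ht
  · intro h1
    rw [h1] at P
    have h2 : InOrb (nx (ω ∪ W0 S h)) (c1 S h) (c3 S h) :=
      ⟨T + o2, by rw [iter_add, P.fin, (O2 ω hω).1.fin]⟩
    have h3 := inOrb_vx h2
    rw [vx_c1, vx_c3] at h3
    exact Co.symm h3

omit H in
/-- the other strand -/
lemma tt_iff3 (hω : ω ⊆ EE S h) (P3 : Pth S h (ω ∪ W0 S h) (c3 S h) T' e') :
    TT S h ω ↔ e' = e4 S h := by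
  obtain ⟨T, e, P⟩ := exists_pth hh hω hW0 (c := c1 S h) (Or.inl rfl)
  rw [tt_iff hh hW0 hX hd hω P]
  have hne := P.ends_ne hh hω hW0 (Or.inl rfl) (Or.inr rfl) (c1_ne_c3 hh) P3
  have h24 := e2_ne_e4 (S := S) hh
  rcases P.tgt with h1 | h1 <;> rcases P3.tgt with h2 | h2
  · exact absurd (h1.trans h2.symm) hne
  · exact iff_of_true h1 h2
  · exact iff_of_false (fun h => h24 (h.symm.trans h1)) (fun h => h24 (h2.symm.trans h))
  · exact absurd (h1.trans h2.symm) hne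

variable {i j : ℕ}

/-- arc II, not connected: the first strand does not come -/
lemma van_II (hω : ω ⊆ EE S h) (P : Pth S h (ω ∪ W0 S h) (c1 S h) T e) (h2 : S.m2 ≤ i)
    (h3 : i < S.m3) (hj1 : 1 ≤ j) (hj : j ≤ h) (hO : On (ω ∪ W0 S h) (c1 S h) T
      (exi h (S.P.side i) j)) : TT S h ω := by
  rw [tt_iff hh hW0 hX hd hω P]
  rcases P.tgt with h1 | h1
  · exact h1
  · exfalso
    obtain ⟨o2, o4, d2, d4, O2, O4⟩ := hX
    obtain ⟨a1, a2, a3, a4⟩ := S.pos
    rw [h1] at P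
    apply short_disj hh hω hW0 (Or.inl rfl) (Or.inr rfl) (c1_ne_c3 hh) P (O4 ω hω).1
    have g1 := hO.inOrb
    have g := (H.wiredX _ hW0 i (S.m3 - 1) (by omega)
      (fun l h1 hl => Or.inl ⟨by omega, by omega⟩) j hj1 hj).inOrb
    rw [show S.m3 - 1 + 1 = S.m3 by omega] at g
    have g2 : InOrb (nx (ω ∪ W0 S h)) (c3 S h) (exi h (S.P.side i) j) :=
      inOrb_of ((inOrb_vx g).mono subset_union_right)
        ((hd.anti (union_subset_union_left hω)).symm.trans (inOrb_fi g1))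
    exact inOrb_trans g1 (inOrb_symm g2)

/-- arc IV, not connected: the third strand does not come -/
lemma van_IV (hω : ω ⊆ EE S h) (P3 : Pth S h (ω ∪ W0 S h) (c3 S h) T' e') (h4 : S.m4 ≤ i)
    (hN : i < S.N) (hj1 : 1 ≤ j) (hj : j ≤ h) (hO : On (ω ∪ W0 S h) (c3 S h) T'
      (exi h (S.P.side i) j)) : TT S h ω := by
  obtain ⟨T, e, P⟩ := exists_pth hh hω hW0 (c := c1 S h) (Or.inl rfl)
  rw [tt_iff hh hW0 hX hd hω P]
  rcases P.tgt with h1 | h1
  · exact h1
  · exfalso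
    obtain ⟨o2, o4, d2, d4, O2, O4⟩ := hX
    obtain ⟨a1, a2, a3, a4⟩ := S.pos
    rw [h1] at P
    apply short_disj hh hω hW0 (Or.inl rfl) (Or.inr rfl) (c1_ne_c3 hh) P (O4 ω hω).1
    have g1 := hO.inOrb
    have g := (H.wiredX _ hW0 i (S.N - 1) (by omega)
      (fun l h1 hl => Or.inr ⟨by omega, by omega⟩) j hj1 hj).inOrb
    rw [show S.N - 1 + 1 = S.N by omega, ← c1_eqN] at g
    have g2 : InOrb (nx (ω ∪ W0 S h)) (c1 S h) (exi h (S.P.side i) j) :=
      inOrb_of ((inOrb_vx g).mono subset_union_right)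
        ((hd.anti (union_subset_union_left hω)).trans (inOrb_fi g1))
    exact inOrb_trans g2 (inOrb_symm g1)

variable (hW' : Wir S h W') (hY : TypY S h W')
  (hco : Co W' (vx (c1 S h)) (vx (c3 S h)))
include hW' hY hco

/-- arc I, connected: the third strand does not come -/
lemma van_I (hω : ω ⊆ EE S h) (P3 : Pth S h (ω ∪ W0 S h) (c3 S h) T' e') (h2 : i < S.m2)
    (hj1 : 1 ≤ j) (hj : j ≤ h) (hO : On (ω ∪ W0 S h) (c3 S h) T'
      (exi h (S.P.side i) j)) : ¬ TT S h ω := by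
  intro ht
  obtain ⟨T, e, P⟩ := exists_pth hh hω hW0 (c := c1 S h) (Or.inl rfl)
  rw [tt_iff hh hW0 hX hd hω P] at ht
  rw [ht] at P
  obtain ⟨o2, o4, d2, d4, O2, O4⟩ := hY
  have P' := (P.transfer hh hω hW0 hW').1
  apply short_disj hh hω hW' (Or.inl rfl) (Or.inr rfl) (c1_ne_c3 hh) P' (O2 ω hω).1
  have g1 := ((On.transfer hh hω hW0 hW' P3).2 hO).inOrb
  have g := (H.freeX _ hW' 0 i (by omega) (fun l _ hl => Or.inl (by omega)) j hj1 hj).inOrb
  have g2 : InOrb (nx (ω ∪ W')) (c1 S h) (exi h (S.P.side i) j) :=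
    inOrb_of ((hco.mono subset_union_right).trans (inOrb_vx g1))
      ((inOrb_fi g).anti (union_subset_union_left hω))
  exact inOrb_trans g2 (inOrb_symm g1)

/-- arc III, connected: the first strand does not come -/
lemma van_III (hω : ω ⊆ EE S h) (P : Pth S h (ω ∪ W0 S h) (c1 S h) T e) (h3 : S.m3 ≤ i)
    (h4 : i < S.m4) (hj1 : 1 ≤ j) (hj : j ≤ h) (hO : On (ω ∪ W0 S h) (c1 S h) T
      (exi h (S.P.side i) j)) : ¬ TT S h ω := by
  intro ht
  rw [tt_iff hh hW0 hX hd hω P] at ht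
  rw [ht] at P
  obtain ⟨o2, o4, d2, d4, O2, O4⟩ := hY
  have P' := (P.transfer hh hω hW0 hW').1
  apply short_disj hh hω hW' (Or.inl rfl) (Or.inr rfl) (c1_ne_c3 hh) P' (O2 ω hω).1
  have g1 := ((On.transfer hh hω hW0 hW' P).2 hO).inOrb
  have g := (H.freeX _ hW' S.m3 i (by omega) (fun l h1 hl => Or.inr ⟨h1, by omega⟩) j hj1 hj).inOrb
  have g2 : InOrb (nx (ω ∪ W')) (c3 S h) (exi h (S.P.side i) j) :=
    inOrb_of ((hco.mono subset_union_right).symm.trans (inOrb_vx g1))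
      ((inOrb_fi g).anti (union_subset_union_left hω))
  exact inOrb_trans g1 (inOrb_symm g2)

/-- arc I: the first strand comes iff the vertex is connected to IV -/
lemma eq_A (hω : ω ⊆ EE S h) (P : Pth S h (ω ∪ W0 S h) (c1 S h) T e) (h2 : i < S.m2)
    (hj1 : 1 ≤ j) (hj : j ≤ h) : On (ω ∪ W0 S h) (c1 S h) T (exi h (S.P.side i) j) ↔
      C1 S h (wv h (S.P.side i) j) ω := by
  have hvz : vx (exi h (S.P.side i) j) = wv h (S.P.side i) j := by unfold exi; rw [vx_oc]
  constructor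
  · intro hO
    have h1 := inOrb_vx hO.inOrb
    rw [vx_c1, hvz] at h1
    exact Co.symm h1
  · intro hC
    have hInn : Inn S h (exi h (S.P.side i) j) := Or.inr (plab_exi hh i hj1 hj)
    have g := (H.freeX _ hW0 0 i (by omega) (fun l _ hl => Or.inl (by omega)) j hj1 hj).inOrb
    have g2 : InOrb (nx (ω ∪ W0 S h)) (c1 S h) (exi h (S.P.side i) j) := by
      refine inOrb_of ?_ ((inOrb_fi g).anti (union_subset_union_left hω))
      rw [vx_c1, hvz]
      exact Co.symm hC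
    have hX' := hX
    obtain ⟨o2, o4, d2, d4, O2, O4⟩ := hX'
    rcases P.tgt with h1 | h1
    · rw [h1] at P
      obtain ⟨T3, e3, P3⟩ := exists_pth hh hω hW0 (c := c3 S h) (Or.inr rfl)
      have ht : TT S h ω := (tt_iff hh hW0 hX hd hω P).2 rfl
      have h3 := (tt_iff3 hh hW0 hX hd hω P3).1 ht
      rw [h3] at P3
      rcases on_of_long hh hω hW0 (Or.inl rfl) (c1_ne_c3 hh) P (O2 ω hω).1 P3 (O4 ω hω).1 hInn g2
        with h5 | h5
      · exact h5
      · exact absurd ht (van_I hh H hW0 hX hd hW' hY hco hω P3 h2 hj1 hj h5)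
    · rw [h1] at P
      exact on_of_short hh hω hW0 (Or.inl rfl) P (O4 ω hω).1 hInn g2

omit hW' hY hco in
/-- arc I, not connected: the third strand comes iff the vertex is connected to II -/
lemma eq_D (hω : ω ⊆ EE S h) (P3 : Pth S h (ω ∪ W0 S h) (c3 S h) T' e') (h2 : i < S.m2)
    (hj1 : 1 ≤ j) (hj : j ≤ h) (ht : ¬ TT S h ω) :
    On (ω ∪ W0 S h) (c3 S h) T' (exi h (S.P.side i) j) ↔ C3 S h (wv h (S.P.side i) j) ω := by
  have hvz : vx (exi h (S.P.side i) j) = wv h (S.P.side i) j := by unfold exi; rw [vx_oc]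
  constructor
  · intro hO
    have h1 := inOrb_vx hO.inOrb
    rw [vx_c3, hvz] at h1
    exact Co.symm h1
  · intro hC
    have hInn : Inn S h (exi h (S.P.side i) j) := Or.inr (plab_exi hh i hj1 hj)
    have g := (H.freeX _ hW0 0 i (by omega) (fun l _ hl => Or.inl (by omega)) j hj1 hj).inOrb
    have g2 : InOrb (nx (ω ∪ W0 S h)) (c3 S h) (exi h (S.P.side i) j) := by
      refine inOrb_of ?_ ((hd.anti (union_subset_union_left hω)).symm.trans
        ((inOrb_fi g).anti (union_subset_union_left hω)))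
      rw [vx_c3, hvz]
      exact Co.symm hC
    have h3 : e' = e2 S h := by
      rcases P3.tgt with h4 | h4
      · exact h4
      · exact absurd ((tt_iff3 hh hW0 hX hd hω P3).2 h4) ht
    rw [h3] at P3
    obtain ⟨o2, o4, d2, d4, O2, O4⟩ := hX
    exact on_of_short hh hω hW0 (Or.inr rfl) P3 (O2 ω hω).1 hInn g2

end ev

end Pool.Agent.H21.FM
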