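import Mathlib
import Pool.Agent.H21.FM.Types
import Pool.Agent.H23.FM.Hug

set_option autoImplicit false
open Finset

namespace Pool.Agent.H21.FM

/-- the path follows the walls (helper23) -/
theorem hug (S : Shape) {h : ℕ} (hh : 0 < h) : Hug S h :=
  ⟨fun _ hW _ _ h1 h2 _ h3 h4 => go_free_idx' hh hW h1 h2 h3 h4,
    fun _ hW _ _ h1 h2 _ h3 => go_free_idx hh hW h1 h2 h3,
    fun _ hW _ _ h1 h2 _ h3 h4 => go_wired_idx hh hW h1 h2 h3 h4,
    fun _ hW _ _ h1 h2 _ h3 => go_wired_idx' hh hW h1 h2 h3⟩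

end Pool.Agent.H21.FM
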