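import Mathlib
import Pool.Agent.H21.FM.Contrib
import Pool.Agent.H21.FM.HugP
import Pool.Agent.H21.FM.CTab
import Pool.Agent.H23.FM.Rot

set_option autoImplicit false
open Finset

/-! # The exact table, configuration by configuration (proof) -/

namespace Pool.Agent.H21.FM

open Pool.Agent.H75.Perc hiding WL CT hh ph
open Pool.Agent.H75.TwoArm Pool.Agent.H75.Four Pool.Agent.H69.Q1 Pool.Agent.Q1
open Pool.Agent.H5.Q1 (oc vx_oc ty_oc fi_oc oc_congr oc_inj eq_oc nxC_oc nxO_oc oc_cases)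
open Pool.Agent.Q1.M4 (Cell Good IsSide nextSide tail head PType Adj4 Conn4 dir_add_four)
open Pool.Agent.H33.Q1

variable {S : Shape} {h : ℕ} {W W' ω w : Finset (ℤ × ℤ)} {c c' z e e' r : ℤ × ℤ} {d k k0 κ : ℤ}
  {T T' o o' : ℕ} {X : Env}

/-- length of the strand from `c` -/
noncomputable def tm (S : Shape) (h : ℕ) (w : Finset (ℤ × ℤ)) (c : ℤ × ℤ) : ℕ :=
  sInf {s | IsE S h ((nx w)^[s] c)}

lemma Pth.tm_eq (hh : 0 < h) (hW : Wir S h W) (P : Pth S h w c T e) : tm S h w c = T := by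
  have hmem : T ∈ {s | IsE S h ((nx w)^[s] c)} := by
    rw [Set.mem_setOf_eq, P.fin]; exact P.tgt
  apply le_antisymm (Nat.sInf_le hmem)
  by_contra hcon
  push Not at hcon
  have h1 : IsE S h ((nx w)^[tm S h w c] c) := Nat.sInf_mem ⟨T, hmem⟩
  exact h1.notCC hh hW (P.com _ hcon)

/-- contribution of the first strand -/
noncomputable def V1 (S : Shape) (h : ℕ) (ω : Finset (ℤ × ℤ)) (z : ℤ × ℤ) : ℂ :=
  VV (nx (ω ∪ W0 S h)) (del (ω ∪ W0 S h)) (c1 S h) (S.k 0 + 2)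
    (tm S h (ω ∪ W0 S h) (c1 S h) + 1) z

/-- contribution of the third strand -/
noncomputable def V3 (S : Shape) (h : ℕ) (ω : Finset (ℤ × ℤ)) (z : ℤ × ℤ) : ℂ :=
  VV (nx (ω ∪ W0 S h)) (del (ω ∪ W0 S h)) (c3 S h) (S.k S.m3 + 2)
    (tm S h (ω ∪ W0 S h) (c3 S h) + 1) z

/-- the first strand passes through `z` -/
def s1 (S : Shape) (h : ℕ) (ω : Finset (ℤ × ℤ)) (z : ℤ × ℤ) : Prop :=
  On (ω ∪ W0 S h) (c1 S h) (tm S h (ω ∪ W0 S h) (c1 S h)) z

/-- the third strand passes through `z` -/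
def s3 (S : Shape) (h : ℕ) (ω : Finset (ℤ × ℤ)) (z : ℤ × ℤ) : Prop :=
  On (ω ∪ W0 S h) (c3 S h) (tm S h (ω ∪ W0 S h) (c3 S h)) z

/-! ### Total turnings from the root hypotheses -/

lemma totW_of_root (R : RootOK S h W r) : TotW (EE S h) W r := by
  obtain ⟨-, g, hg1, hg2⟩ := R
  intro ω hω L hL k
  have hs : ω ∪ W ⊆ EE S h ∪ W := union_subset_union_left hω
  exact total_outer (hg1.anti hs) (fun v hv => hg2 v (hv.mono hs)) hL k

/-! ### Increments of the environment -/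

lemma incO_VV (hE : IsEnv S h W r k0 X) (hω : ω ⊆ EE S h) (hz : z ≠ r)
    (hn : nx (ω ∪ W) r = c ∧ del (ω ∪ W) r = 1) {L : ℕ} (hL : Orb (nx (ω ∪ W)) c L) :
    X.incO ω z = VV (nx (ω ∪ W)) (del (ω ∪ W)) c (k0 + 1) L z := by
  obtain ⟨hP, h1, h2, h3, -⟩ := hE
  have hω' : ω ⊆ X.E := by rw [h1]; exact hω
  have hO := hP.orb hω'
  have e1 : X.incO ω z = VV (nx (ω ∪ W)) (del (ω ∪ W)) r k0 (X.len ω) z := by
    unfold Env.incO VV
    apply Finset.sum_congr rfl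
    intro i _
    rw [hP.zz ω hω' i, hP.KK' ω hω' i, h2, h3]
  rw [h2] at hO
  have h4 := (hO.rotate_one (nx_injective _) (del (ω ∪ W)) 0).1
  rw [hn.1] at h4
  have h5 := h4.unique hL
  rw [e1, VV_rotate hO.per k0 hz, hn.1, hn.2, h5]

lemma not_inn_r1 (hh : 0 < h) (hr : plab (r1 S h) ∉ EE S h) : ¬ Inn S h (r1 S h) := by
  rintro (h1 | h1)
  · exact ly_notMem hh (S.isSide 0) (lab_r1 hh) h1
  · exact hr h1

section main

variable (hh : 0 < h) (H : Hug S h) (hW0 : Wir S h (W0 S h)) (hX : TypX S h (W0 S h))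
  (hd : DCo (EE S h ∪ W0 S h) (fi (c1 S h)) (fi (c3 S h)))
  (ht0 : TotW (EE S h) (W0 S h) (c1 S h))
  (hW' : Wir S h W') (hY : TypY S h W') (ht' : TotW (EE S h) W' (c1 S h))
include hh H hW0 hX hd ht0 hW' hY ht'

/-- index of the first strand at its end -/
lemma idx_end (hω : ω ⊆ EE S h) (P : Pth S h (ω ∪ W0 S h) (c1 S h) T e) :
    (e = e2 S h → KK (nx (ω ∪ W0 S h)) (del (ω ∪ W0 S h)) (c1 S h) (S.k 0 + 2) T =
      S.k (S.m2 - 1)) ∧
    (e = e4 S h → KK (nx (ω ∪ W0 S h)) (del (ω ∪ W0 S h)) (c1 S h) (S.k 0 + 2) T =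
      S.k (S.m4 - 1)) := by
  obtain ⟨a, b, c, d⟩ := S.pos
  constructor
  · intro he
    exact idx1 H hh hW0 ht0 hX hW' hY ht' hω P le_rfl (show S.m2 - 1 < S.N by omega) hh le_rfl
      (by rw [P.fin, he]; rfl)
  · intro he
    exact idx1 H hh hW0 ht0 hX hW' hY ht' hω P le_rfl (show S.m4 - 1 < S.N by omega) hh le_rfl
      (by rw [P.fin, he]; rfl)

open scoped Classical in
/-- **Type X.** -/
theorem incO_X (hE : IsEnv S h (W0 S h) (r1 S h) (S.k 0 + 1) X) (hr : plab (r1 S h) ∉ EE S h)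
    (hω : ω ⊆ EE S h) (hz : Inn S h z) :
    X.incO ω z = V1 S h ω z + if TT S h ω then V3 S h ω z else 0 := by
  obtain ⟨T, e, P⟩ := exists_pth hh hω hW0 (c := c1 S h) (Or.inl rfl)
  obtain ⟨T3, e3, P3⟩ := exists_pth hh hω hW0 (c := c3 S h) (Or.inr rfl)
  have hzr : z ≠ r1 S h := fun h1 => not_inn_r1 hh hr (h1 ▸ hz)
  have hid := idx_end hh H hW0 hX hd ht0 hW' hY ht' hω P
  have hX' := hX
  obtain ⟨o2, o4, d2, d4, O2, O4⟩ := hX'
  unfold V1 V3
  rw [P.tm_eq hh hW0, P3.tm_eq hh hW0]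
  by_cases ht : TT S h ω
  · rw [if_pos ht]
    have he := (tt_iff hh hW0 hX hd hω P).1 ht
    have he3 := (tt_iff3 hh hW0 hX hd hω P3).1 ht
    rw [he] at P
    rw [he3] at P3
    rw [incO_VV hE hω hzr (nx_r1 hh hω hW0)
      (orb_long hh hω hW0 (Or.inl rfl) (c1_ne_c3 hh) P (O2 ω hω).1 P3 (O4 ω hω).1),
      VV_long P (O2 ω hω).1 P3 (O4 ω hω).1 hz, KK_add, P.fin, (O2 ω hω).2,
      (totX H hh hW0 ht0 O2 O4).1]
    rw [show S.k 0 + 1 + 1 = S.k 0 + 2 by ring, hid.1 he,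
      show S.k (S.m2 - 1) + (S.k S.m3 + 2 - S.k (S.m2 - 1)) = S.k S.m3 + 2 by ring]
  · rw [if_neg ht, add_zero]
    have he : e = e4 S h := by
      rcases P.tgt with h1 | h1
      · exact absurd ((tt_iff hh hW0 hX hd hω P).2 h1) ht
      · exact h1
    rw [he] at P
    rw [incO_VV hE hω hzr (nx_r1 hh hω hW0)
      (orb_short hh hω hW0 (Or.inl rfl) P (O4 ω hω).1), VV_short P (O4 ω hω).1 hz,
      show S.k 0 + 1 + 1 = S.k 0 + 2 by ring]

open scoped Classical in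
/-- **Type Y.** -/
theorem incO_Y (hE : IsEnv S h W' (r1 S h) (S.k 0 + 1) X) (hr : plab (r1 S h) ∉ EE S h)
    (hω : ω ⊆ EE S h) (hz : Inn S h z) :
    X.incO ω z = V1 S h ω z + if TT S h ω then 0 else ph 2 * V3 S h ω z := by
  obtain ⟨T, e, P⟩ := exists_pth hh hω hW0 (c := c1 S h) (Or.inl rfl)
  obtain ⟨T3, e3, P3⟩ := exists_pth hh hω hW0 (c := c3 S h) (Or.inr rfl)
  have hzr : z ≠ r1 S h := fun h1 => not_inn_r1 hh hr (h1 ▸ hz)
  have hid := idx_end hh H hW0 hX hd ht0 hW' hY ht' hω P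
  obtain ⟨Q, q1, q2⟩ := P.transfer hh hω hW0 hW'
  obtain ⟨Q3, -, -⟩ := P3.transfer hh hω hW0 hW'
  have hY' := hY
  obtain ⟨o2, o4, d2, d4, O2, O4⟩ := hY'
  unfold V1 V3
  rw [P.tm_eq hh hW0, P3.tm_eq hh hW0]
  by_cases ht : TT S h ω
  · rw [if_pos ht, add_zero]
    have he := (tt_iff hh hW0 hX hd hω P).1 ht
    rw [he] at Q P
    rw [incO_VV hE hω hzr (nx_r1 hh hω hW')
      (orb_short hh hω hW' (Or.inl rfl) Q (O2 ω hω).1), VV_short Q (O2 ω hω).1 hz,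
      show S.k 0 + 1 + 1 = S.k 0 + 2 by ring, VV_transfer hh hω hW0 hW' P]
  · rw [if_neg ht]
    have he : e = e4 S h := by
      rcases P.tgt with h1 | h1
      · exact absurd ((tt_iff hh hW0 hX hd hω P).2 h1) ht
      · exact h1
    have he3 : e3 = e2 S h := by
      rcases P3.tgt with h1 | h1
      · exact h1
      · exact absurd ((tt_iff3 hh hW0 hX hd hω P3).2 h1) ht
    rw [he] at Q P
    rw [he3] at Q3 P3
    rw [incO_VV hE hω hzr (nx_r1 hh hω hW')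
      (orb_long hh hω hW' (Or.inl rfl) (c1_ne_c3 hh) Q (O4 ω hω).1 Q3 (O2 ω hω).1),
      VV_long Q (O4 ω hω).1 Q3 (O2 ω hω).1 hz, KK_add, Q.fin, (O4 ω hω).2,
      (totY H hh hW' ht' O2 O4).2]
    rw [show S.k 0 + 1 + 1 = S.k 0 + 2 by ring, q2 _ T le_rfl, hid.2 he,
      show S.k (S.m4 - 1) + (S.k S.m3 - 2 - S.k (S.m4 - 1)) = S.k S.m3 + 2 + (-4) by ring,
      VV_transfer hh hω hW0 hW' P, VV_transfer hh hω hW0 hW' P3,
      VV_shift (c3 S h) (S.k S.m3 + 2) (-4),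
      show ph (-4) = ph 2 by rw [← ph_add_six (-4)]; norm_num]

open scoped Classical in
/-- the first strand at the exit corners -/
theorem V1_exi (hω : ω ⊆ EE S h) {i j : ℕ} (hi : i < S.N) (hj1 : 1 ≤ j) (hj : j ≤ h) :
    V1 S h ω (exi h (S.P.side i) j) =
      if s1 S h ω (exi h (S.P.side i) j) then ph (S.k i) else 0 := by
  obtain ⟨T, e, P⟩ := exists_pth hh hω hW0 (c := c1 S h) (Or.inl rfl)
  unfold V1 s1
  rw [P.tm_eq hh hW0]
  split_ifs with hO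
  · obtain ⟨s, hs, he⟩ := hO
    rw [VV_on hh hω hW0 (Or.inl rfl) P hs he,
      idx1 H hh hW0 ht0 hX hW' hY ht' hω P hs hi hj1 hj he]
  · exact VV_off hO _

end main

/-! ### The third strand: rotation of the shape -/

lemma rot_IsE : IsE S.rot h e ↔ IsE S h e := by
  unfold IsE
  rw [rot_e2, rot_e4]
  exact or_comm

lemma rot_tm : tm S.rot h w c = tm S h w c := by
  unfold tm
  congr 1
  ext s
  exact rot_IsE

lemma rot_V1 : V1 S.rot h ω z = V3 S h ω z := by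
  unfold V1 V3
  rw [rot_W0, rot_c1, rot_k0, rot_tm]

lemma rot_V3 : V3 S.rot h ω z = ph 4 * V1 S h ω z := by
  unfold V1 V3
  rw [rot_W0, rot_c3, rot_km3, rot_tm, show S.k 0 + 4 + 2 = S.k 0 + 2 + 4 by ring, VV_shift]

lemma rot_s1 : s1 S.rot h ω z ↔ s3 S h ω z := by
  unfold s1 s3
  rw [rot_W0, rot_c1, rot_tm]

lemma rot_OutT {o : ℕ} : OutT S.rot h W e o c d ↔ OutT S h W e o c d := by
  unfold OutT
  have key : ∀ w, Outr S.rot h w e o c ↔ Outr S h w e o c := by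
    intro w
    constructor
    · rintro ⟨a1, a2, a3, a4⟩
      exact ⟨a1, a2, a3, by rw [rot_c1, rot_c3] at a4; exact a4.symm⟩
    · rintro ⟨a1, a2, a3, a4⟩
      exact ⟨a1, a2, a3, by rw [rot_c1, rot_c3]; exact a4.symm⟩
  simp only [key, rot_EE]

lemma rot_TypX : TypX S.rot h W ↔ TypX S h W := by
  unfold TypX
  simp only [rot_OutT, rot_e2, rot_e4, rot_c1, rot_c3]
  constructor
  · rintro ⟨o2, o4, d2, d4, a, b⟩
    exact ⟨o4, o2, d4, d2, b, a⟩
  · rintro ⟨o2, o4, d2, d4, a, b⟩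
    exact ⟨o4, o2, d4, d2, b, a⟩

lemma rot_TypY : TypY S.rot h W ↔ TypY S h W := by
  unfold TypY
  simp only [rot_OutT, rot_e2, rot_e4, rot_c1, rot_c3]
  constructor
  · rintro ⟨o2, o4, d2, d4, a, b⟩
    exact ⟨o4, o2, d4, d2, b, a⟩
  · rintro ⟨o2, o4, d2, d4, a, b⟩
    exact ⟨o4, o2, d4, d2, b, a⟩

/-! ### The table -/

/-- the faces of the two entry corners are joined -/
lemma dco_c13 (hh : 0 < h) (hW0 : Wir S h (W0 S h))
    (hd : DCo (EE S h ∪ W0 S h) (fi (r1 S h)) (fi (r3 S h))) :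
    DCo (EE S h ∪ W0 S h) (fi (c1 S h)) (fi (c3 S h)) := by
  have g1 : InOrb (nx (EE S h ∪ W0 S h)) (r1 S h) (c1 S h) :=
    ⟨1, by rw [Function.iterate_one]; exact (nx_r1 hh subset_rfl hW0).1⟩
  have g3 : InOrb (nx (EE S h ∪ W0 S h)) (r3 S h) (c3 S h) :=
    ⟨1, by rw [Function.iterate_one]; exact (nx_r3 hh subset_rfl hW0).1⟩
  exact (inOrb_fi g1).symm.trans (hd.trans (inOrb_fi g3))

/-- all open: the two arcs are connected -/
lemma co_open (hh : 0 < h) (H : Hug S h) (hW : Wir S h W) :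
    Co (EE S h ∪ W) (vx (c1 S h)) (vx (c3 S h)) := by
  have h1 := inOrb_vx (H.open1 hh hW).inOrb
  have h2 := inOrb_vx (H.closed3 hh hW).inOrb
  exact h1.trans (h2.symm.mono subset_union_right)

/-- the root hypotheses for the other root -/
lemma ThreeW.root0' {W34 W12 : Finset (ℤ × ℤ)} (hh : 0 < h) (Q : ThreeW S h W34 W12) :
    RootOK S h (W0 S h) (r3 S h) := by
  obtain ⟨hn, g, hg1, hg2⟩ := Q.root0
  refine ⟨Q.root12.notMem, g, Q.dco.symm.trans hg1, fun v hv => hg2 v ?_⟩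
  have h1 := co_open hh (hug S hh) Q.w0
  rw [vx_c1, vx_c3] at h1
  unfold r1 r3 at *
  rw [vx_oc] at *
  exact h1.trans hv

theorem ctab {W34 W12 : Finset (ℤ × ℤ)} (hh : 0 < h) (Q : ThreeW S h W34 W12) {X12 X23 X34 : Env}
    (E12 : IsEnv S h W12 (r3 S h) (S.k S.m3 + 1) X12)
    (E23 : IsEnv S h (W0 S h) (r1 S h) (S.k 0 + 1) X23)
    (E34 : IsEnv S h W34 (r1 S h) (S.k 0 + 1) X34) :
    CTab S h X12 X23 X34 (V1 S h) (V3 S h) (s1 S h) (s3 S h) := by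
  classical
  have H := hug S hh
  have HR := hug S.rot hh
  have hd := dco_c13 hh Q.w0 Q.dco
  have hX := typX_of_dco H hh Q.w0 hd
  have co34 : Co W34 (vx (c1 S h)) (vx (c3 S h)) := by rw [vx_c1, vx_c3]; exact Q.co34
  have co12 : Co W12 (vx (c1 S h)) (vx (c3 S h)) := by rw [vx_c1, vx_c3]; exact Q.co12
  have hY34 := typY_of_co H hh Q.w34 co34
  have hY12 := typY_of_co H hh Q.w12 co12
  have t0 := totW_c1 hh Q.w0 (totW_of_root Q.root0)
  have t34 := totW_c1 hh Q.w34 (totW_of_root Q.root34)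
  have t0' := totW_c3 hh Q.w0 (totW_of_root (Q.root0' hh))
  have t12 := totW_c3 hh Q.w12 (totW_of_root Q.root12)
  -- the rotated shape
  have w0R : Wir S.rot h (W0 S.rot h) := by rw [rot_W0, rot_Wir]; exact Q.w0
  have w12R : Wir S.rot h W12 := rot_Wir.2 Q.w12
  have hXR : TypX S.rot h (W0 S.rot h) := by rw [rot_W0, rot_TypX]; exact hX
  have hdR : DCo (EE S.rot h ∪ W0 S.rot h) (fi (c1 S.rot h)) (fi (c3 S.rot h)) := by
    rw [rot_W0, rot_c1, rot_c3]; exact hd.symm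
  have t0R : TotW (EE S.rot h) (W0 S.rot h) (c1 S.rot h) := by rw [rot_W0, rot_c1]; exact t0'
  have hYR : TypY S.rot h W12 := rot_TypY.2 hY12
  have t12R : TotW (EE S.rot h) W12 (c1 S.rot h) := by rw [rot_c1]; exact t12
  have key3 : ∀ ω ⊆ EE S h, ∀ i' < S.rot.N, ∀ j, 1 ≤ j → j ≤ h →
      V3 S h ω (exi h (S.rot.P.side i') j) =
        if s3 S h ω (exi h (S.rot.P.side i') j) then ph (S.rot.k i') else 0 := by
    intro ω hω i' hi' j hj1 hj
    have h1 := V1_exi (S := S.rot) hh HR w0R hXR hdR t0R w12R hYR t12R (ω := ω) hω hi' hj1 hj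
    rw [rot_V1] at h1
    rw [h1]
    simp only [rot_s1]
  refine
    { e12 := E12.2.1, e23 := E23.2.1, e34 := E34.2.1, incO23 := ?_, incO34 := ?_, incO12 := ?_,
      exi1 := ?_, exi3 := ?_, free1 := ?_, free3 := ?_, wired1 := ?_, wired3 := ?_,
      vanI := ?_, vanII := ?_, vanIII := ?_, vanIV := ?_, eqA := ?_, eqD := ?_ }
  · intro ω hω z hz
    exact incO_X hh H Q.w0 hX hd t0 Q.w34 hY34 t34 E23 Q.root0.notMem hω hz
  · intro ω hω z hz
    exact incO_Y hh H Q.w0 hX hd t0 Q.w34 hY34 t34 E34 Q.root34.notMem hω hz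
  · intro ω hω z hz
    have hE : IsEnv S.rot h W12 (r1 S.rot h) (S.rot.k 0 + 1) X12 := by
      rw [rot_r1, rot_k0]; exact E12
    have hr : plab (r1 S.rot h) ∉ EE S.rot h := by rw [rot_r1]; exact Q.root12.notMem
    have h1 := incO_Y (S := S.rot) hh HR w0R hXR hdR t0R w12R hYR t12R hE hr (ω := ω) hω hz
    rw [rot_V1, rot_V3, ← mul_assoc, ← ph_add, show (2 : ℤ) + 4 = 0 + 6 by norm_num, ph_add_six,
      ph_zero, one_mul] at h1
    rw [h1]
    simp only [rot_TT]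
  · intro ω hω i hi j hj1 hj
    exact V1_exi hh H Q.w0 hX hd t0 Q.w34 hY34 t34 hω hi hj1 hj
  · intro ω hω i hi j hj1 hj
    rcases Nat.lt_or_ge i S.m3 with h1 | h1
    · have h2 := key3 ω hω (i + S.rot.m3) (by
        have := S.pos
        simp only [Shape.rot_N, Shape.rot_m3]; omega) j hj1 hj
      rw [rot_side_add, exi_up4, rot_k_add] at h2
      rw [h2]
      simp only [if_pos h1]
    · have h2 := key3 ω hω (i - S.m3) (by simp only [Shape.rot_N]; omega) j hj1 hj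
      rw [rot_side_sub h1, rot_k_sub h1] at h2
      rw [h2]
      simp only [if_neg (Nat.not_lt.2 h1), add_zero]
  · intro ω hω i hi hf j hj1 hj
    obtain ⟨T, e, P⟩ := exists_pth hh hω Q.w0 (c := c1 S h) (Or.inl rfl)
    unfold V1
    rw [P.tm_eq hh Q.w0]
    exact VV_free hh hω Q.w0 (Or.inl rfl) P hi hf hj1 hj _
  · intro ω hω i hi hf j hj1 hj
    obtain ⟨T, e, P⟩ := exists_pth hh hω Q.w0 (c := c3 S h) (Or.inr rfl)
    unfold V3
    rw [P.tm_eq hh Q.w0]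
    exact VV_free hh hω Q.w0 (Or.inr rfl) P hi hf hj1 hj _
  · intro ω hω i hi hf j hj
    obtain ⟨T, e, P⟩ := exists_pth hh hω Q.w0 (c := c1 S h) (Or.inl rfl)
    unfold V1
    rw [P.tm_eq hh Q.w0]
    exact VV_wired hh hω Q.w0 (Or.inl rfl) P hi hf hj _
  · intro ω hω i hi hf j hj
    obtain ⟨T, e, P⟩ := exists_pth hh hω Q.w0 (c := c3 S h) (Or.inr rfl)
    unfold V3
    rw [P.tm_eq hh Q.w0]
    exact VV_wired hh hω Q.w0 (Or.inr rfl) P hi hf hj _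
  · intro ω hω i hi j hj1 hj hs
    obtain ⟨T, e, P⟩ := exists_pth hh hω Q.w0 (c := c3 S h) (Or.inr rfl)
    unfold s3 at hs
    rw [P.tm_eq hh Q.w0] at hs
    exact van_I hh H Q.w0 hX hd Q.w34 hY34 co34 hω P hi hj1 hj hs
  · intro ω hω i hi2 hi3 j hj1 hj hs
    obtain ⟨T, e, P⟩ := exists_pth hh hω Q.w0 (c := c1 S h) (Or.inl rfl)
    unfold s1 at hs
    rw [P.tm_eq hh Q.w0] at hs
    exact van_II hh H Q.w0 hX hd hω P hi2 hi3 hj1 hj hs
  · intro ω hω i hi3 hi4 j hj1 hj hs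
    obtain ⟨T, e, P⟩ := exists_pth hh hω Q.w0 (c := c1 S h) (Or.inl rfl)
    unfold s1 at hs
    rw [P.tm_eq hh Q.w0] at hs
    exact van_III hh H Q.w0 hX hd Q.w34 hY34 co34 hω P hi3 hi4 hj1 hj hs
  · intro ω hω i hi4 hiN j hj1 hj hs
    obtain ⟨T, e, P⟩ := exists_pth hh hω Q.w0 (c := c3 S h) (Or.inr rfl)
    unfold s3 at hs
    rw [P.tm_eq hh Q.w0] at hs
    exact van_IV hh H Q.w0 hX hd hω P hi4 hiN hj1 hj hs
  · intro ω hω i hi j hj1 hj
    obtain ⟨T, e, P⟩ := exists_pth hh hω Q.w0 (c := c1 S h) (Or.inl rfl)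
    unfold s1
    rw [P.tm_eq hh Q.w0]
    exact eq_A hh H Q.w0 hX hd Q.w34 hY34 co34 hω P hi hj1 hj.le
  · intro ω hω i hi j hj1 hj ht
    obtain ⟨T, e, P⟩ := exists_pth hh hω Q.w0 (c := c3 S h) (Or.inr rfl)
    unfold s3
    rw [P.tm_eq hh Q.w0]
    exact eq_D hh H Q.w0 hX hd hω P hi hj1 hj.le ht

end Pool.Agent.H21.FM
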