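import Mathlib
import Pool.Agent.H14.FM.Fin
import Pool.Agent.H21.FM.CTabP
import Pool.Agent.H33.FM.Three
import Pool.Agent.H87.FM.LimCRA

set_option autoImplicit false
open Finset Filter Topology

/-! # Cardy's formula on a shape, assembly

`Hol3 S` is the only analytic input: the limits of the normalised primitives of the three environments
`(W12, r3)`, `(W0, r1)`, `(W34, r1)` are holomorphic. -/

namespace Pool.Agent.H21.FM

open Pool.Agent.H75.Perc hiding WL CT hh ph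
open Pool.Agent.H75.TwoArm Pool.Agent.H75.Four Pool.Agent.H69.Q1 Pool.Agent.Q1
open Pool.Agent.Q1.M4 (Cell Good IsSide nextSide tail head PType Reg Om lat inV inRect lpt pt IsLim
  holo_of_CRA continuousOn_of_hold)
open Pool.Agent.H33.Q1 Pool.Agent.H33.FM
open Pool.Agent.H19.RH (Cht Data4 lam)
open Pool.Agent.H13.Q1.Four (cardy)
open Pool.Agent.H87.FM (gx gx_mono Rs Xs hd_of)
open Pool.Agent.H14.FM (DataOK Tri lim_eq qn_mem ic)

/-- `g` is the limit of the normalised primitives along `U` (no holomorphy) -/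
structure IsLim0 (P : PType) (hs : ℕ → ℕ) (Ht : ℕ → ℤ × ℤ → ℂ) (U : Ultrafilter ℕ) (g : ℂ → ℂ) :
    Prop where
  cont : ContinuousOn g (Reg P.Q (fun i : ℤ => (i : ℝ)) (fun i : ℤ => (i : ℝ)))
  hold : ∃ C > 0, ∃ r > 0, ∀ z ∈ Reg P.Q (fun i : ℤ => (i : ℝ)) (fun i : ℤ => (i : ℝ)),
    ∀ z' ∈ Reg P.Q (fun i : ℤ => (i : ℝ)) (fun i : ℤ => (i : ℝ)), ‖z - z'‖ ≤ r →
      ‖g z - g z'‖ ≤ C * ‖z - z'‖ ^ (2 / 3 : ℝ)
  lim : ∀ z ∈ Reg P.Q (fun i : ℤ => (i : ℝ)) (fun i : ℤ => (i : ℝ)), ∀ v : ℕ → ℤ × ℤ,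
    (∀ᶠ j in (U : Filter ℕ), inG P (hs j) (v j)) →
    Tendsto (fun j => lat (v j) / ((2 * (hs j : ℝ) : ℝ) : ℂ)) U (𝓝 z) →
    Tendsto (fun j => nrm P (hs j) (Ht j) (v j)) U (𝓝 (g z))

/-- the three environments at scale `h` with their primitives, order 12, 23, 34 -/
structure Tri3 (S : Shape) (h : ℕ) (X : Fin 3 → Env) (H : Fin 3 → ℤ × ℤ → ℂ) : Prop where
  e12 : IsEnv S h (W12 S h) (r3 S h) (S.k S.m3 + 1) (X 0)
  e23 : IsEnv S h (W0 S h) (r1 S h) (S.k 0 + 1) (X 1)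
  e34 : IsEnv S h (W34 S h) (r1 S h) (S.k 0 + 1) (X 2)
  prim : ∀ i, GPrim (X i) (H i)

/-- **The analytic input.** -/
def Hol3 (S : Shape) : Prop :=
  ∀ (X : ℕ → Fin 3 → Env) (H : ℕ → Fin 3 → ℤ × ℤ → ℂ), (∀ᶠ h in atTop, Tri3 S h (X h) (H h)) →
    ∀ U : Ultrafilter ℕ, (U : Filter ℕ) ≤ atTop → ∀ g : Fin 3 → ℂ → ℂ,
      (∀ i, IsLim0 S.P (fun h => h) (fun h => H h i) U (g i)) →
      ∀ i, DifferentiableOn ℂ (g i) (Om S.P.Q (fun i : ℤ => (i : ℝ)) (fun i : ℤ => (i : ℝ)))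

lemma Tri3.planeK {S : Shape} {h : ℕ} {X : Fin 3 → Env} {H : Fin 3 → ℤ × ℤ → ℂ}
    (T : Tri3 S h X H) (i : Fin 3) : M6c.PlaneK (X i) ∧ (X i).E = TL S.P.Q (2 * h) ∧
      GPrim (X i) (H i) := by
  refine ⟨?_, ?_, T.prim i⟩
  · match i with
    | 0 => exact ⟨_, T.e12.1⟩
    | 1 => exact ⟨_, T.e23.1⟩
    | 2 => exact ⟨_, T.e34.1⟩
  · match i with
    | 0 => exact T.e12.2.1
    | 1 => exact T.e23.2.1
    | 2 => exact T.e34.2.1

/-- limits exist -/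
lemma exists_isLim0 {P : PType} {K : Env → Prop} (hH : HoldOK P K) {hs : ℕ → ℕ}
    (hs_top : Tendsto hs atTop atTop) {X : ℕ → Env} {Ht : ℕ → ℤ × ℤ → ℂ}
    (hX : ∀ᶠ j in atTop, K (X j) ∧ (X j).E = TL P.Q (2 * hs j) ∧ GPrim (X j) (Ht j))
    (U : Ultrafilter ℕ) (hU : (U : Filter ℕ) ≤ atTop) : ∃ g : ℂ → ℂ, IsLim0 P hs Ht U g := by
  classical
  have D := hd_of hH hs_top hX
  have h0 : ∀ z : ℂ, ∃ a, z ∈ Reg P.Q gx gx → IsLim P (Rs hs) (Xs hs) (Xs hs)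
      (fun j => nrm P (hs j) (Ht j)) U z a := by
    intro z
    by_cases hz : z ∈ Reg P.Q gx gx
    · obtain ⟨a, ha⟩ := D.exists_isLim gx_mono gx_mono U hU hz
      exact ⟨a, fun _ => ha⟩
    · exact ⟨0, fun h => absurd h hz⟩
  choose g hg using h0
  obtain ⟨C, hC', r0, hr0, hold⟩ := D.hold_lim gx_mono gx_mono hU hg
  refine ⟨g, continuousOn_of_hold hr0 hold, ⟨C, hC', r0, hr0, hold⟩, ?_⟩
  intro z hz v hv hvz
  exact hg z hz v ⟨hv, hvz⟩

lemma IsLim0.isLim4 {P : PType} {hs : ℕ → ℕ} {Ht : ℕ → ℤ × ℤ → ℂ} {U : Ultrafilter ℕ} {g : ℂ → ℂ}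
    (L : IsLim0 P hs Ht U g) (hd : DifferentiableOn ℂ g
      (Om P.Q (fun i : ℤ => (i : ℝ)) (fun i : ℤ => (i : ℝ)))) : IsLim4 P hs Ht U g :=
  ⟨L.cont, hd, L.hold, L.lim⟩

/-- the environments exist -/
lemma exists_tri3 (S : Shape) (hG : ExGPrim S.P) {h : ℕ} (hh : 4 ≤ h) :
    ∃ X H, Tri3 S h X H := by
  have Q := threeW S hh
  have hk1 : (S.k 0 + 1) % 4 = ty (r1 S h) := by
    unfold r1 Shape.k; rw [Pool.Agent.H5.Q1.ty_oc]
  have hk3 : (S.k S.m3 + 1) % 4 = ty (r3 S h) := by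
    unfold r3 Shape.k; rw [Pool.Agent.H5.Q1.ty_oc]
  have h1 : 1 ≤ h := by omega
  set X12 := envW S h (W12 S h) (r3 S h) (S.k S.m3 + 1) Q.w12 Q.root12 hk3 h1
  set X23 := envW S h (W0 S h) (r1 S h) (S.k 0 + 1) Q.w0 Q.root0 hk1 h1
  set X34 := envW S h (W34 S h) (r1 S h) (S.k 0 + 1) Q.w34 Q.root34 hk1 h1
  have E12 := isEnv_envW S h (W12 S h) (r3 S h) (S.k S.m3 + 1) Q.w12 Q.root12 hk3 h1
  have E23 := isEnv_envW S h (W0 S h) (r1 S h) (S.k 0 + 1) Q.w0 Q.root0 hk1 h1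
  have E34 := isEnv_envW S h (W34 S h) (r1 S h) (S.k 0 + 1) Q.w34 Q.root34 hk1 h1
  obtain ⟨H12, g12⟩ := hG h X12 h1 E12.2.1
  obtain ⟨H23, g23⟩ := hG h X23 h1 E23.2.1
  obtain ⟨H34, g34⟩ := hG h X34 h1 E34.2.1
  refine ⟨![X12, X23, X34], ![H12, H23, H34], E12, E23, E34, ?_⟩
  intro i
  match i with
  | 0 => exact g12
  | 1 => exact g23
  | 2 => exact g34

/-- the passage from the table for every configuration to the side identities (helper2) -/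
def TabOf (S : Shape) : Prop :=
  ∀ (h : ℕ) (X12 X23 X34 : Env) (V1 V3 : Finset (ℤ × ℤ) → ℤ × ℤ → ℂ)
    (s1 s3 : Finset (ℤ × ℤ) → ℤ × ℤ → Prop) (H12 H23 H34 : ℤ × ℤ → ℂ), 1 ≤ h →
    CTab S h X12 X23 X34 V1 V3 s1 s3 → GPrim X12 H12 → GPrim X23 H23 → GPrim X34 H34 →
    Tab S h H12 H23 H34

/-- **Cardy's formula on a shape** from the holomorphy of the three limits. -/
theorem cardy_of_hol3 (S : Shape) {φ : ℂ → ℂ} (C : Cht S.P ic ic φ) (hG : ExGPrim S.P)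
    (hH : HoldOK S.P M6c.PlaneK) (hT : TabOf S) (hM : MarkBound S) (hDt : DataOK S)
    (hol : Hol3 S) :
    Tendsto (fun h => qn S h) atTop (𝓝 (cardy (lam S.P ic ic S.m2 S.m3 S.m4 φ))) := by
  classical
  rw [tendsto_iff_ultrafilter]
  intro U hU
  have hch : ∀ h : ℕ, ∃ XH : (Fin 3 → Env) × (Fin 3 → ℤ × ℤ → ℂ), 4 ≤ h →
      Tri3 S h XH.1 XH.2 := by
    intro h
    by_cases hc : 4 ≤ h
    · obtain ⟨X, H, hT⟩ := exists_tri3 S hG hc
      exact ⟨⟨X, H⟩, fun _ => hT⟩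
    · obtain ⟨X, H, -⟩ := exists_tri3 S hG (le_refl 4)
      exact ⟨⟨X, H⟩, fun h' => absurd h' hc⟩
  choose XH hXH using hch
  have hev : ∀ᶠ h : ℕ in atTop, Tri3 S h (XH h).1 (XH h).2 := by
    filter_upwards [eventually_ge_atTop 4] with h hh
    exact hXH h hh
  have hid : Tendsto (fun j : ℕ => j) atTop atTop := tendsto_id
  have hlim : ∀ i : Fin 3, ∃ g : ℂ → ℂ, IsLim0 S.P (fun h => h) (fun h => (XH h).2 i) U g := by
    intro i
    exact exists_isLim0 hH hid (hev.mono fun h hT => hT.planeK i) U hU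
  choose g hg using hlim
  have hdiff := hol (fun h => (XH h).1) (fun h => (XH h).2) hev U hU g hg
  have hL : ∀ i, IsLim4 S.P (fun h => h) (fun h => (XH h).2 i) U (g i) :=
    fun i => (hg i).isLim4 (hdiff i)
  have hTb : ∀ᶠ h : ℕ in (U : Filter ℕ), Tab S h ((XH h).2 0) ((XH h).2 1) ((XH h).2 2) := by
    filter_upwards [hU (eventually_ge_atTop 4)] with h hh
    have T := hXH h hh
    exact hT h _ _ _ _ _ _ _ _ _ _ (by omega)
      (ctab (by omega) (threeW S hh) T.e12 T.e23 T.e34) (T.prim 0) (T.prim 1) (T.prim 2)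
  have D := hDt U hU _ _ _ hTb (g 0) (g 1) (g 2) (hL 0) (hL 1) (hL 2)
  obtain ⟨q, -, hq⟩ := (isCompact_Icc (a := (0 : ℝ)) (b := 1)).ultrafilter_le_nhds'
    (U.map (qn S)) (by
      rw [Ultrafilter.mem_map]
      exact Filter.mem_of_superset Filter.univ_mem fun h _ => qn_mem S h)
  have hq' : Tendsto (qn S) U (𝓝 q) := hq
  have e := lim_eq C hM hU hTb (hL 0) (hL 1) D hq'
  rw [← e]
  exact hq'

/-- `Hol3` from `LimOK` (that is from `N1` for all plane environments) -/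
theorem hol3_of_limOK {S : Shape} (hL : LimOK S.P M6c.PlaneK) : Hol3 S := by
  intro X H hT U hU g hg i
  have hid : Tendsto (fun j : ℕ => j) atTop atTop := tendsto_id
  obtain ⟨g', L⟩ := hL (fun j => j) hid (fun h => X h i) (fun h => H h i)
    (hT.mono fun h hT => hT.planeK i) U hU
  have heq : ∀ z ∈ Reg S.P.Q gx gx, g i z = g' z := by
    intro z hz
    obtain ⟨w, hw1, hw2⟩ := M4.exists_appr (P := S.P) gx_mono gx_mono
      (Pool.Agent.H87.FM.approx_s hid) hU hz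
    exact tendsto_nhds_unique ((hg i).lim z hz w hw1 hw2) (L.lim z hz w hw1 hw2)
  refine L.holo.congr fun z hz => heq z ?_
  exact M4.Om_subset _ _ _ hz

end Pool.Agent.H21.FM
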