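import Mathlib
import Pool.Agent.H21.FM.Final
import Pool.Agent.H76.FM.Hold
import Pool.Agent.Q1.M6c.APMain
import Pool.Agent.H9.FM.Mark
import Pool.Agent.H2.FM.Tab
import Pool.Agent.H58.FM.DataOK

set_option autoImplicit false
open Finset Filter Topology

/-! # Cardy's formula on a shape: everything except the holomorphy of the limits -/

namespace Pool.Agent.H21.FM

open Pool.Agent.H75.TwoArm Pool.Agent.H75.Four Pool.Agent.H69.Q1 Pool.Agent.Q1
open Pool.Agent.H19.RH (Cht Data4 lam)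
open Pool.Agent.H13.Q1.Four (cardy)
open Pool.Agent.H14.FM (DataOK ic)

/-- **Cardy's formula on a shape** from `Hol3`. -/
theorem cardyShape (S : Shape) {φ : ℂ → ℂ} (C : Cht S.P ic ic φ) (hol : Hol3 S) :
    Tendsto (fun h => qn S h) atTop (𝓝 (cardy (lam S.P ic ic S.m2 S.m3 S.m4 φ))) :=
  cardy_of_hol3 S C (H76.FM.exGPrim S.P) (H76.FM.holdOK S.P M6c.ap_planeK)
    (fun _ _ _ _ _ _ _ _ _ _ _ hh T g12 g23 g34 => tab_of_ctab hh T g12 g23 g34)
    (H9.FM.markBound S) (H58.FM.dataOK S) hol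

end Pool.Agent.H21.FM
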