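import Mathlib
import Pool.Agent.H21.FM.CTabP

set_option autoImplicit false
open Finset

/-! # Facts on the strands (for the mark estimates) -/

namespace Pool.Agent.H21.FM

open Pool.Agent.H75.Perc hiding WL CT hh ph
open Pool.Agent.H75.TwoArm Pool.Agent.H75.Four Pool.Agent.H69.Q1 Pool.Agent.Q1
open Pool.Agent.H33.Q1

variable {S : Shape} {h : ℕ} {ω : Finset (ℤ × ℤ)} {z : ℤ × ℤ}

lemma s1_of_V1 (hz : V1 S h ω z ≠ 0) : s1 S h ω z := by
  by_contra hn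
  exact hz (VV_off hn _)

lemma s3_of_V3 (hz : V3 S h ω z ≠ 0) : s3 S h ω z := by
  by_contra hn
  exact hz (VV_off hn _)

/-- a corner of the first strand is in the cluster of the arc IV -/
lemma s1_co (H : s1 S h ω z) : C1 S h (vx z) ω := by
  have h1 := inOrb_vx (On.inOrb H)
  rw [vx_c1] at h1
  exact Co.symm h1

/-- a corner of the third strand is in the cluster of the arc II -/
lemma s3_co (H : s3 S h ω z) : C3 S h (vx z) ω := by
  have h1 := inOrb_vx (On.inOrb H)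
  rw [vx_c3] at h1
  exact Co.symm h1

/-- the faces of the first strand -/
lemma s1_dco (H : s1 S h ω z) : DCo (ω ∪ W0 S h) (fi (c1 S h)) (fi z) := inOrb_fi (On.inOrb H)

/-- the faces of the third strand -/
lemma s3_dco (H : s3 S h ω z) : DCo (ω ∪ W0 S h) (fi (c3 S h)) (fi z) := inOrb_fi (On.inOrb H)

/-- the faces of the roots -/
lemma r1_dco (hh : 0 < h) (hW0 : Wir S h (W0 S h)) (hω : ω ⊆ EE S h) :
    DCo (ω ∪ W0 S h) (fi (r1 S h)) (fi (c1 S h)) :=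
  inOrb_fi ⟨1, by rw [Function.iterate_one]; exact (nx_r1 hh hω hW0).1⟩

lemma r3_dco (hh : 0 < h) (hW0 : Wir S h (W0 S h)) (hω : ω ⊆ EE S h) :
    DCo (ω ∪ W0 S h) (fi (r3 S h)) (fi (c3 S h)) :=
  inOrb_fi ⟨1, by rw [Function.iterate_one]; exact (nx_r3 hh hω hW0).1⟩

/-- the two strands have no corner in common (not connected: different clusters) -/
lemma norm_V1_le (hh : 0 < h) (hW0 : Wir S h (W0 S h)) (hω : ω ⊆ EE S h) (z : ℤ × ℤ) :
    ‖V1 S h ω z‖ ≤ 1 := by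
  obtain ⟨T, e, P⟩ := exists_pth hh hω hW0 (c := c1 S h) (Or.inl rfl)
  unfold V1
  rw [P.tm_eq hh hW0]
  by_cases hO : On (ω ∪ W0 S h) (c1 S h) T z
  · obtain ⟨s, hs, he⟩ := hO
    rw [VV_on hh hω hW0 (Or.inl rfl) P hs he, ph_norm]
  · rw [VV_off hO]; simp

lemma norm_V3_le (hh : 0 < h) (hW0 : Wir S h (W0 S h)) (hω : ω ⊆ EE S h) (z : ℤ × ℤ) :
    ‖V3 S h ω z‖ ≤ 1 := by
  obtain ⟨T, e, P⟩ := exists_pth hh hω hW0 (c := c3 S h) (Or.inr rfl)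
  unfold V3
  rw [P.tm_eq hh hW0]
  by_cases hO : On (ω ∪ W0 S h) (c3 S h) T z
  · obtain ⟨s, hs, he⟩ := hO
    rw [VV_on hh hω hW0 (Or.inr rfl) P hs he, ph_norm]
  · rw [VV_off hO]; simp

/-! ### For all admissible wired labels -/

variable {W W34 W12 : Finset (ℤ × ℤ)}

lemma r1_dco' (hh : 0 < h) (hW : Wir S h W) (hω : ω ⊆ EE S h) :
    DCo (ω ∪ W) (fi (r1 S h)) (fi (c1 S h)) :=
  inOrb_fi ⟨1, by rw [Function.iterate_one]; exact (nx_r1 hh hω hW).1⟩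

lemma r3_dco' (hh : 0 < h) (hW : Wir S h W) (hω : ω ⊆ EE S h) :
    DCo (ω ∪ W) (fi (r3 S h)) (fi (c3 S h)) :=
  inOrb_fi ⟨1, by rw [Function.iterate_one]; exact (nx_r3 hh hω hW).1⟩

lemma s1_inOrb (hh : 0 < h) (hW0 : Wir S h (W0 S h)) (hW : Wir S h W) (hω : ω ⊆ EE S h)
    (H : s1 S h ω z) : InOrb (nx (ω ∪ W)) (c1 S h) z := by
  obtain ⟨T, e, P⟩ := exists_pth hh hω hW0 (c := c1 S h) (Or.inl rfl)
  unfold s1 at H
  rw [P.tm_eq hh hW0] at H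
  exact ((On.transfer hh hω hW0 hW P).2 H).inOrb

lemma s3_inOrb (hh : 0 < h) (hW0 : Wir S h (W0 S h)) (hW : Wir S h W) (hω : ω ⊆ EE S h)
    (H : s3 S h ω z) : InOrb (nx (ω ∪ W)) (c3 S h) z := by
  obtain ⟨T, e, P⟩ := exists_pth hh hω hW0 (c := c3 S h) (Or.inr rfl)
  unfold s3 at H
  rw [P.tm_eq hh hW0] at H
  exact ((On.transfer hh hω hW0 hW P).2 H).inOrb

lemma s1_co_all (hh : 0 < h) (hW0 : Wir S h (W0 S h)) (hW : Wir S h W) (hω : ω ⊆ EE S h)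
    (H : s1 S h ω z) : Co (ω ∪ W) (v1 S h) (vx z) := by
  have := inOrb_vx (s1_inOrb hh hW0 hW hω H)
  rwa [vx_c1] at this

lemma s3_co_all (hh : 0 < h) (hW0 : Wir S h (W0 S h)) (hW : Wir S h W) (hω : ω ⊆ EE S h)
    (H : s3 S h ω z) : Co (ω ∪ W) (v3 S h) (vx z) := by
  have := inOrb_vx (s3_inOrb hh hW0 hW hω H)
  rwa [vx_c3] at this

lemma s1_dco_all (hh : 0 < h) (hW0 : Wir S h (W0 S h)) (hW : Wir S h W) (hω : ω ⊆ EE S h)
    (H : s1 S h ω z) : DCo (ω ∪ W) (fi (r1 S h)) (fi z) :=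
  (r1_dco' hh hW hω).trans (inOrb_fi (s1_inOrb hh hW0 hW hω H))

lemma s3_dco_all (hh : 0 < h) (hW0 : Wir S h (W0 S h)) (hW : Wir S h W) (hω : ω ⊆ EE S h)
    (H : s3 S h ω z) : DCo (ω ∪ W) (fi (r3 S h)) (fi z) :=
  (r3_dco' hh hW hω).trans (inOrb_fi (s3_inOrb hh hW0 hW hω H))

/-- connected: the two free arcs are not joined by closed labels, whatever is wired -/
lemma not_dco_of_tt (hh : 0 < h) (Q : ThreeW S h W34 W12) (hω : ω ⊆ EE S h)
    (hW : Wir S h W) (hc : Co W (v1 S h) (v3 S h)) (ht : TT S h ω) :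
    ¬ DCo (ω ∪ W) (fi (r1 S h)) (fi (r3 S h)) := by
  intro hD
  have H := hug S hh
  have hd := dco_c13 hh Q.w0 Q.dco
  have hX := typX_of_dco H hh Q.w0 hd
  have hY := typY_of_co H hh hW (by rw [vx_c1, vx_c3]; exact hc)
  obtain ⟨T, e, P⟩ := exists_pth hh hω Q.w0 (c := c1 S h) (Or.inl rfl)
  rw [tt_iff hh Q.w0 hX hd hω P] at ht
  rw [ht] at P
  obtain ⟨o2, o4, d2, d4, O2, O4⟩ := hY
  have P' := (P.transfer hh hω Q.w0 hW).1
  apply short_disj hh hω hW (Or.inl rfl) (Or.inr rfl) (c1_ne_c3 hh) P' (O2 ω hω).1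
  refine inOrb_of ?_ ?_
  · rw [vx_c1, vx_c3]
    exact hc.mono subset_union_right
  · exact (r1_dco' hh hW hω).symm.trans (hD.trans (r3_dco' hh hW hω))

end Pool.Agent.H21.FM
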